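import Pool.Agent.Run7.h509.Mat

/-!
# Minors of series-parallel matroids
-/

set_option autoImplicit false

namespace Run7.h509

open Finset

variable {α : Type} [DecidableEq α] {r r' : Finset α → ℕ}

/-- transport -/
theorem SP.congr (σ : Equiv.Perm α) {Y C : Finset α} (h : SP r Y C) : ∀ C' : Finset α, 
    (∀ X : Finset α, X ⊆ Y → r' (X.map σ.toEmbedding ∪ C') + r C = r (X ∪ C) + r' C') → 
    SP r' (Y.map σ.toEmbedding) C' := by
  have hm : ∀ {e : α} {Y : Finset α}, e ∉ Y → σ e ∉ Y.map σ.toEmbedding := by
    intro e Y he h
    rw [Finset.mem_map] at h
    obtain ⟨a, ha, hae⟩ := h
    have : a = e := σ.injective hae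
    subst this
    exact he ha
  have hins : ∀ (e : α) (Y : Finset α), (insert e Y).map σ.toEmbedding = insert (σ e) (Y.map σ.toEmbedding) := 
    fun e Y => Finset.map_insert _ _ _
  induction h with
  | nil C => intro C' _; rw [Finset.map_empty]; exact SP.nil _
  | @loop Y C e he hl _ ih =>
    intro C' H
    rw [hins]
    refine SP.loop (hm he) ?_ (ih C' (fun X hX => H X (hX.trans (Finset.subset_insert _ _))))
    have h1 := H (insert e ∅) (Finset.insert_subset_insert _ (Finset.empty_subset _))
    rw [hins, Finset.map_empty, Finset.insert_union, Finset.insert_union, Finset.empty_union, 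
      Finset.empty_union] at h1
    omega
  | @coloop Y C e he hcl _ ih =>
    intro C' H
    rw [hins]
    have h1 := H (insert e ∅) (Finset.insert_subset_insert _ (Finset.empty_subset _))
    rw [hins, Finset.map_empty, Finset.insert_union, Finset.insert_union, Finset.empty_union, 
      Finset.empty_union] at h1
    have h2 := H Y (Finset.subset_insert _ _)
    have h3 := H (insert e Y) (Finset.Subset.refl _)
    rw [hins, Finset.insert_union, Finset.insert_union] at h3
    refine SP.coloop (hm he) (by omega) (ih _ ?_)
    intro X hX
    have h4 := H (insert e X) (Finset.insert_subset_insert _ hX)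
    rw [hins, Finset.insert_union, Finset.insert_union] at h4
    rw [Finset.union_insert, Finset.union_insert]
    omega
  | @par Y C e f he hf hle hlf hef _ ih =>
    intro C' H
    rw [hins, hins]
    have h1 := H (insert e ∅) (Finset.insert_subset_insert _ (Finset.empty_subset _))
    have h2 := H (insert f ∅) (by
      intro x hx
      rw [Finset.mem_insert] at hx
      rcases hx with rfl | hx
      · simp
      · exact absurd hx (Finset.notMem_empty _))
    have h3 := H (insert f (insert e ∅)) (by
      intro x hx
      rw [Finset.mem_insert, Finset.mem_insert] at hx
      rcases hx with rfl | rfl | hx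
      · simp
      · simp
      · exact absurd hx (Finset.notMem_empty _))
    rw [hins, Finset.map_empty, Finset.insert_union, Finset.insert_union, Finset.empty_union, 
      Finset.empty_union] at h1 h2
    rw [hins, hins, Finset.map_empty, Finset.insert_union, Finset.insert_union, Finset.insert_union, 
      Finset.insert_union, Finset.empty_union, Finset.empty_union] at h3
    have he' : σ e ∉ insert (σ f) (Y.map σ.toEmbedding) := by
      rw [← hins]
      exact hm he
    have i1 := ih C' (fun X hX => H X (hX.trans (Finset.insert_subset_insert _ (Finset.subset_insert _ _))))
    rw [hins] at i1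
    refine SP.par he' (hm hf) ?_ ?_ ?_ i1 <;> omega
  | @ser Y C e f he hf hce hcf hcef _ ih =>
    intro C' H
    rw [hins, hins]
    have hfsub : insert f Y ⊆ insert e (insert f Y) := Finset.subset_insert _ _
    have hYsub : Y ⊆ insert e (insert f Y) := (Finset.subset_insert _ _).trans hfsub
    have h0 := H (insert f ∅) (by
      intro x hx
      rw [Finset.mem_insert] at hx
      rcases hx with rfl | hx
      · simp
      · exact absurd hx (Finset.notMem_empty _))
    have h1 := H Y hYsub
    have h2 := H (insert e Y) (Finset.insert_subset_insert _ (Finset.subset_insert _ _))
    have h3 := H (insert f Y) hfsub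
    have h4 := H (insert f (insert e Y)) (by rw [Finset.insert_comm])
    rw [hins, Finset.map_empty, Finset.insert_union, Finset.insert_union, Finset.empty_union, 
      Finset.empty_union] at h0
    rw [hins, Finset.insert_union, Finset.insert_union] at h2 h3
    rw [hins, hins, Finset.insert_union, Finset.insert_union, Finset.insert_union, 
      Finset.insert_union] at h4
    have he' : σ e ∉ insert (σ f) (Y.map σ.toEmbedding) := by
      rw [← hins]
      exact hm he
    have i1 := ih (insert (σ f) C') (by
      intro X hX
      have h5 := H (insert f X) (by
        rw [Finset.insert_comm]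
        exact Finset.insert_subset_insert _ hX)
      rw [hins, Finset.insert_union, Finset.insert_union] at h5
      rw [Finset.union_insert, Finset.union_insert]
      omega)
    rw [hins] at i1
    refine SP.ser he' (hm hf) ?_ ?_ ?_ i1 <;> omega

/-- change of the contracted set -/
theorem SP.rel {Y C : Finset α} (h : SP r Y C) (C' : Finset α) 
    (H : ∀ X : Finset α, X ⊆ Y → r (X ∪ C') + r C = r (X ∪ C) + r C') : SP r Y C' := by
  have h1 := h.congr (r' := r) (1 : Equiv.Perm α) C' (by
    intro X hX
    have : X.map (1 : Equiv.Perm α).toEmbedding = X := by
      ext x; rw [Finset.mem_map_equiv]; rfl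
    rw [this]
    exact H X hX)
  have h2 : Y.map (1 : Equiv.Perm α).toEmbedding = Y := by
    ext x; rw [Finset.mem_map_equiv]; rfl
  rwa [h2] at h1

theorem map_swap_insert {Y : Finset α} {e f : α} (he : e ∉ Y) (hf : f ∉ Y) : 
    (insert e Y).map (Equiv.swap e f).toEmbedding = insert f Y := by
  rw [Finset.map_insert]
  have h1 : Y.map (Equiv.swap e f).toEmbedding = Y := by
    ext x
    simp only [Finset.mem_map_equiv, Equiv.symm_swap]
    by_cases hx : x = e
    · subst hx; simp [he, hf]
    · by_cases hx' : x = f
      · subst hx'; simp [he, hf]
      · rw [Equiv.swap_apply_of_ne_of_ne hx hx']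
  rw [h1]
  congr 1
  simp

theorem erase_two {Y : Finset α} {e a : α} (h : e ≠ a) : (insert e Y).erase a = insert e (Y.erase a) := by
  rw [Finset.erase_insert_of_ne h]

/-- deletion and contraction of one element -/
theorem SP.minor (hr : IsRk r) {Y C : Finset α} (h : SP r Y C) : 
    ∀ a ∈ Y, SP r (Y.erase a) C ∧ SP r (Y.erase a) (insert a C) := by
  induction h with
  | nil C => intro a ha; exact absurd ha (Finset.notMem_empty _)
  | @loop Y C e he hl hsp ih =>
    intro a ha
    by_cases hae : a = e
    · subst hae
      rw [Finset.erase_insert he]
      refine ⟨hsp, hsp.rel _ ?_⟩
      intro X _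
      rw [Finset.union_insert, hr.loc C (X ∪ C) a Finset.subset_union_right hl, hl]
    · have haY : a ∈ Y := (Finset.mem_insert.1 ha).resolve_left hae
      obtain ⟨i1, i2⟩ := ih a haY
      rw [erase_two (Ne.symm hae)]
      have he' : e ∉ Y.erase a := fun h => he (Finset.mem_of_mem_erase h)
      refine ⟨SP.loop he' hl i1, SP.loop he' (hr.loc C _ e (Finset.subset_insert _ _) hl) i2⟩
  | @coloop Y C e he hcl hsp ih =>
    intro a ha
    have hup : ∀ A : Finset α, A ⊆ Y ∪ C → r (insert e A) = r A + 1 := fun A hA => 
      hr.up hA (by omega)
    by_cases hae : a = e
    · subst hae
      rw [Finset.erase_insert he]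
      refine ⟨hsp.rel _ ?_, hsp⟩
      intro X hX
      rw [Finset.union_insert, hup C Finset.subset_union_right, 
        hup (X ∪ C) (Finset.union_subset_union_left hX)]
      omega
    · have haY : a ∈ Y := (Finset.mem_insert.1 ha).resolve_left hae
      obtain ⟨i1, i2⟩ := ih a haY
      rw [erase_two (Ne.symm hae)]
      have he' : e ∉ Y.erase a := fun h => he (Finset.mem_of_mem_erase h)
      refine ⟨SP.coloop he' (hup _ (Finset.union_subset_union_left (Finset.erase_subset _ _))) i1, ?_⟩
      rw [Finset.insert_comm] at i2
      refine SP.coloop he' ?_ i2
      rw [Finset.union_insert, ← Finset.insert_union, Finset.insert_erase haY]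
      exact hcl
  | @par Y C e f he hf hle hlf hef hsp ih =>
    intro a ha
    have heY : e ∉ Y := fun h => he (Finset.mem_insert_of_mem h)
    have hne : e ≠ f := fun h => he (by rw [h]; exact Finset.mem_insert_self _ _)
    have le : r (insert f (insert e C)) = r (insert e C) := by omega
    have lf : r (insert e (insert f C)) = r (insert f C) := by
      rw [Finset.insert_comm]; omega
    have hpar : ∀ A : Finset α, C ⊆ A → r (insert e A) = r (insert f A) := by
      intro A hA
      have h1 := hr.loc (insert e C) (insert e A) f (Finset.insert_subset_insert _ hA) le
      have h2 := hr.loc (insert f C) (insert f A) e (Finset.insert_subset_insert _ hA) lf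
      rw [Finset.insert_comm] at h2
      omega
    obtain ⟨j1, j2⟩ := ih e (Finset.mem_insert_self _ _)
    rw [Finset.erase_insert heY] at j1 j2
    by_cases haf : a = f
    · subst haf
      have e1 : (insert e (insert a Y)).erase a = insert e Y := by
        rw [Finset.insert_comm, Finset.erase_insert]
        rw [Finset.mem_insert]
        rintro (h | h)
        · exact hne h.symm
        · exact hf h
      rw [e1]
      refine ⟨hsp, SP.loop heY lf (j2.rel _ ?_)⟩
      intro X _
      rw [Finset.union_insert, Finset.union_insert, hpar (X ∪ C) Finset.subset_union_right, hle, hlf]
    · by_cases hae : a = e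
      · subst hae
        rw [Finset.erase_insert he]
        refine ⟨?_, SP.loop hf le j2⟩
        have h1 := hsp.congr (r' := r) (Equiv.swap a f) C (by
          intro X hX
          by_cases haX : a ∈ X
          · obtain ⟨X0, haX0, rfl⟩ : ∃ X0, a ∉ X0 ∧ X = insert a X0 := 
              ⟨X.erase a, Finset.notMem_erase a X, (Finset.insert_erase haX).symm⟩
            have hfX : f ∉ X0 := by
              intro h
              have := hX (Finset.mem_insert_of_mem h)
              rw [Finset.mem_insert] at this
              rcases this with h' | h'
              · exact hne h'.symm
              · exact hf h'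
            rw [map_swap_insert haX0 hfX, Finset.insert_union, Finset.insert_union, 
              hpar (X0 ∪ C) Finset.subset_union_right]
          · have hfX : f ∉ X := by
              intro h
              have := hX h
              rw [Finset.mem_insert] at this
              rcases this with h' | h'
              · exact hne h'.symm
              · exact hf h'
            have h2 : X.map (Equiv.swap a f).toEmbedding = X := by
              ext x
              simp only [Finset.mem_map_equiv, Equiv.symm_swap]
              by_cases hx : x = a
              · subst hx; simp [haX, hfX]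
              · by_cases hx' : x = f
                · subst hx'; simp [haX, hfX]
                · rw [Equiv.swap_apply_of_ne_of_ne hx hx']
            rw [h2])
        rw [map_swap_insert heY hf] at h1
        exact h1
      · have haY : a ∈ Y := by
          rw [Finset.mem_insert, Finset.mem_insert] at ha
          tauto
        obtain ⟨i1, i2⟩ := ih a (Finset.mem_insert_of_mem haY)
        have ea : e ≠ a := Ne.symm hae
        have fa : f ≠ a := Ne.symm haf
        rw [erase_two ea] at i1 i2
        rw [erase_two ea, erase_two fa]
        have hf' : f ∉ Y.erase a := fun h => hf (Finset.mem_of_mem_erase h)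
        have he' : e ∉ insert f (Y.erase a) := by
          rw [Finset.mem_insert]
          rintro (h | h)
          · exact hne h
          · exact heY (Finset.mem_of_mem_erase h)
        refine ⟨SP.par he' hf' hle hlf hef i1, ?_⟩
        have h1 := hpar (insert a C) (Finset.subset_insert _ _)
        have h2 := hr.loc (insert e C) (insert e (insert a C)) f 
          (Finset.insert_subset_insert _ (Finset.subset_insert _ _)) le
        by_cases hl : r (insert e (insert a C)) = r (insert a C)
        · rw [Finset.insert_comm]
          refine SP.loop ?_ (by rw [← h1]; exact hl) i2
          rw [Finset.mem_insert]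
          rintro (h | h)
          · exact hne h.symm
          · exact hf' h
        · have h3 := (hr.step (insert a C) e).resolve_left hl
          exact SP.par he' hf' h3 (by omega) (by omega) i2
  | @ser Y C e f he hf hce hcf hcef hsp ih =>
    intro a ha
    have heY : e ∉ Y := fun h => he (Finset.mem_insert_of_mem h)
    have hne : e ≠ f := fun h => he (by rw [h]; exact Finset.mem_insert_self _ _)
    have upe : ∀ A : Finset α, A ⊆ Y ∪ C → r (insert e A) = r A + 1 := fun A hA => 
      hr.up hA (by omega)
    have upf : ∀ A : Finset α, A ⊆ Y ∪ C → r (insert f A) = r A + 1 := fun A hA => 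
      hr.up hA (by omega)
    obtain ⟨j1, j2⟩ := ih e (Finset.mem_insert_self _ _)
    rw [Finset.erase_insert heY] at j1 j2
    by_cases haf : a = f
    · subst haf
      have e1 : (insert e (insert a Y)).erase a = insert e Y := by
        rw [Finset.insert_comm, Finset.erase_insert]
        rw [Finset.mem_insert]
        rintro (h | h)
        · exact hne h.symm
        · exact hf h
      rw [e1]
      refine ⟨SP.coloop heY hce (j1.rel _ ?_), hsp⟩
      intro X hX
      have hX' : X ∪ C ⊆ Y ∪ C := Finset.union_subset_union_left hX
      rw [Finset.union_insert, Finset.union_insert, upe _ hX', upf _ hX', 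
        upe _ Finset.subset_union_right, upf _ Finset.subset_union_right]
    · by_cases hae : a = e
      · subst hae
        rw [Finset.erase_insert he]
        refine ⟨SP.coloop hf hcf j1, ?_⟩
        have h1 := hsp.congr (r' := r) (Equiv.swap a f) (insert a C) (by
          intro X hX
          by_cases haX : a ∈ X
          · obtain ⟨X0, haX0, rfl⟩ : ∃ X0, a ∉ X0 ∧ X = insert a X0 := 
              ⟨X.erase a, Finset.notMem_erase a X, (Finset.insert_erase haX).symm⟩
            have hfX : f ∉ X0 := by
              intro h
              have := hX (Finset.mem_insert_of_mem h)
              rw [Finset.mem_insert] at this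
              rcases this with h' | h'
              · exact hne h'.symm
              · exact hf h'
            rw [map_swap_insert haX0 hfX, upe _ Finset.subset_union_right, 
              upf _ Finset.subset_union_right]
            have h3 : insert f X0 ∪ insert a C = insert a X0 ∪ insert f C := by
              rw [Finset.insert_union, Finset.insert_union, Finset.union_insert, Finset.union_insert, 
                Finset.insert_comm]
            rw [h3]
          · have hfX : f ∉ X := by
              intro h
              have := hX h
              rw [Finset.mem_insert] at this
              rcases this with h' | h'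
              · exact hne h'.symm
              · exact hf h'
            have h2 : X.map (Equiv.swap a f).toEmbedding = X := by
              ext x
              simp only [Finset.mem_map_equiv, Equiv.symm_swap]
              by_cases hx : x = a
              · subst hx; simp [haX, hfX]
              · by_cases hx' : x = f
                · subst hx'; simp [haX, hfX]
                · rw [Equiv.swap_apply_of_ne_of_ne hx hx']
            have hXY : X ⊆ Y := by
              intro x hx
              have := hX hx
              rw [Finset.mem_insert] at this
              rcases this with h' | h'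
              · subst h'; exact absurd hx haX
              · exact h'
            have hX' : X ∪ C ⊆ Y ∪ C := Finset.union_subset_union_left hXY
            rw [h2, Finset.union_insert, Finset.union_insert, upe _ hX', upf _ hX', 
              upe _ Finset.subset_union_right, upf _ Finset.subset_union_right])
        rw [map_swap_insert heY hf] at h1
        exact h1
      · have haY : a ∈ Y := by
          rw [Finset.mem_insert, Finset.mem_insert] at ha
          tauto
        obtain ⟨i1, i2⟩ := ih a (Finset.mem_insert_of_mem haY)
        have ea : e ≠ a := Ne.symm hae
        have fa : f ≠ a := Ne.symm haf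
        rw [erase_two ea] at i1 i2
        rw [erase_two ea, erase_two fa]
        have hf' : f ∉ Y.erase a := fun h => hf (Finset.mem_of_mem_erase h)
        have he' : e ∉ insert f (Y.erase a) := by
          rw [Finset.mem_insert]
          rintro (h | h)
          · exact hne h
          · exact heY (Finset.mem_of_mem_erase h)
        have hsub : Y.erase a ∪ C ⊆ Y ∪ C := Finset.union_subset_union_left (Finset.erase_subset _ _)
        constructor
        · by_cases h1 : r (insert f (insert e (Y.erase a ∪ C))) = r (Y.erase a ∪ C) + 1
          · exact SP.ser he' hf' (upe _ hsub) (upf _ hsub) h1 i1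
          · rw [Finset.insert_comm]
            refine SP.coloop ?_ ?_ i1
            · rw [Finset.mem_insert]
              rintro (h | h)
              · exact hne h.symm
              · exact hf' h
            · rw [Finset.insert_union]
              have h2 := upe _ hsub
              rcases hr.step (insert e (Y.erase a ∪ C)) f with h3 | h3 <;> omega
        · rw [Finset.insert_comm a f] at i2
          have e2 : Y.erase a ∪ insert a C = Y ∪ C := by
            rw [Finset.union_insert, ← Finset.insert_union, Finset.insert_erase haY]
          exact SP.ser he' hf' (by rw [e2]; exact hce) (by rw [e2]; exact hcf) (by rw [e2]; exact hcef) i2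

theorem SP.delete (hr : IsRk r) {Y C : Finset α} (h : SP r Y C) (D : Finset α) : SP r (Y \ D) C := by
  induction D using Finset.induction_on with
  | empty => rw [Finset.sdiff_empty]; exact h
  | insert a D _ ih =>
    have e1 : Y \ insert a D = (Y \ D).erase a := by
      ext x
      simp only [Finset.mem_sdiff, Finset.mem_insert, Finset.mem_erase, not_or]
      tauto
    rw [e1]
    by_cases ha : a ∈ Y \ D
    · exact (ih.minor hr a ha).1
    · rw [Finset.erase_eq_of_notMem ha]
      exact ih

theorem SP.contract (hr : IsRk r) {Y C : Finset α} (h : SP r Y C) (D : Finset α) : D ⊆ Y → 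
    SP r (Y \ D) (D ∪ C) := by
  induction D using Finset.induction_on with
  | empty => intro _; rw [Finset.sdiff_empty, Finset.empty_union]; exact h
  | insert a D haD ih =>
    intro hD
    have e1 : Y \ insert a D = (Y \ D).erase a := by
      ext x
      simp only [Finset.mem_sdiff, Finset.mem_insert, Finset.mem_erase, not_or]
      tauto
    rw [e1, Finset.insert_union]
    have ha : a ∈ Y \ D := Finset.mem_sdiff.2 ⟨hD (Finset.mem_insert_self _ _), haD⟩
    exact ((ih ((Finset.subset_insert _ _).trans hD)).minor hr a ha).2

end Run7.h509
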