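import Pool.Agent.Run7.h509.Main

/-!
# The rank parity criterion
-/

set_option autoImplicit false

namespace Run7.h509

open Finset LaurentPolynomial Pool.Agent.H891R2.Jones Pool.Agent.H891R2.MT Pool.Agent.H891R2.DS T4b
open Pool.Agent.H891R2.SI (Sites)
open Pool.Agent.Y463.CD hiding cluster

variable {k : ℕ}

/-! ### flats of a matroid -/

section flats

variable {α : Type} [DecidableEq α] {r : Finset α → ℕ} {r0 : ℕ}

theorem flat_sign (hr : IsRk r) : ∀ (n : ℕ) (Y C : Finset α), Y.card = n → 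
    (∀ e ∈ Y, r (insert e C) = r C + 1) → r (Y ∪ C) = r0 → 
    0 < (-1 : ℝ) ^ (r0 + r C) * Zs r r0 (fun _ => (-1 : ℝ)) Y C := by
  intro n
  induction n with
  | zero =>
    intro Y C hn hl hs
    refine strict hr 0 Y C _ hn ?_ hl ?_ hs
    · intro e he
      norm_num
    · intro e he
      rw [Finset.card_eq_zero.1 hn] at he
      exact absurd he (Finset.notMem_empty e)
  | succ n ih =>
    intro Y C hn hl hs
    by_cases hp : ∀ e ∈ Y, ∀ f ∈ Y, e ≠ f → r (insert f (insert e C)) = r C + 2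
    · exact strict hr (n + 1) Y C _ hn (fun e _ => by norm_num) hl hp hs
    · push Not at hp
      obtain ⟨e, he, f, hf, hef, h1⟩ := hp
      have hle := hl e he
      have hlf := hl f hf
      have h2 : r (insert f (insert e C)) = r (insert e C) := by
        rcases hr.step (insert e C) f with h | h
        · exact h
        · omega
      have h3 : r (insert e (insert f C)) = r (insert f C) := by
        rw [Finset.insert_comm, h2, hle, hlf]
      obtain ⟨Y', hY1, hY2, rfl⟩ : ∃ Y', f ∉ Y' ∧ e ∉ insert f Y' ∧ Y = insert e (insert f Y') := by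
        refine ⟨(Y.erase e).erase f, Finset.notMem_erase _ _, ?_, ?_⟩
        · rw [Finset.insert_erase (Finset.mem_erase.2 ⟨hef.symm, hf⟩)]
          exact Finset.notMem_erase _ _
        · rw [Finset.insert_erase (Finset.mem_erase.2 ⟨hef.symm, hf⟩), Finset.insert_erase he]
      have heY' : e ∉ Y' := fun h => hY2 (Finset.mem_insert_of_mem h)
      rw [Zs_parallel hr _ hY2 hY1 h2 h3]
      have h4 : Function.update (fun _ : α => (-1 : ℝ)) e ((-1 : ℝ) + -1 + -1 * -1) = 
          fun _ => (-1 : ℝ) := by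
        funext a
        by_cases ha : a = e
        · subst ha
          rw [Function.update_self]
          norm_num
        · rw [Function.update_of_ne ha]
      have h5 : Zs r r0 (Function.update (fun _ : α => (-1 : ℝ)) e ((-1 : ℝ) + -1 + -1 * -1)) 
          (insert e Y') C = Zs r r0 (fun _ => (-1 : ℝ)) (insert e Y') C := by rw [h4]
      rw [Finset.card_insert_of_notMem hY2, Finset.card_insert_of_notMem hY1] at hn
      have h6 := ih (insert e Y') C (by rw [Finset.card_insert_of_notMem heY']; omega) 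
        (fun a ha => hl a (by
          rw [Finset.mem_insert] at ha
          rcases ha with rfl | ha
          · exact Finset.mem_insert_self _ _
          · exact Finset.mem_insert_of_mem (Finset.mem_insert_of_mem ha))) (by
          rw [← hs, Finset.insert_union, Finset.insert_union, Finset.insert_union, Finset.insert_comm]
          symm
          rw [← Finset.insert_union]
          have h7 := hr.loc (insert e C) (insert e Y' ∪ C) f (by
            intro x hx
            rw [Finset.mem_insert] at hx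
            rw [Finset.mem_union]
            rcases hx with rfl | hx
            · exact Or.inl (Finset.mem_insert_self _ _)
            · exact Or.inr hx) h2
          rw [h7])
      rw [h5]
      exact h6

theorem nonflat_zero (hr : IsRk r) {Y C : Finset α} {e : α} (he : e ∈ Y) (h : r (insert e C) = r C) :
    Zs r r0 (fun _ => (-1 : ℝ)) Y C = 0 := by
  obtain ⟨Y', he', rfl⟩ : ∃ Y', e ∉ Y' ∧ Y = insert e Y' := 
    ⟨Y.erase e, Finset.notMem_erase e Y, (Finset.insert_erase he).symm⟩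
  rw [Zs_insert _ _ _ _ he', Zs_loop hr _ Y' h]
  ring

end flats

/-- the key identity, for an arbitrary function of the states which is constant on nearby states -/
theorem key0 (Γ : Ribbon k) (hk : 0 < k) (hΓ : Γ.Planar) (S : Finset (Fin k)) 
    (hr : 0 < rk Γ S Finset.univ) (s : ℕ) (w : Fin k → ℤ) (lo : ℤ) 
    (h : SIn ((stateGraph Γ S).link w).std.bracket lo (lo + 4 * s)) (y : Finset (Fin k) → ℂ) 
    (hy : ∀ R R' : Finset (Fin k), 2 * |nS w R - nS w R'| ≤ 6 * k + 2 * s → y R = y R') : 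
    ∑ R : Finset (Fin k), y R * ev8 (Zq Γ S R) = 0 := by
  classical
  set G := stateGraph Γ S with hG
  have hconn : (graphSites G).Connected := graph_connected G (by 
    rw [hG, D1.sg_comps_univ]; exact hΓ.1)
  rw [← bracket_graph G hk w] at h
  have hS3 := Pool.Agent.H891R2.SI.S3 (graphSites G) hk w
  have hlen : (graphSites G).crossings.length = 0 := rfl
  have hc1 := curves_pos Γ hk S
  have hc2 := curves_lt hΓ S hr
  -- the total sum
  have hL := ((SIn_d.pow k).mul (SIn.T (- ∑ e, w e))).mul h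
  rw [hS3] at hL
  have hd : ((-T 2 - T (-2)) ^ (Γ.curves S - 1) : ℤ[T;T⁻¹]) ≠ 0 := pow_ne_zero _ delta_ne
  -- the functional
  have hfac : ∀ X : Finset (Finset (Fin k)), 
      ∑ R ∈ X, zf (nS w R) * Pool.Agent.H891R2.SI.Zp (graphSites G) R = 
        (-T 2 - T (-2)) ^ (Γ.curves S - 1) * ∑ R ∈ X, zf (nS w R) * Zq Γ S R := by
    intro X
    rw [Finset.mul_sum]
    refine Finset.sum_congr rfl fun R _ => ?_
    rw [hG, Zp_eq Γ hk hΓ]
    ring
  have hev : ∀ X : Finset (Finset (Fin k)), 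
      ev8 (∑ R ∈ X, zf (nS w R) * Zq Γ S R) = ∑ R ∈ X, ev8 (Zq Γ S R) := by
    intro X
    rw [map_sum]
    refine Finset.sum_congr rfl fun R _ => ?_
    rw [map_mul, ev8_zf, one_mul]
  have hψ : ∀ X : Finset (Finset (Fin k)), 
      ∑ R ∈ X, zf (nS w R) * Pool.Agent.H891R2.SI.Zp (graphSites G) R = 0 → 
      ∑ R ∈ X, ev8 (Zq Γ S R) = 0 := by
    intro X hX
    rw [hfac] at hX
    rcases mul_eq_zero.1 hX with h1 | h1
    · exact absurd h1 hd
    · rw [← hev, h1, map_zero]
  have htot : ∑ R : Finset (Fin k), ev8 (Zq Γ S R) = 0 := by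
    have h1 : ((-T 2 - T (-2)) ^ (Γ.curves S - 1) : ℤ[T;T⁻¹]) * 
        ∑ R : Finset (Fin k), zf (nS w R) * Zq Γ S R = (-T 2 - T (-2)) ^ (Γ.curves S - 1) * 
        ((-T 2 - T (-2)) ^ (k - (Γ.curves S - 1)) * T (- ∑ e, w e) * 
          ((graphSites G).fill w).std.bracket) := by
      rw [← hfac]
      refine Eq.trans hS3.symm ?_
      have hpk : ((-T 2 - T (-2)) ^ k : ℤ[T;T⁻¹]) = 
          (-T 2 - T (-2)) ^ (Γ.curves S - 1) * (-T 2 - T (-2)) ^ (k - (Γ.curves S - 1)) := by
        rw [← pow_add]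
        congr 1
        omega
      rw [hpk]
      ring
    have h2 := mul_left_cancel₀ hd h1
    rw [← hev, h2, map_mul, map_mul, map_pow, ev8_d, zero_pow (by omega), zero_mul, zero_mul]
  exact cluster (Pool.Agent.H891R2.SI.Zp (graphSites G)) (4 * k) (6 * k + 2 * s) (4 * k + 4 * s)
    (fun R => by
      have := Pool.Agent.H891R2.SI.S4 (graphSites G) hconn R
      rw [hlen] at this
      exact this.mono (by push_cast; linarith) (by push_cast; linarith)) (by positivity) (by positivity)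
    (by linarith) (fun R => nS w R) (fun R => ev8 (Zq Γ S R)) y hψ _ 
    (Finset.univ : Finset (Finset (Fin k))) le_rfl _ (hL.mono le_rfl (by linarith)) htot 
    (fun R _ R' _ hc => hy R R' hc)

theorem ev8_real (Γ : Ribbon k) (hk : 0 < k) (hΓ : Γ.Planar) (S R : Finset (Fin k)) : 
    ev8 (Zq Γ S R) = ((Zs (rk Γ S) (rk Γ S Finset.univ) (fun _ => (-1 : ℝ)) Rᶜ R : ℝ) : ℂ) := by
  rw [ev8_Zq Γ hk hΓ, Zs_ofReal]
  unfold Zs
  refine Finset.sum_bij' (fun X _ => Rᶜ \ X) (fun Q _ => Rᶜ \ Q) ?_ ?_ ?_ ?_ ?_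
  · intro X _
    exact Finset.mem_powerset.2 Finset.sdiff_subset
  · intro X _
    exact Finset.mem_powerset.2 Finset.sdiff_subset
  · intro X hX
    exact Finset.sdiff_sdiff_eq_self (Finset.mem_powerset.1 hX)
  · intro X hX
    exact Finset.sdiff_sdiff_eq_self (Finset.mem_powerset.1 hX)
  · intro X hX
    have h1 : (Rᶜ \ X) ∪ R = Xᶜ := by
      ext x
      have h2 : x ∈ X → x ∉ R := fun h => Finset.mem_compl.1 (Finset.mem_powerset.1 hX h)
      simp only [Finset.mem_union, Finset.mem_sdiff, Finset.mem_compl]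
      tauto
    rw [h1]
    split_ifs
    · rw [Finset.prod_const]
      push_cast
      rfl
    · rfl

/-- summing over the sets of the deleted elements -/
theorem sum_restrict {α : Type} [DecidableEq α] {r : Finset α → ℕ} {r0 : ℕ} (D : Finset α) : 
    ∀ (A C : Finset α), Disjoint A D → 
    ∑ T ∈ D.powerset, Zs r r0 (fun _ => (-1 : ℝ)) (A ∪ (D \ T)) (T ∪ C) = 
      Zs r r0 (fun _ => (-1 : ℝ)) A C := by
  induction D using Finset.induction_on with
  | empty =>
    intro A C _
    simp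
  | insert e D he ih =>
    intro A C hA
    rw [Finset.disjoint_insert_right] at hA
    rw [Finset.sum_powerset_insert he]
    have h1 : ∑ T ∈ D.powerset, Zs r r0 (fun _ => (-1 : ℝ)) (A ∪ (insert e D \ T)) (T ∪ C) = 
        Zs r r0 (fun _ => (-1 : ℝ)) (insert e A) C := by
      rw [← ih (insert e A) C (by rw [Finset.disjoint_insert_left]; exact ⟨he, hA.2⟩)]
      refine Finset.sum_congr rfl fun T hT => ?_
      congr 1
      have heT : e ∉ T := fun h => he (Finset.mem_powerset.1 hT h)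
      rw [Finset.insert_sdiff_of_notMem _ heT, Finset.union_insert, Finset.insert_union]
    have h2 : ∑ T ∈ D.powerset, Zs r r0 (fun _ => (-1 : ℝ)) (A ∪ (insert e D \ insert e T)) 
        (insert e T ∪ C) = Zs r r0 (fun _ => (-1 : ℝ)) A (insert e C) := by
      rw [← ih A (insert e C) hA.2]
      refine Finset.sum_congr rfl fun T hT => ?_
      have heT : insert e D \ insert e T = D \ T := by
        ext x
        simp only [Finset.mem_sdiff, Finset.mem_insert]
        constructor
        · rintro ⟨h1, h2⟩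
          push Not at h2
          exact ⟨h1.resolve_left h2.1, h2.2⟩
        · rintro ⟨g1, g2⟩
          refine ⟨Or.inr g1, ?_⟩
          push Not
          exact ⟨fun g3 => he (g3 ▸ g1), g2⟩
      rw [heT, Finset.insert_union, Finset.union_insert]
    rw [h1, h2, Zs_insert _ _ _ _ hA.1]
    ring

/-- a set of twist regions which is closed in the matroid restricted to `Y` -/
def IsFlat (Γ : Ribbon k) (S Y R : Finset (Fin k)) : Prop :=
  R ⊆ Y ∧ ∀ e ∈ Y, e ∉ R → rk Γ S (insert e R) = rk Γ S R + 1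

/-- **the rank parity criterion** -/
theorem parity_main (Γ : Ribbon k) (hk : 0 < k) (hΓ : Γ.Planar) (S Y : Finset (Fin k)) 
    (hsp : Spans Γ S Y) (hr : 0 < rk Γ S Y) (s : ℕ) (w : Fin k → ℤ) 
    (h : SpanLE s (twistLink Γ S w)) (𝒞 : Finset (Finset (Fin k))) (hCY : ∀ R ∈ 𝒞, R ⊆ Y) 
    (hC : ∀ R ∈ 𝒞, ∀ R' ⊆ Y, |nS w R - nS w R'| ≤ 3 * k + s + ∑ e ∈ Yᶜ, |w e| → R' ∈ 𝒞) 
    (F : Finset (Fin k)) (hF : F ∈ 𝒞) (hFf : IsFlat Γ S Y F) : 
    ∃ F' ∈ 𝒞, IsFlat Γ S Y F' ∧ Odd (rk Γ S F + rk Γ S F') := by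
  classical
  by_contra hcon
  push Not at hcon
  obtain ⟨lo, hlo⟩ := bracket_small Γ hk S s w h
  have hrk := isRk_rk hΓ.1 S
  have hspY := (spans_iff hΓ.1 S Y).1 hsp
  have hdec : ∀ R : Finset (Fin k), nS w R = nS w (R ∩ Y) + nS w (R \ Y) := by
    intro R
    unfold nS
    rw [← Finset.sum_inter_add_sum_sdiff R Y]
  have hb : ∀ R R' : Finset (Fin k), |nS w (R ∩ Y) - nS w (R' ∩ Y)| ≤ 
      |nS w R - nS w R'| + ∑ e ∈ Yᶜ, |w e| := by
    intro R R'
    have h1 : nS w (R ∩ Y) - nS w (R' ∩ Y) = (nS w R - nS w R') - (nS w (R \ Y) - nS w (R' \ Y)) := by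
      rw [hdec R, hdec R']; ring
    have h2 : |nS w (R \ Y) - nS w (R' \ Y)| ≤ ∑ e ∈ Yᶜ, |w e| := by
      have h3 : nS w (R \ Y) - nS w (R' \ Y) = 
          ∑ e ∈ Yᶜ, ((if e ∈ R then 1 else 0) - (if e ∈ R' then 1 else 0)) * w e := by
        have h4 : ∀ R : Finset (Fin k), nS w (R \ Y) = ∑ e ∈ Yᶜ, (if e ∈ R then 1 else 0) * w e := by
          intro R
          unfold nS
          simp only [ite_mul, one_mul, zero_mul]
          rw [← Finset.sum_filter]
          refine Finset.sum_congr ?_ fun _ _ => rfl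
          ext x
          simp only [Finset.mem_sdiff, Finset.mem_filter, Finset.mem_compl]
          tauto
        rw [h4, h4, ← Finset.sum_sub_distrib]
        exact Finset.sum_congr rfl fun e _ => by ring
      rw [h3]
      refine (Finset.abs_sum_le_sum_abs _ _).trans (Finset.sum_le_sum fun e _ => ?_)
      rw [abs_mul]
      have h5 : |((if e ∈ R then 1 else 0) - (if e ∈ R' then 1 else 0) : ℤ)| ≤ 1 := by
        by_cases h1 : e ∈ R <;> by_cases h2 : e ∈ R' <;> simp [h1, h2]
      nlinarith [abs_nonneg (w e)]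
    rw [h1]
    exact (abs_sub _ _).trans (by linarith)
  have h1 := key0 Γ hk hΓ S (by rw [← hspY]; exact hr) s w lo hlo 
    (fun R => if R ∩ Y ∈ 𝒞 then 1 else 0) (by
    intro R R' hc
    have hc' : |nS w (R ∩ Y) - nS w (R' ∩ Y)| ≤ 3 * k + s + ∑ e ∈ Yᶜ, |w e| := by
      have := hb R R'
      linarith
    by_cases hR : R ∩ Y ∈ 𝒞
    · simp [hR, hC _ hR _ Finset.inter_subset_right hc']
    · have hR' : R' ∩ Y ∉ 𝒞 := by
        intro hR'
        exact hR (hC _ hR' _ Finset.inter_subset_right (by rw [abs_sub_comm]; exact hc'))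
      simp [hR, hR'])
  rw [Finset.sum_congr rfl fun R _ => by rw [ev8_real Γ hk hΓ S R]] at h1
  -- sum over the part outside `Y`
  have h2 : ∑ R ∈ 𝒞, Zs (rk Γ S) (rk Γ S Finset.univ) (fun _ => (-1 : ℝ)) (Y \ R) R = 0 := by
    have h3 : ∀ R ∈ 𝒞, Zs (rk Γ S) (rk Γ S Finset.univ) (fun _ => (-1 : ℝ)) (Y \ R) R = 
        ∑ T ∈ (Yᶜ).powerset, Zs (rk Γ S) (rk Γ S Finset.univ) (fun _ => (-1 : ℝ)) 
          ((Y \ R) ∪ (Yᶜ \ T)) (T ∪ R) := by
      intro R _
      rw [sum_restrict]
      rw [Finset.disjoint_left]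
      intro x hx hx'
      exact Finset.mem_compl.1 hx' (Finset.mem_sdiff.1 hx).1
    rw [Finset.sum_congr rfl h3, Finset.sum_sigma']
    have h4 : (∑ R : Finset (Fin k), (if R ∩ Y ∈ 𝒞 then 1 else 0) * 
        Zs (rk Γ S) (rk Γ S Finset.univ) (fun _ => (-1 : ℝ)) Rᶜ R : ℝ) = 0 := by
      have h5 : ((∑ R : Finset (Fin k), (if R ∩ Y ∈ 𝒞 then 1 else 0) * 
        Zs (rk Γ S) (rk Γ S Finset.univ) (fun _ => (-1 : ℝ)) Rᶜ R : ℝ) : ℂ) = 0 := by
        rw [← h1]
        push_cast
        refine Finset.sum_congr rfl fun R _ => ?_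
        congr 1
        split_ifs <;> simp
      exact_mod_cast h5
    rw [← h4]
    simp only [ite_mul, one_mul, zero_mul]
    rw [← Finset.sum_filter]
    refine Finset.sum_bij' (fun x _ => x.2 ∪ x.1) (fun R _ => ⟨R ∩ Y, R \ Y⟩) ?_ ?_ ?_ ?_ ?_
    · rintro ⟨R, T⟩ hx
      rw [Finset.mem_sigma, Finset.mem_powerset] at hx
      rw [Finset.mem_filter]
      refine ⟨Finset.mem_univ _, ?_⟩
      have h6 : (T ∪ R) ∩ Y = R := by
        ext x
        simp only [Finset.mem_inter, Finset.mem_union]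
        constructor
        · rintro ⟨h7 | h7, h8⟩
          · exact absurd h8 (Finset.mem_compl.1 (hx.2 h7))
          · exact h7
        · intro h7
          exact ⟨Or.inr h7, hCY R hx.1 h7⟩
      dsimp only
      rw [h6]
      exact hx.1
    · intro R hR
      rw [Finset.mem_filter] at hR
      rw [Finset.mem_sigma, Finset.mem_powerset]
      refine ⟨hR.2, ?_⟩
      intro x hx
      exact Finset.mem_compl.2 (Finset.mem_sdiff.1 hx).2
    · rintro ⟨R, T⟩ hx
      rw [Finset.mem_sigma, Finset.mem_powerset] at hx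
      have h6 : (T ∪ R) ∩ Y = R := by
        ext x
        simp only [Finset.mem_inter, Finset.mem_union]
        constructor
        · rintro ⟨h7 | h7, h8⟩
          · exact absurd h8 (Finset.mem_compl.1 (hx.2 h7))
          · exact h7
        · intro h7
          exact ⟨Or.inr h7, hCY R hx.1 h7⟩
      have h7 : (T ∪ R) \ Y = T := by
        ext x
        simp only [Finset.mem_sdiff, Finset.mem_union]
        constructor
        · rintro ⟨h7 | h7, h8⟩
          · exact h7
          · exact absurd (hCY R hx.1 h7) h8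
        · intro h7
          exact ⟨Or.inl h7, Finset.mem_compl.1 (hx.2 h7)⟩
      dsimp only
      rw [h6, h7]
    · intro R hR
      dsimp only
      ext x
      simp only [Finset.mem_union, Finset.mem_sdiff, Finset.mem_inter]
      tauto
    · rintro ⟨R, T⟩ hx
      rw [Finset.mem_sigma, Finset.mem_powerset] at hx
      dsimp only
      congr 1
      ext x
      have h7 : x ∈ T → x ∉ Y := fun h => Finset.mem_compl.1 (hx.2 h)
      have h8 : x ∈ R → x ∈ Y := fun h => hCY R hx.1 h
      simp only [Finset.mem_union, Finset.mem_sdiff, Finset.mem_compl]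
      tauto
  have hrkY : ∀ R, R ⊆ Y → rk Γ S (Y \ R ∪ R) = rk Γ S Finset.univ := by
    intro R hR
    rw [Finset.sdiff_union_of_subset hR, hspY]
  have hpos : ∀ R ∈ 𝒞, 0 ≤ (-1 : ℝ) ^ (rk Γ S Finset.univ + rk Γ S F) * 
      Zs (rk Γ S) (rk Γ S Finset.univ) (fun _ => (-1 : ℝ)) (Y \ R) R := by
    intro R hR
    by_cases hf : IsFlat Γ S Y R
    · have h3 := flat_sign (r0 := rk Γ S Finset.univ) hrk (Y \ R).card (Y \ R) R rfl (fun e he => 
        hf.2 e (Finset.mem_sdiff.1 he).1 (Finset.mem_sdiff.1 he).2) (hrkY R hf.1)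
      have h4 : Even (rk Γ S F + rk Γ S R) := by
        have := hcon R hR hf
        rwa [Nat.not_odd_iff_even] at this
      have h5 : (-1 : ℝ) ^ (rk Γ S Finset.univ + rk Γ S F) = 
          (-1 : ℝ) ^ (rk Γ S Finset.univ + rk Γ S R) := by
        have h6 : (-1 : ℝ) ^ (rk Γ S F) = (-1 : ℝ) ^ (rk Γ S R) := by
          rcases Nat.even_or_odd (rk Γ S F) with h7 | h7
          · rw [h7.neg_one_pow, ((Nat.even_add.1 h4).1 h7).neg_one_pow]
          · have h8 : Odd (rk Γ S R) := by
              rw [← Nat.not_even_iff_odd] at h7 ⊢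
              exact fun h9 => h7 ((Nat.even_add.1 h4).2 h9)
            rw [h7.neg_one_pow, h8.neg_one_pow]
        rw [pow_add, pow_add, h6]
      rw [h5]
      exact h3.le
    · have hf' : ∃ e ∈ Y, e ∉ R ∧ rk Γ S (insert e R) ≠ rk Γ S R + 1 := by
        unfold IsFlat at hf
        push Not at hf
        exact hf (hCY R hR)
      obtain ⟨e, heY, he, hne⟩ := hf'
      rw [nonflat_zero hrk (Finset.mem_sdiff.2 ⟨heY, he⟩) ((hrk.step R e).resolve_right hne), mul_zero]
  have hlt : 0 < ∑ R ∈ 𝒞, (-1 : ℝ) ^ (rk Γ S Finset.univ + rk Γ S F) * 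
      Zs (rk Γ S) (rk Γ S Finset.univ) (fun _ => (-1 : ℝ)) (Y \ R) R := by
    refine Finset.sum_pos' hpos ⟨F, hF, ?_⟩
    exact flat_sign (r0 := rk Γ S Finset.univ) hrk (Y \ F).card (Y \ F) F rfl (fun e he => 
        hFf.2 e (Finset.mem_sdiff.1 he).1 (Finset.mem_sdiff.1 he).2) (hrkY F hFf.1)
  rw [← Finset.mul_sum, h2, mul_zero] at hlt
  exact lt_irrefl _ hlt

theorem rk_single' (Γ : Ribbon k) (hΓ : Γ.Planar) (S Y : Finset (Fin k))
    (h1 : ∀ e ∈ Y, e ∈ S → Γ.comps {e} + 1 = Γ.verts) (h2 : ∀ e ∈ Y, e ∉ S → Γ.comps {e}ᶜ = 1) :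
    ∀ e ∈ Y, rk Γ S {e} = 1 := by
  intro e he
  have hred : TwistReduced Γ S {e} := by
    refine ⟨?_, ?_, ?_, ?_⟩
    · intro f hf hfS
      rw [Finset.mem_singleton] at hf
      subst hf
      exact h1 f he hfS
    · intro f hf hfS
      rw [Finset.mem_singleton] at hf
      subst hf
      exact h2 f he hfS
    · intro f hf g hg hfg
      rw [Finset.mem_singleton] at hf hg
      exact absurd (hf.trans hg.symm) hfg
    · intro f hf g hg hfg
      rw [Finset.mem_singleton] at hf hg
      exact absurd (hf.trans hg.symm) hfg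
  exact rk_single hΓ.1 hred (Finset.mem_singleton_self e)

theorem rk_Y_pos (Γ : Ribbon k) (hΓ : Γ.Planar) (S Y : Finset (Fin k)) (hY : Y.Nonempty)
    (h1 : ∀ e ∈ Y, e ∈ S → Γ.comps {e} + 1 = Γ.verts) (h2 : ∀ e ∈ Y, e ∉ S → Γ.comps {e}ᶜ = 1) :
    0 < rk Γ S Y := by
  obtain ⟨e, he⟩ := hY
  have h3 := (isRk_rk hΓ.1 S).mono (Finset.singleton_subset_iff.2 he)
  have h4 := rk_single' Γ hΓ S Y h1 h2 e he
  omega

/-- no set with small sum: the diagram is nontrivial -/
theorem zero_sum_free (Γ : Ribbon k) (hΓ : Γ.Planar) (S Y : Finset (Fin k)) (hY : Y.Nonempty)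
    (h1 : ∀ e ∈ Y, e ∈ S → Γ.comps {e} + 1 = Γ.verts) (h2 : ∀ e ∈ Y, e ∉ S → Γ.comps {e}ᶜ = 1)
    (hsp : Spans Γ S Y) (s : ℕ) (w : Fin k → ℤ) 
    (hw : ∀ R ⊆ Y, R.Nonempty → 3 * k + s + ∑ e ∈ Yᶜ, |w e| < |nS w R|) : 
    ¬ SpanLE s (twistLink Γ S w) := by
  intro h
  have hk : 0 < k := by
    obtain ⟨e, _⟩ := hY
    exact Fin.pos e
  obtain ⟨F', hF', _, hodd⟩ := parity_main Γ hk hΓ S Y hsp (rk_Y_pos Γ hΓ S Y hY h1 h2) s w h {∅} 
    (by simp) (by
    intro R hR R' hR' hc
    rw [Finset.mem_singleton] at hR ⊢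
    subst hR
    by_contra hne
    have h3 := hw R' hR' (Finset.nonempty_iff_ne_empty.2 hne)
    have h4 : nS w ∅ = 0 := by
      unfold nS
      simp
    rw [h4, zero_sub, abs_neg] at hc
    linarith) ∅ (Finset.mem_singleton_self _) ⟨Finset.empty_subset _, by
      intro e he _
      rw [rk_empty hΓ.1]
      exact rk_single' Γ hΓ S Y h1 h2 e he⟩
  rw [Finset.mem_singleton] at hF'
  subst hF'
  rw [← two_mul] at hodd
  exact Nat.not_odd_iff_even.2 (even_two_mul _) hodd

end Run7.h509
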