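import Pool.Agent.Run7.h509.Res
import Pool.Agent.Run7.h509.Par

/-!
# Cancellation in a matroid: the abstract form of the arguments
-/

set_option autoImplicit false

namespace Run7.h509.Abs

open Finset Module Pool.Agent.H891R2.MT Run7.h509
open Pool.Agent.Y463.CD hiding cluster

variable {k : ℕ} {r : Finset (Fin k) → ℕ} {w : Fin k → ℤ} {X : ℤ}

/-- the lowest order terms of the coefficients cancel in every cluster of exponents -/
def Canc (r : Finset (Fin k) → ℕ) (w : Fin k → ℤ) (X : ℤ) : Prop :=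
  ∀ y : Finset (Fin k) → ℂ, (∀ R R' : Finset (Fin k), |nS w R - nS w R'| ≤ X → y R = y R') →
    ∑ R : Finset (Fin k), y R * ((Zs r (r Finset.univ) (fun _ => (-1 : ℝ)) Rᶜ R : ℝ) : ℂ) = 0

theorem Zs_expand {α K : Type} [DecidableEq α] [CommRing K] {r : Finset α → ℕ} {r0 : ℕ} (u : α → K)
    (A : Finset α) : ∀ C : Finset α, Zs r r0 (fun e => u e - 1) A C =
      ∑ R ∈ A.powerset, (∏ e ∈ R, u e) * Zs r r0 (fun _ => (-1 : K)) (A \ R) (R ∪ C) := by
  induction A using Finset.induction_on with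
  | empty =>
    intro C
    simp [Zs_empty]
  | insert e A he ih =>
    intro C
    rw [Zs_insert _ _ _ _ he, ih C, ih (insert e C), Finset.sum_powerset_insert he]
    have h1 : ∀ R ∈ A.powerset, (∏ e ∈ R, u e) * Zs r r0 (fun _ => (-1 : K)) (insert e A \ R) (R ∪ C) =
        (∏ e ∈ R, u e) * Zs r r0 (fun _ => (-1 : K)) (A \ R) (R ∪ C) -
          (∏ e ∈ R, u e) * Zs r r0 (fun _ => (-1 : K)) (A \ R) (R ∪ insert e C) := by
      intro R hR
      have heR : e ∉ R := fun h => he (Finset.mem_powerset.1 hR h)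
      have heA : e ∉ A \ R := fun h => he (Finset.mem_sdiff.1 h).1
      rw [Finset.insert_sdiff_of_notMem _ heR, Zs_insert _ _ _ _ heA, Finset.union_insert]
      ring
    have h2 : ∀ R ∈ A.powerset, (∏ e ∈ insert e R, u e) * 
        Zs r r0 (fun _ => (-1 : K)) (insert e A \ insert e R) (insert e R ∪ C) =
        u e * ((∏ e ∈ R, u e) * Zs r r0 (fun _ => (-1 : K)) (A \ R) (R ∪ insert e C)) := by
      intro R hR
      have heR : e ∉ R := fun h => he (Finset.mem_powerset.1 hR h)
      have h3 : insert e A \ insert e R = A \ R := by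
        ext x
        simp only [Finset.mem_sdiff, Finset.mem_insert]
        constructor
        · rintro ⟨h1, h2⟩
          push Not at h2
          exact ⟨h1.resolve_left h2.1, h2.2⟩
        · rintro ⟨g1, g2⟩
          refine ⟨Or.inr g1, ?_⟩
          push Not
          exact ⟨fun g3 => he (g3 ▸ g1), g2⟩
      rw [h3, Finset.prod_insert heR, Finset.insert_union, Finset.union_insert]
      ring
    rw [Finset.sum_congr rfl h1, Finset.sum_congr rfl h2, Finset.sum_sub_distrib, ← Finset.mul_sum]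
    ring

/-- the key identity -/
theorem Canc.key (hC : Canc r w X) (u : Fin k → ℂ)
    (hu : ∀ R R' : Finset (Fin k), |nS w R - nS w R'| ≤ X → ∏ e ∈ R, u e = ∏ e ∈ R', u e) :
    Zs r (r Finset.univ) (fun e => u e - 1) Finset.univ ∅ = 0 := by
  have h := hC (fun R => ∏ e ∈ R, u e) hu
  rw [Zs_expand, Finset.powerset_univ, ← h]
  refine Finset.sum_congr rfl fun R _ => ?_
  rw [Zs_ofReal, Finset.union_empty, ← Finset.compl_eq_univ_sdiff]
  push_cast
  rfl

/-! ### flats -/

/-- a set which is closed in the matroid restricted to `Y` -/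
def FlatIn (r : Finset (Fin k) → ℕ) (Y R : Finset (Fin k)) : Prop :=
  R ⊆ Y ∧ ∀ e ∈ Y, e ∉ R → r (insert e R) = r R + 1

/-- **the rank parity criterion** -/
theorem parity (hr : IsRk r) (hC : Canc r w X) (Y : Finset (Fin k)) (hsp : r Y = r Finset.univ)
    (𝒞 : Finset (Finset (Fin k))) (hCY : ∀ R ∈ 𝒞, R ⊆ Y)
    (hCC : ∀ R ∈ 𝒞, ∀ R' ⊆ Y, |nS w R - nS w R'| ≤ X + ∑ e ∈ Yᶜ, |w e| → R' ∈ 𝒞)
    (F : Finset (Fin k)) (hF : F ∈ 𝒞) (hFf : FlatIn r Y F) :
    ∃ F' ∈ 𝒞, FlatIn r Y F' ∧ Odd (r F + r F') := by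
  classical
  by_contra hcon
  push Not at hcon
  have hdec : ∀ R : Finset (Fin k), nS w R = nS w (R ∩ Y) + nS w (R \ Y) := by
    intro R
    unfold nS
    rw [← Finset.sum_inter_add_sum_sdiff R Y]
  have hb : ∀ R R' : Finset (Fin k), |nS w (R ∩ Y) - nS w (R' ∩ Y)| ≤
      |nS w R - nS w R'| + ∑ e ∈ Yᶜ, |w e| := by
    intro R R'
    have h1 : nS w (R ∩ Y) - nS w (R' ∩ Y) = (nS w R - nS w R') - (nS w (R \ Y) - nS w (R' \ Y)) := by
      rw [hdec R, hdec R']; ring
    have h2 : |nS w (R \ Y) - nS w (R' \ Y)| ≤ ∑ e ∈ Yᶜ, |w e| := by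
      have h3 : nS w (R \ Y) - nS w (R' \ Y) =
          ∑ e ∈ Yᶜ, ((if e ∈ R then 1 else 0) - (if e ∈ R' then 1 else 0)) * w e := by
        have h4 : ∀ R : Finset (Fin k), nS w (R \ Y) = ∑ e ∈ Yᶜ, (if e ∈ R then 1 else 0) * w e := by
          intro R
          unfold nS
          simp only [ite_mul, one_mul, zero_mul]
          rw [← Finset.sum_filter]
          refine Finset.sum_congr ?_ fun _ _ => rfl
          ext x
          simp only [Finset.mem_sdiff, Finset.mem_filter, Finset.mem_compl]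
          tauto
        rw [h4, h4, ← Finset.sum_sub_distrib]
        exact Finset.sum_congr rfl fun e _ => by ring
      rw [h3]
      refine (Finset.abs_sum_le_sum_abs _ _).trans (Finset.sum_le_sum fun e _ => ?_)
      rw [abs_mul]
      have h5 : |((if e ∈ R then 1 else 0) - (if e ∈ R' then 1 else 0) : ℤ)| ≤ 1 := by
        by_cases h1 : e ∈ R <;> by_cases h2 : e ∈ R' <;> simp [h1, h2]
      nlinarith [abs_nonneg (w e)]
    rw [h1]
    exact (abs_sub _ _).trans (by linarith)
  have h1 := hC (fun R => if R ∩ Y ∈ 𝒞 then 1 else 0) (by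
    intro R R' hc
    have hc' : |nS w (R ∩ Y) - nS w (R' ∩ Y)| ≤ X + ∑ e ∈ Yᶜ, |w e| := by
      have := hb R R'
      linarith
    by_cases hR : R ∩ Y ∈ 𝒞
    · simp [hR, hCC _ hR _ Finset.inter_subset_right hc']
    · have hR' : R' ∩ Y ∉ 𝒞 := by
        intro hR'
        exact hR (hCC _ hR' _ Finset.inter_subset_right (by rw [abs_sub_comm]; exact hc'))
      simp [hR, hR'])
  -- sum over the part outside `Y`
  have h2 : ∑ R ∈ 𝒞, Zs r (r Finset.univ) (fun _ => (-1 : ℝ)) (Y \ R) R = 0 := by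
    have h3 : ∀ R ∈ 𝒞, Zs r (r Finset.univ) (fun _ => (-1 : ℝ)) (Y \ R) R =
        ∑ T ∈ (Yᶜ).powerset, Zs r (r Finset.univ) (fun _ => (-1 : ℝ))
          ((Y \ R) ∪ (Yᶜ \ T)) (T ∪ R) := by
      intro R _
      rw [sum_restrict]
      rw [Finset.disjoint_left]
      intro x hx hx'
      exact Finset.mem_compl.1 hx' (Finset.mem_sdiff.1 hx).1
    rw [Finset.sum_congr rfl h3, Finset.sum_sigma']
    have h4 : (∑ R : Finset (Fin k), (if R ∩ Y ∈ 𝒞 then 1 else 0) *
        Zs r (r Finset.univ) (fun _ => (-1 : ℝ)) Rᶜ R : ℝ) = 0 := by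
      have h5 : ((∑ R : Finset (Fin k), (if R ∩ Y ∈ 𝒞 then 1 else 0) *
        Zs r (r Finset.univ) (fun _ => (-1 : ℝ)) Rᶜ R : ℝ) : ℂ) = 0 := by
        rw [← h1]
        push_cast
        refine Finset.sum_congr rfl fun R _ => ?_
        congr 1
        split_ifs <;> simp
      exact_mod_cast h5
    rw [← h4]
    simp only [ite_mul, one_mul, zero_mul]
    rw [← Finset.sum_filter]
    refine Finset.sum_bij' (fun x _ => x.2 ∪ x.1) (fun R _ => ⟨R ∩ Y, R \ Y⟩) ?_ ?_ ?_ ?_ ?_
    · rintro ⟨R, T⟩ hx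
      rw [Finset.mem_sigma, Finset.mem_powerset] at hx
      rw [Finset.mem_filter]
      refine ⟨Finset.mem_univ _, ?_⟩
      have h6 : (T ∪ R) ∩ Y = R := by
        ext x
        simp only [Finset.mem_inter, Finset.mem_union]
        constructor
        · rintro ⟨h7 | h7, h8⟩
          · exact absurd h8 (Finset.mem_compl.1 (hx.2 h7))
          · exact h7
        · intro h7
          exact ⟨Or.inr h7, hCY R hx.1 h7⟩
      dsimp only
      rw [h6]
      exact hx.1
    · intro R hR
      rw [Finset.mem_filter] at hR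
      rw [Finset.mem_sigma, Finset.mem_powerset]
      refine ⟨hR.2, ?_⟩
      intro x hx
      exact Finset.mem_compl.2 (Finset.mem_sdiff.1 hx).2
    · rintro ⟨R, T⟩ hx
      rw [Finset.mem_sigma, Finset.mem_powerset] at hx
      have h6 : (T ∪ R) ∩ Y = R := by
        ext x
        simp only [Finset.mem_inter, Finset.mem_union]
        constructor
        · rintro ⟨h7 | h7, h8⟩
          · exact absurd h8 (Finset.mem_compl.1 (hx.2 h7))
          · exact h7
        · intro h7
          exact ⟨Or.inr h7, hCY R hx.1 h7⟩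
      have h7 : (T ∪ R) \ Y = T := by
        ext x
        simp only [Finset.mem_sdiff, Finset.mem_union]
        constructor
        · rintro ⟨h7 | h7, h8⟩
          · exact h7
          · exact absurd (hCY R hx.1 h7) h8
        · intro h7
          exact ⟨Or.inl h7, Finset.mem_compl.1 (hx.2 h7)⟩
      dsimp only
      rw [h6, h7]
    · intro R hR
      dsimp only
      ext x
      simp only [Finset.mem_union, Finset.mem_sdiff, Finset.mem_inter]
      tauto
    · rintro ⟨R, T⟩ hx
      rw [Finset.mem_sigma, Finset.mem_powerset] at hx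
      dsimp only
      congr 1
      ext x
      have h7 : x ∈ T → x ∉ Y := fun h => Finset.mem_compl.1 (hx.2 h)
      have h8 : x ∈ R → x ∈ Y := fun h => hCY R hx.1 h
      simp only [Finset.mem_union, Finset.mem_sdiff, Finset.mem_compl]
      tauto
  have hrkY : ∀ R, R ⊆ Y → r (Y \ R ∪ R) = r Finset.univ := by
    intro R hR
    rw [Finset.sdiff_union_of_subset hR, hsp]
  have hpos : ∀ R ∈ 𝒞, 0 ≤ (-1 : ℝ) ^ (r Finset.univ + r F) *
      Zs r (r Finset.univ) (fun _ => (-1 : ℝ)) (Y \ R) R := by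
    intro R hR
    by_cases hf : FlatIn r Y R
    · have h3 := flat_sign (r0 := r Finset.univ) hr (Y \ R).card (Y \ R) R rfl (fun e he =>
        hf.2 e (Finset.mem_sdiff.1 he).1 (Finset.mem_sdiff.1 he).2) (hrkY R hf.1)
      have h4 : Even (r F + r R) := by
        have := hcon R hR hf
        rwa [Nat.not_odd_iff_even] at this
      have h5 : (-1 : ℝ) ^ (r Finset.univ + r F) = (-1 : ℝ) ^ (r Finset.univ + r R) := by
        have h6 : (-1 : ℝ) ^ (r F) = (-1 : ℝ) ^ (r R) := by
          rcases Nat.even_or_odd (r F) with h7 | h7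
          · rw [h7.neg_one_pow, ((Nat.even_add.1 h4).1 h7).neg_one_pow]
          · have h8 : Odd (r R) := by
              rw [← Nat.not_even_iff_odd] at h7 ⊢
              exact fun h9 => h7 ((Nat.even_add.1 h4).2 h9)
            rw [h7.neg_one_pow, h8.neg_one_pow]
        rw [pow_add, pow_add, h6]
      rw [h5]
      exact h3.le
    · have hf' : ∃ e ∈ Y, e ∉ R ∧ r (insert e R) ≠ r R + 1 := by
        unfold FlatIn at hf
        push Not at hf
        exact hf (hCY R hR)
      obtain ⟨e, heY, he, hne⟩ := hf'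
      rw [nonflat_zero hr (Finset.mem_sdiff.2 ⟨heY, he⟩) ((hr.step R e).resolve_right hne), mul_zero]
  have hlt : 0 < ∑ R ∈ 𝒞, (-1 : ℝ) ^ (r Finset.univ + r F) *
      Zs r (r Finset.univ) (fun _ => (-1 : ℝ)) (Y \ R) R := by
    refine Finset.sum_pos' hpos ⟨F, hF, ?_⟩
    exact flat_sign (r0 := r Finset.univ) hr (Y \ F).card (Y \ F) F rfl (fun e he =>
        hFf.2 e (Finset.mem_sdiff.1 he).1 (Finset.mem_sdiff.1 he).2) (hrkY F hFf.1)
  rw [← Finset.mul_sum, h2, mul_zero] at hlt
  exact lt_irrefl _ hlt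

/-- every flat has a partner -/
theorem partner (hr : IsRk r) (hC : Canc r w X) (Y : Finset (Fin k)) (hsp : r Y = r Finset.univ)
    (F : Finset (Fin k)) (hF : FlatIn r Y F) :
    ∃ R ⊆ Y, R ≠ F ∧ |nS w F - nS w R| ≤ X + ∑ e ∈ Yᶜ, |w e| := by
  by_contra hcon
  push Not at hcon
  obtain ⟨F', hF', _, hodd⟩ := parity hr hC Y hsp {F} (by
    intro R hR
    rw [Finset.mem_singleton] at hR
    subst hR
    exact hF.1) (by
    intro R hR R' hR' hc
    rw [Finset.mem_singleton] at hR ⊢
    subst hR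
    by_contra hne
    have := hcon R' hR' hne
    linarith) F (Finset.mem_singleton_self _) hF
  rw [Finset.mem_singleton] at hF'
  subst hF'
  rw [← two_mul] at hodd
  exact Nat.not_odd_iff_even.2 (even_two_mul _) hodd

/-- no set with small sum -/
theorem zero_sum (hr : IsRk r) (h0 : r ∅ = 0) (Y : Finset (Fin k))
    (h1 : ∀ e ∈ Y, r {e} = 1) (hsp : r Y = r Finset.univ)
    (hw : ∀ R ⊆ Y, R.Nonempty → X + ∑ e ∈ Yᶜ, |w e| < |nS w R|) : ¬ Canc r w X := by
  intro hC
  obtain ⟨R, hR, hne, hc⟩ := partner hr hC Y hsp ∅ ⟨Finset.empty_subset _, by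
      intro e he _
      rw [h0]
      exact h1 e he⟩
  have h3 := hw R hR (Finset.nonempty_iff_ne_empty.2 hne)
  have h4 : nS w ∅ = 0 := by
    unfold nS
    simp
  rw [h4, zero_sub, abs_neg] at hc
  linarith

/-! ### real weights -/

/-- the elements of `Y` are neither loops nor parallel -/
def Simp (r : Finset (Fin k) → ℕ) (Y : Finset (Fin k)) : Prop :=
  (∀ e ∈ Y, r {e} = 1) ∧ ∀ e ∈ Y, ∀ f ∈ Y, e ≠ f → r {f, e} = 2

/-- real weights -/
theorem real_abs (hr : IsRk r) (h0 : r ∅ = 0) (hC : Canc r w X) (Y : Finset (Fin k))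
    (hred : Simp r Y) (hsp : r Y = r Finset.univ)
    (u : Fin k → ℝ) (hu1 : ∀ e ∈ Y, -1 ≤ u e ∧ u e < 1) (hu2 : ∀ e, e ∉ Y → u e = 1) :
    ∃ R R' : Finset (Fin k), |nS w R - nS w R'| ≤ X ∧ ∏ e ∈ R, u e ≠ ∏ e ∈ R', u e := by
  classical
  by_contra hcon
  push Not at hcon
  have hkey := hC.key (fun e => (u e : ℂ)) (by
    intro R R' hc
    have := hcon R R' hc
    rw [← Complex.ofReal_prod, ← Complex.ofReal_prod, this])
  have h2 : Zs r (r Finset.univ) (fun e => ((u e : ℂ)) - 1) Finset.univ ∅ =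
      ((Zs r (r Finset.univ) (fun e => u e - 1) Finset.univ ∅ : ℝ) : ℂ) := by
    rw [Zs_ofReal]
    push_cast
    rfl
  rw [h2, Complex.ofReal_eq_zero, Zs_support _ (Finset.subset_univ Y) (fun e he => by
    rw [hu2 e he, sub_self])] at hkey
  have h3 := strict (r0 := r Finset.univ) hr Y.card Y ∅ (fun e => u e - 1) rfl ?_ ?_ ?_ ?_
  · rw [hkey, mul_zero] at h3
    exact lt_irrefl _ h3
  · intro e he
    have := hu1 e he
    constructor <;> linarith
  · intro e he
    rw [h0]
    exact hred.1 e he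
  · intro e he f hf hne
    rw [h0]
    exact hred.2 e he f hf hne
  · rw [Finset.union_empty]
    exact hsp

/-- twist numbers near odd multiples -/
theorem odd_abs (hr : IsRk r) (h0 : r ∅ = 0) (hX : 0 ≤ X) (Y : Finset (Fin k))
    (hred : Simp r Y) (hsp : r Y = r Finset.univ) (M : ℝ) (m : Fin k → ℤ)
    (hm : ∀ e, Odd (m e) ↔ e ∈ Y) (hM : ∑ e, |(w e : ℝ) - M * m e| + X < M) : ¬ Canc r w X := by
  classical
  intro hC
  obtain ⟨R, R', hc, hne⟩ := real_abs hr h0 hC Y hred hsp (fun e => if e ∈ Y then -1 else 1)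
    (fun e he => by rw [if_pos he]; norm_num) (fun e he => by rw [if_neg he])
  apply hne
  have hXr : (0 : ℝ) ≤ X := by exact_mod_cast hX
  have hM0 : 0 < M := by
    have h1 : 0 ≤ ∑ e, |(w e : ℝ) - M * m e| := Finset.sum_nonneg fun e _ => abs_nonneg _
    linarith
  -- the values of `m` agree
  have hdiff : ∀ R : Finset (Fin k), (nS w R : ℝ) - M * (nS m R : ℤ) = ∑ e ∈ R, ((w e : ℝ) - M * m e) := by
    intro R
    unfold nS
    push_cast
    rw [Finset.mul_sum, ← Finset.sum_sub_distrib]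
  have hbd : |(∑ e ∈ R, ((w e : ℝ) - M * m e)) - ∑ e ∈ R', ((w e : ℝ) - M * m e)| ≤
      ∑ e, |(w e : ℝ) - M * m e| := by
    have e1 : (∑ e ∈ R, ((w e : ℝ) - M * m e)) - ∑ e ∈ R', ((w e : ℝ) - M * m e) =
        ∑ e, ((if e ∈ R then 1 else 0) - (if e ∈ R' then 1 else 0)) * ((w e : ℝ) - M * m e) := by
      simp only [sub_mul, ite_mul, one_mul, zero_mul, Finset.sum_sub_distrib, Finset.sum_ite_mem,
        Finset.univ_inter]
    rw [e1]
    refine (Finset.abs_sum_le_sum_abs _ _).trans (Finset.sum_le_sum fun e _ => ?_)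
    rw [abs_mul]
    have : |((if e ∈ R then 1 else 0) - (if e ∈ R' then 1 else 0) : ℝ)| ≤ 1 := by
      by_cases h1 : e ∈ R <;> by_cases h2 : e ∈ R' <;> simp [h1, h2]
    nlinarith [abs_nonneg ((w e : ℝ) - M * m e)]
  have heq : nS m R = nS m R' := by
    by_contra hne'
    have h1 : (1 : ℝ) ≤ |((nS m R - nS m R' : ℤ) : ℝ)| := by
      rw [← Int.cast_abs]
      exact_mod_cast Int.one_le_abs (sub_ne_zero.2 hne')
    have h2 : |(nS w R : ℝ) - nS w R'| ≤ X := by exact_mod_cast hc
    have h5 : M * ((nS m R - nS m R' : ℤ) : ℝ) = ((nS w R : ℝ) - nS w R') -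
        ((∑ e ∈ R, ((w e : ℝ) - M * m e)) - ∑ e ∈ R', ((w e : ℝ) - M * m e)) := by
      rw [← hdiff, ← hdiff]
      push_cast
      ring
    have h6 : M ≤ |M * ((nS m R - nS m R' : ℤ) : ℝ)| := by
      rw [abs_mul, abs_of_pos hM0]
      nlinarith
    rw [h5] at h6
    have h7 := abs_sub ((nS w R : ℝ) - nS w R')
      ((∑ e ∈ R, ((w e : ℝ) - M * m e)) - ∑ e ∈ R', ((w e : ℝ) - M * m e))
    linarith
  -- parities
  have hpar : ∀ R : Finset (Fin k), ∏ e ∈ R, (if e ∈ Y then (-1 : ℝ) else 1) =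
      if Even (nS m R) then 1 else -1 := by
    intro R
    induction R using Finset.induction_on with
    | empty => simp [nS]
    | insert e R he ih =>
      have h1 : nS m (insert e R) = m e + nS m R := by
        unfold nS
        rw [Finset.sum_insert he]
      rw [Finset.prod_insert he, ih, h1]
      by_cases heY : e ∈ Y
      · have h2 : ¬ Even (m e) := Int.not_even_iff_odd.2 ((hm e).2 heY)
        rw [if_pos heY]
        by_cases h3 : Even (nS m R)
        · have h4 : ¬ Even (m e + nS m R) := by rw [Int.even_add]; tauto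
          rw [if_pos h3, if_neg h4]; norm_num
        · have h4 : Even (m e + nS m R) := by rw [Int.even_add]; tauto
          rw [if_neg h3, if_pos h4]; norm_num
      · have h2 : Even (m e) := by
          rw [← Int.not_odd_iff_even, hm e]
          exact heY
        rw [if_neg heY]
        by_cases h3 : Even (nS m R)
        · have h4 : Even (m e + nS m R) := by rw [Int.even_add]; tauto
          rw [if_pos h3, if_pos h4]; norm_num
        · have h4 : ¬ Even (m e + nS m R) := by rw [Int.even_add]; tauto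
          rw [if_neg h3, if_neg h4]; norm_num
  rw [hpar, hpar, heq]

/-- twist numbers of about the same size -/
theorem balanced_abs (hr : IsRk r) (h0 : r ∅ = 0) (hX : 0 ≤ X) (Y : Finset (Fin k))
    (hred : Simp r Y) (hsp : r Y = r Finset.univ) (M D : ℕ)
    (hM : (k * D : ℤ) + X < M) (h1 : ∀ e ∈ Y, (M : ℤ) ≤ |w e| ∧ |w e| ≤ M + D)
    (h2 : ∀ e, e ∉ Y → |w e| ≤ D) : ¬ Canc r w X := by
  classical
  refine odd_abs hr h0 hX Y hred hsp M (fun e => if e ∈ Y then (if 0 < w e then 1 else -1) else 0)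
    ?_ ?_
  · intro e
    by_cases he : e ∈ Y
    · by_cases hw : 0 < w e
      · simp [he, hw]
      · simp [he, hw]
    · simp [he]
  · have hb : ∀ e, |(w e : ℝ) - M * ((if e ∈ Y then (if 0 < w e then 1 else -1) else 0 : ℤ) : ℝ)| ≤ D := by
      intro e
      by_cases he : e ∈ Y
      · obtain ⟨a1, a2⟩ := h1 e he
        by_cases hw : 0 < w e
        · rw [if_pos he, if_pos hw]
          rw [abs_of_pos hw] at a1 a2
          have b1 : (M : ℝ) ≤ w e := by exact_mod_cast a1
          have b2 : (w e : ℝ) ≤ M + D := by exact_mod_cast a2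
          push_cast
          rw [abs_le]
          constructor <;> linarith
        · rw [if_pos he, if_neg hw]
          rw [abs_of_nonpos (not_lt.1 hw)] at a1 a2
          have b1 : (M : ℝ) ≤ -(w e : ℝ) := by exact_mod_cast a1
          have b2 : -(w e : ℝ) ≤ M + D := by exact_mod_cast a2
          push_cast
          rw [abs_le]
          constructor <;> linarith
      · rw [if_neg he]
        have := h2 e he
        have b1 : |(w e : ℝ)| ≤ D := by exact_mod_cast this
        simpa using b1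
    have h3 : ∑ e, |(w e : ℝ) - M * ((if e ∈ Y then (if 0 < w e then 1 else -1) else 0 : ℤ) : ℝ)| ≤
        k * D := by
      refine (Finset.sum_le_sum fun e _ => hb e).trans ?_
      rw [Finset.sum_const, Finset.card_univ, Fintype.card_fin, nsmul_eq_mul]
    have h4 : (k * D : ℝ) + X < M := by exact_mod_cast hM
    linarith

end Run7.h509.Abs
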