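import Pool.Agent.Run7.h509.Abs

/-!
# Cancellation in series-parallel matroids: the abstract form of the arguments
-/

set_option autoImplicit false

namespace Run7.h509.Abs

open Finset Module Pool.Agent.H891R2.MT Run7.h509
open Pool.Agent.Y463.CD hiding cluster

variable {k : ℕ} {r : Finset (Fin k) → ℕ} {w : Fin k → ℤ} {X : ℤ}

/-- series-parallel matroids -/
theorem sp_abs (hr : IsRk r) (h0 : r ∅ = 0) (hX : 0 ≤ X) (hred : Simp r Finset.univ)
    (hSP : SP r Finset.univ ∅) (A : Finset (Fin k)) (hA : r A = r Finset.univ)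
    (hw : ∀ e ∈ A, k * k.factorial * X < |w e|) : ¬ Canc r w X := by
  classical
  intro hC
  set Rel : Set (Fin k → ℚ) := {ρ | ∃ R R' : Finset (Fin k), |nS w R - nS w R'| ≤ X ∧ ρ = rv R R'} with hRel
  obtain ⟨y, hy, hyw⟩ := siegel_gen k Rel w 1 X le_rfl hX (by
    rintro ρ ⟨R, R', hR, rfl⟩
    refine ⟨rz R R', rz_cast R R', ?_, ?_⟩
    · intro e
      unfold rz one
      by_cases h1 : e ∈ R <;> by_cases h2 : e ∈ R' <;> simp [h1, h2]
    · rw [rz_sum]
      exact hR)
  have hne : ∀ e ∈ A, y e ≠ 0 := by
    intro e he h1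
    have h2 := hw e he
    have h3 := hyw e
    rw [h1, sub_zero] at h3
    have h4 : |(w e : ℚ)| ≤ ((k * k.factorial * X : ℤ) : ℚ) := by
      refine h3.trans (le_of_eq ?_)
      push_cast
      ring
    have h5 : |w e| ≤ k * k.factorial * X := by exact_mod_cast h4
    linarith
  set u : Fin k → ℂ := fun e => Complex.exp (((y e : ℝ) : ℂ) * Complex.I) with hu
  have hkey := hC.key u (by
    intro R R' hc
    have h2 := hy (rv R R') ⟨R, R', hc, rfl⟩
    have h3 : ∑ e ∈ R, y e = ∑ e ∈ R', y e := by
      unfold rv at h2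
      simp only [sub_mul, ite_mul, one_mul, zero_mul, Finset.sum_sub_distrib, Finset.sum_ite_mem,
        Finset.univ_inter] at h2
      linarith
    have h4 : ∀ R : Finset (Fin k), ∏ e ∈ R, u e =
        Complex.exp ((((∑ e ∈ R, y e : ℚ) : ℝ) : ℂ) * Complex.I) := by
      intro R
      rw [hu, ← Complex.exp_sum]
      congr 1
      push_cast
      rw [Finset.sum_mul]
    rw [h4, h4, h3])
  have hn : ∀ e, ‖u e‖ = 1 := fun e => Complex.norm_exp_ofReal_mul_I _
  refine sp_ne (r0 := r Finset.univ) hr hSP (fun e => u e - 1) ?_ ?_ ?_ A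
    (Finset.subset_univ _) ?_ ?_ ?_ hkey
  · intro e _ _
    rw [add_sub_cancel, hn]
  · intro e _ _
    rw [add_sub_cancel]
    exact Complex.exp_ne_zero _
  · intro e he f hf hef _ _ _ _ h3
    exfalso
    have h4 := hred.2 e he f hf hef
    rw [h0] at h3
    change r {f, e} = 0 + 1 at h3
    omega
  · intro e he
    rw [sub_ne_zero]
    exact exp_ne_one (hne e he)
  · rw [Finset.union_empty]
    exact hA
  · rw [Finset.union_empty]

/-- the error in the approximation of the twist numbers -/
def errA (k c : ℕ) (X D : ℤ) : ℤ := (k + 1) * ((k + 1).factorial * c ^ (k + 1)) * (X + D)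

/-- The numbers outside `Y` are near multiples `a e * M`, the ones in `Y` are away from the
multiples of `M`, and the matroid restricted to `Y` is series-parallel. -/
theorem res_abs (hr : IsRk r) (h0 : r ∅ = 0) (hX : 0 ≤ X) (Y : Finset (Fin k))
    (hred : Simp r Y) (hsp : r Y = r Finset.univ) (hSP : SP r Y ∅) (D c : ℕ) (hc : 1 ≤ c)
    (M : ℤ) (a : Fin k → ℤ) (ha : ∀ e, e ∉ Y → |a e| ≤ c)
    (hM : errA k c X D < M) (h1 : ∀ e, e ∉ Y → |w e - a e * M| ≤ D)
    (h2 : ∀ e ∈ Y, ∀ j : ℤ, errA k c X D * (|j| + 1) < |w e - j * M|) : ¬ Canc r w X := by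
  classical
  intro hC
  -- the relations
  set Rel : Set (Fin (k + 1) → ℚ) :=
    {ρ | ∃ R R' : Finset (Fin k), |nS w R - nS w R'| ≤ X ∧ ρ = Fin.cons 0 (rv R R')} ∪
    {ρ | ∃ e, e ∉ Y ∧ ρ = Fin.cons (-(a e : ℚ)) (Pi.single e 1)} with hRel
  obtain ⟨y', hy', hyw⟩ := siegel_gen (k + 1) Rel (Fin.cons M w) c (X + D) (by exact_mod_cast hc)
    (by positivity) (by
    rintro ρ (⟨R, R', hR, rfl⟩ | ⟨e, he, rfl⟩)
    · refine ⟨Fin.cons 0 (rz R R'), ?_, ?_, ?_⟩
      · funext i
        refine Fin.cases ?_ (fun j => ?_) i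
        · simp
        · rw [Fin.cons_succ, Fin.cons_succ]
          exact congrFun (rz_cast R R') j
      · intro i
        refine Fin.cases ?_ (fun j => ?_) i
        · simp
        · rw [Fin.cons_succ]
          have : |rz R R' j| ≤ 1 := by
            unfold rz one
            by_cases h1 : j ∈ R <;> by_cases h2 : j ∈ R' <;> simp [h1, h2]
          have h3 : (1 : ℤ) ≤ c := by exact_mod_cast hc
          linarith
      · rw [Fin.sum_univ_succ]
        simp only [Fin.cons_zero, Fin.cons_succ, zero_mul, zero_add]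
        rw [rz_sum]
        have : (0 : ℤ) ≤ D := by positivity
        linarith
    · refine ⟨Fin.cons (-(a e)) (Pi.single e 1), ?_, ?_, ?_⟩
      · funext i
        refine Fin.cases ?_ (fun j => ?_) i
        · simp
        · rw [Fin.cons_succ, Fin.cons_succ]
          by_cases h : j = e
          · subst h; simp
          · rw [Pi.single_eq_of_ne h, Pi.single_eq_of_ne h]; simp
      · intro i
        refine Fin.cases ?_ (fun j => ?_) i
        · rw [Fin.cons_zero, abs_neg]
          exact ha e he
        · rw [Fin.cons_succ]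
          have h3 : (1 : ℤ) ≤ c := by exact_mod_cast hc
          by_cases h : j = e
          · subst h; simpa using h3
          · rw [Pi.single_eq_of_ne h]; simp
      · rw [Fin.sum_univ_succ]
        simp only [Fin.cons_zero, Fin.cons_succ]
        rw [Finset.sum_eq_single e]
        · rw [Pi.single_eq_same, one_mul]
          have h3 := h1 e he
          have h4 : -a e * M + w e = w e - a e * M := by ring
          rw [h4]
          linarith
        · intro b _ hb
          rw [Pi.single_eq_of_ne hb]
          simp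
        · intro h
          exact absurd (Finset.mem_univ _) h)
  set m : ℚ := y' 0 with hm
  set y : Fin k → ℚ := fun e => y' e.succ with hy
  have hB : ((k + 1 : ℕ) * ((k + 1).factorial * c ^ (k + 1)) * ((X + D : ℤ) : ℚ) : ℚ) =
      (errA k c X D : ℤ) := by
    unfold errA
    push_cast
    ring
  have hB0 : 0 ≤ errA k c X D := by unfold errA; positivity
  have hmM : |(M : ℚ) - m| ≤ errA k c X D := by
    have := hyw 0
    rw [Fin.cons_zero] at this
    rw [← hB]
    exact_mod_cast this
  have hwy : ∀ e, |(w e : ℚ) - y e| ≤ errA k c X D := by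
    intro e
    have := hyw e.succ
    rw [Fin.cons_succ] at this
    rw [← hB]
    exact_mod_cast this
  have hm0 : 0 < m := by
    have h3 : ((errA k c X D : ℤ) : ℚ) < M := by exact_mod_cast hM
    have := (abs_le.1 hmM).2
    linarith
  have hrel1 : ∀ R R' : Finset (Fin k), |nS w R - nS w R'| ≤ X →
      ∑ e ∈ R, y e = ∑ e ∈ R', y e := by
    intro R R' hR
    have h3 := hy' (Fin.cons 0 (rv R R')) (Or.inl ⟨R, R', hR, rfl⟩)
    rw [Fin.sum_univ_succ] at h3
    simp only [Fin.cons_zero, Fin.cons_succ, zero_mul, zero_add] at h3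
    unfold rv at h3
    simp only [sub_mul, ite_mul, one_mul, zero_mul, Finset.sum_sub_distrib, Finset.sum_ite_mem,
      Finset.univ_inter] at h3
    linarith
  have hrel2 : ∀ e, e ∉ Y → y e = a e * m := by
    intro e he
    have h3 := hy' (Fin.cons (-(a e : ℚ)) (Pi.single e 1)) (Or.inr ⟨e, he, rfl⟩)
    rw [Fin.sum_univ_succ] at h3
    simp only [Fin.cons_zero, Fin.cons_succ] at h3
    rw [Finset.sum_eq_single e] at h3
    · rw [Pi.single_eq_same, one_mul] at h3
      have : y e = y' e.succ := rfl
      rw [this]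
      linarith
    · intro b _ hb
      rw [Pi.single_eq_of_ne hb, zero_mul]
    · intro h
      exact absurd (Finset.mem_univ _) h
  have hne : ∀ e ∈ Y, ∀ j : ℤ, y e ≠ j * m := by
    intro e he j hj
    have h3 := h2 e he j
    have h4 : |(w e : ℚ) - j * M| ≤ (errA k c X D : ℤ) * (|(j : ℚ)| + 1) := by
      have e1 : (w e : ℚ) - j * M = ((w e : ℚ) - y e) - j * (M - m) := by
        rw [hj]; ring
      rw [e1]
      refine (abs_sub _ _).trans ?_
      rw [abs_mul]
      have h5 := hwy e
      have h6 := mul_le_mul_of_nonneg_left hmM (abs_nonneg (j : ℚ))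
      linarith
    have h5 : |w e - j * M| ≤ errA k c X D * (|j| + 1) := by exact_mod_cast h4
    linarith
  -- the weights
  set u : Fin k → ℂ := fun e => Complex.exp ((((2 * Real.pi * ((y e / m : ℚ) : ℝ) : ℝ)) : ℂ) * Complex.I)
    with hu
  have hn : ∀ e, ‖u e‖ = 1 := fun e => Complex.norm_exp_ofReal_mul_I _
  have hu1 : ∀ e, e ∉ Y → u e = 1 := by
    intro e he
    rw [hu]
    dsimp only
    rw [Complex.exp_eq_one_iff]
    refine ⟨a e, ?_⟩
    rw [hrel2 e he, mul_div_assoc, div_self hm0.ne', mul_one]
    push_cast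
    ring
  have hu2 : ∀ e ∈ Y, u e ≠ 1 := by
    intro e he h3
    rw [hu] at h3
    dsimp only at h3
    rw [Complex.exp_eq_one_iff] at h3
    obtain ⟨j, hj⟩ := h3
    have h4 : (((2 * Real.pi * ((y e / m : ℚ) : ℝ) : ℝ)) : ℂ) = j * (2 * Real.pi) := by
      apply mul_right_cancel₀ Complex.I_ne_zero
      rw [hj]; ring
    have h5 : (2 * Real.pi * ((y e / m : ℚ) : ℝ) : ℝ) = j * (2 * Real.pi) := by exact_mod_cast h4
    have h6 : ((y e / m : ℚ) : ℝ) = j := by
      have := Real.pi_pos
      have h7 : (2 * Real.pi) * (((y e / m : ℚ) : ℝ) - j) = 0 := by linarith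
      rcases mul_eq_zero.1 h7 with h8 | h8
      · linarith
      · linarith
    have h7 : y e / m = j := by exact_mod_cast h6
    exact hne e he j (by rw [← h7]; field_simp)
  have hkey := hC.key u (by
    intro R R' hc
    have h3 := hrel1 R R' hc
    have h4 : ∀ R : Finset (Fin k), ∏ e ∈ R, u e =
        Complex.exp ((((2 * Real.pi * (((∑ e ∈ R, y e) / m : ℚ) : ℝ) : ℝ)) : ℂ) * Complex.I) := by
      intro R
      rw [hu, ← Complex.exp_sum]
      congr 1
      rw [← Finset.sum_mul]
      congr 1
      rw [← Complex.ofReal_sum, ← Finset.mul_sum, Finset.sum_div]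
      push_cast
      rfl
    rw [h4, h4, h3])
  rw [Zs_support _ (Finset.subset_univ Y) (fun e he => by rw [hu1 e he, sub_self])] at hkey
  refine sp_ne (r0 := r Finset.univ) hr hSP (fun e => u e - 1) ?_ ?_ ?_ Y
    (Finset.Subset.refl _) ?_ ?_ ?_ hkey
  · intro e _ _
    rw [add_sub_cancel, hn]
  · intro e _ _
    rw [add_sub_cancel]
    exact Complex.exp_ne_zero _
  · intro e he f hf hef _ _ _ _ h3
    exfalso
    have h4 := hred.2 e he f hf hef
    rw [h0] at h3
    change r {f, e} = 0 + 1 at h3
    omega
  · intro e he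
    rw [sub_ne_zero]
    exact hu2 e he
  · rw [Finset.union_empty]
    exact hsp
  · rw [Finset.union_empty]
    exact hsp

/-- The numbers outside `Y` are bounded or maximal. -/
theorem max_abs (hr : IsRk r) (h0 : r ∅ = 0) (hX : 0 ≤ X) (Y : Finset (Fin k)) (hY : Y.Nonempty)
    (hred : Simp r Y) (hsp : r Y = r Finset.univ) (hSP : SP r Y ∅) (D : ℕ)
    (M : ℤ) (h1 : ∀ e, e ∉ Y → |w e| ≤ D ∨ (M ≤ |w e| ∧ |w e| ≤ M + D))
    (h2 : ∀ e ∈ Y, errA k 1 X D < |w e| ∧ |w e| < M - 2 * errA k 1 X D) : ¬ Canc r w X := by
  classical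
  have hB0 : 0 ≤ errA k 1 X D := by unfold errA; positivity
  have hM : 3 * errA k 1 X D < M := by
    obtain ⟨e, he⟩ := hY
    have := h2 e he
    linarith [this.1, this.2]
  refine res_abs hr h0 hX Y hred hsp hSP D 1 le_rfl M
    (fun e => if |w e| ≤ D then 0 else if 0 < w e then 1 else -1) ?_ (by linarith) ?_ ?_
  · intro e _
    split_ifs <;> simp
  · intro e he
    by_cases h3 : |w e| ≤ D
    · rw [if_pos h3, zero_mul, sub_zero]
      exact h3
    · rw [if_neg h3]
      obtain ⟨h4, h5⟩ := (h1 e he).resolve_left h3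
      by_cases h6 : 0 < w e
      · rw [if_pos h6, one_mul]
        rw [abs_of_pos h6] at h4 h5
        rw [abs_le]
        constructor <;> linarith [(Nat.cast_nonneg D : (0 : ℤ) ≤ D)]
      · rw [if_neg h6]
        rw [abs_of_nonpos (not_lt.1 h6)] at h4 h5
        rw [abs_le]
        constructor <;> linarith [(Nat.cast_nonneg D : (0 : ℤ) ≤ D)]
  · intro e he j
    obtain ⟨h3, h4⟩ := h2 e he
    rcases eq_or_ne j 0 with rfl | hj
    · simpa using h3
    · have h5 : 1 ≤ |j| := Int.one_le_abs hj
      have h6 : |j| * M ≤ |w e| + |w e - j * M| := by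
        have h7 : |j * M| ≤ |w e| + |w e - j * M| := by
          have h8 : j * M = w e - (w e - j * M) := by ring
          calc |j * M| = |w e - (w e - j * M)| := by rw [← h8]
            _ ≤ _ := abs_sub _ _
        rw [abs_mul, abs_of_pos (by linarith : 0 < M)] at h7
        exact h7
      nlinarith

/-! ### the dual of a graphic matroid -/

/-- `p` counts pieces: it decreases by at most `1` -/
structure IsPieces (p : Finset (Fin k) → ℕ) : Prop where
  step : ∀ (A : Finset (Fin k)) (e : Fin k), p (insert e A) = p A ∨ p (insert e A) + 1 = p A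
  loc : ∀ (A B : Finset (Fin k)) (e : Fin k), A ⊆ B → p (insert e A) = p A → p (insert e B) = p B

/-- the rank function of the dual matroid -/
def dual (p : Finset (Fin k) → ℕ) (Q : Finset (Fin k)) : ℕ := Q.card + p Finset.univ - p Qᶜ

theorem IsPieces.anti {p : Finset (Fin k) → ℕ} (hp : IsPieces p) {A B : Finset (Fin k)} (h : A ⊆ B) :
    p B ≤ p A := by
  have key : ∀ D : Finset (Fin k), p (D ∪ A) ≤ p A := by
    intro D
    induction D using Finset.induction_on with
    | empty => rw [Finset.empty_union]
    | insert e D _ ih =>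
      rw [Finset.insert_union]
      rcases hp.step (D ∪ A) e with h | h <;> omega
  have := key B
  rwa [Finset.union_eq_left.2 h] at this

theorem IsPieces.le_add {p : Finset (Fin k) → ℕ} (hp : IsPieces p) (A D : Finset (Fin k)) :
    p A ≤ p (D ∪ A) + D.card := by
  induction D using Finset.induction_on with
  | empty => rw [Finset.empty_union, Finset.card_empty, add_zero]
  | insert e D he ih =>
    rw [Finset.insert_union, Finset.card_insert_of_notMem he]
    rcases hp.step (D ∪ A) e with h | h <;> omega

theorem dual_add {p : Finset (Fin k) → ℕ} (hp : IsPieces p) (Q : Finset (Fin k)) :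
    dual p Q + p Qᶜ = Q.card + p Finset.univ := by
  have h := hp.le_add Qᶜ Q
  rw [Finset.union_compl] at h
  unfold dual
  omega

theorem dual_empty {p : Finset (Fin k) → ℕ} : dual p ∅ = 0 := by
  unfold dual
  simp

theorem isRk_dual {p : Finset (Fin k) → ℕ} (hp : IsPieces p) : IsRk (dual p) where
  step A e := by
    by_cases he : e ∈ A
    · rw [Finset.insert_eq_self.2 he]
      exact Or.inl rfl
    · have h1 := dual_add hp A
      have h2 := dual_add hp (insert e A)
      rw [Finset.card_insert_of_notMem he] at h2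
      have h3 : insert e (insert e A)ᶜ = Aᶜ := by
        ext x
        simp only [Finset.mem_insert, Finset.mem_compl, not_or]
        by_cases hx : x = e
        · subst hx; simp [he]
        · simp [hx]
      rcases hp.step (insert e A)ᶜ e with h | h <;> rw [h3] at h <;> omega
  loc A B e hAB h := by
    by_cases heB : e ∈ B
    · rw [Finset.insert_eq_self.2 heB]
    · have heA : e ∉ A := fun h => heB (hAB h)
      have h1 := dual_add hp A
      have h2 := dual_add hp (insert e A)
      have h3 := dual_add hp B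
      have h4 := dual_add hp (insert e B)
      rw [Finset.card_insert_of_notMem heA] at h2
      rw [Finset.card_insert_of_notMem heB] at h4
      have e1 : insert e (insert e A)ᶜ = Aᶜ := by
        ext x
        simp only [Finset.mem_insert, Finset.mem_compl, not_or]
        by_cases hx : x = e
        · subst hx; simp [heA]
        · simp [hx]
      have e2 : insert e (insert e B)ᶜ = Bᶜ := by
        ext x
        simp only [Finset.mem_insert, Finset.mem_compl, not_or]
        by_cases hx : x = e
        · subst hx; simp [heB]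
        · simp [hx]
      -- if the number of pieces does not change at `B`, it does not change at `A`
      have h5 := hp.step (insert e B)ᶜ e
      rw [e2] at h5
      have h6 := hp.loc (insert e B)ᶜ (insert e A)ᶜ e (by
        rw [Finset.compl_subset_compl]
        exact Finset.insert_subset_insert e hAB)
      rw [e1, e2] at h6
      rcases h5 with h5 | h5
      · have := h6 h5
        omega
      · omega

end Run7.h509.Abs
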