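import Pool.Agent.Run7.h509.Abs2

/-!
# Duality of series-parallel matroids
-/

set_option autoImplicit false

namespace Run7.h509.Abs

open Finset Run7.h509

variable {k : ℕ} {p : Finset (Fin k) → ℕ}

/-- the rank function of the graph -/
def gP (p : Finset (Fin k) → ℕ) (X : Finset (Fin k)) : ℕ := p ∅ - p X

theorem gP_add (hp : IsPieces p) (X : Finset (Fin k)) : gP p X + p X = p ∅ := by
  have := hp.anti (Finset.empty_subset X)
  unfold gP
  omega

theorem sp_dualP (hp : IsPieces p) {Y C : Finset (Fin k)} (h : SP (gP p) Y C) :
    Disjoint Y C → SP (dual p) Y (Y ∪ C)ᶜ := by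
  induction h with
  | nil C => intro _; exact SP.nil _
  | @loop Y C e he hl hsp ih =>
    intro hd
    have heC : e ∉ C := fun h => (Finset.disjoint_left.1 hd) (Finset.mem_insert_self _ _) h
    have hYd : Disjoint Y C := Finset.disjoint_of_subset_left (Finset.subset_insert _ _) hd
    have hYC : ∀ x, x ∈ Y → x ∉ C := fun x h => Finset.disjoint_left.1 hYd h
    have i1 := ih hYd
    have e1 : (Y ∪ C)ᶜ = insert e (insert e Y ∪ C)ᶜ := by
      ext x
      simp only [Finset.mem_union, Finset.mem_compl, Finset.mem_insert]
      by_cases hx : x = e
      · subst hx; simp [he, heC]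
      · simp [hx]
    rw [e1] at i1
    refine SP.coloop he ?_ i1
    set A := Y ∪ (insert e Y ∪ C)ᶜ with hA
    have heA : e ∉ A := by simp [hA, he]
    have c1 : Aᶜ = insert e C := by
      ext x
      have := hYC x
      simp only [hA, Finset.mem_union, Finset.mem_compl, Finset.mem_insert]
      by_cases hx : x = e
      · subst hx; simp [he]
      · simp only [hx, false_or]; tauto
    have c2 : (insert e A)ᶜ = C := by
      ext x
      have := hYC x
      simp only [hA, Finset.mem_union, Finset.mem_compl, Finset.mem_insert]
      by_cases hx : x = e
      · subst hx; simp [heC]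
      · simp only [hx, false_or]; tauto
    have a0 := dual_add hp A
    have a1 := dual_add hp (insert e A)
    rw [c1] at a0
    rw [c2, Finset.card_insert_of_notMem heA] at a1
    have g1 := gP_add hp (insert e C)
    have g2 := gP_add hp C
    omega
  | @coloop Y C e he hcl hsp ih =>
    intro hd
    have heC : e ∉ C := fun h => (Finset.disjoint_left.1 hd) (Finset.mem_insert_self _ _) h
    have hYd : Disjoint Y C := Finset.disjoint_of_subset_left (Finset.subset_insert _ _) hd
    have hYd' : Disjoint Y (insert e C) := by
      rw [Finset.disjoint_insert_right]
      exact ⟨he, hYd⟩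
    have i1 := ih hYd'
    rw [Finset.union_insert] at i1
    rw [Finset.insert_union]
    refine SP.loop he ?_ i1
    set A := (insert e (Y ∪ C))ᶜ with hA
    have heA : e ∉ A := by simp [hA]
    have c1 : Aᶜ = insert e (Y ∪ C) := compl_compl _
    have c2 : (insert e A)ᶜ = Y ∪ C := by
      ext x
      simp only [hA, Finset.mem_union, Finset.mem_compl, Finset.mem_insert]
      by_cases hx : x = e
      · subst hx; simp [he, heC]
      · simp only [hx, false_or]; tauto
    have a0 := dual_add hp A
    have a1 := dual_add hp (insert e A)
    rw [c1] at a0
    rw [c2, Finset.card_insert_of_notMem heA] at a1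
    have g1 := gP_add hp (insert e (Y ∪ C))
    have g2 := gP_add hp (Y ∪ C)
    omega
  | @par Y C e f he hf hle hlf hef hsp ih =>
    intro hd
    have hne : e ≠ f := fun h => he (by rw [h]; exact Finset.mem_insert_self _ _)
    have heY : e ∉ Y := fun h => he (Finset.mem_insert_of_mem h)
    have heC : e ∉ C := fun h => (Finset.disjoint_left.1 hd) (Finset.mem_insert_self _ _) h
    have hfC : f ∉ C := fun h => (Finset.disjoint_left.1 hd)
      (Finset.mem_insert_of_mem (Finset.mem_insert_self _ _)) h
    have hYd : Disjoint Y C := Finset.disjoint_of_subset_left
      ((Finset.subset_insert _ _).trans (Finset.subset_insert _ _)) hd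
    have hYC : ∀ x, x ∈ Y → x ∉ C := fun x h => Finset.disjoint_left.1 hYd h
    have hYd' : Disjoint (insert e Y) C := by
      rw [Finset.disjoint_insert_left]
      exact ⟨heC, hYd⟩
    have i1 := ih hYd'
    have e1 : (insert e Y ∪ C)ᶜ = insert f (insert e (insert f Y) ∪ C)ᶜ := by
      ext x
      simp only [Finset.mem_union, Finset.mem_compl, Finset.mem_insert]
      by_cases hx : x = f
      · subst hx; simp [hf, hfC, hne.symm]
      · simp [hx]
    rw [e1] at i1
    refine SP.ser he hf ?_ ?_ ?_ i1 <;>
      set A := Y ∪ (insert e (insert f Y) ∪ C)ᶜ with hA <;>
      (have heA : e ∉ A := by simp [hA, heY]) <;>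
      (have hfA : f ∉ A := by simp [hA, hf]) <;>
      (have hfA' : f ∉ insert e A := by
        rw [Finset.mem_insert]
        rintro (h | h)
        · exact hne h.symm
        · exact hfA h) <;>
      (have c0 : Aᶜ = insert e (insert f C) := by
        ext x
        have := hYC x
        simp only [hA, Finset.mem_union, Finset.mem_compl, Finset.mem_insert]
        by_cases hx : x = e
        · subst hx; simp [heY]
        · by_cases hx' : x = f
          · subst hx'; simp [hf]
          · simp only [hx, hx', false_or]; tauto) <;>
      (have c1 : (insert e A)ᶜ = insert f C := by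
        ext x
        have := hYC x
        simp only [hA, Finset.mem_union, Finset.mem_compl, Finset.mem_insert]
        by_cases hx : x = e
        · subst hx; simp [hne, heC]
        · by_cases hx' : x = f
          · subst hx'; simp [hf, hne.symm]
          · simp only [hx, hx', false_or]; tauto) <;>
      (have c2 : (insert f A)ᶜ = insert e C := by
        ext x
        have := hYC x
        simp only [hA, Finset.mem_union, Finset.mem_compl, Finset.mem_insert]
        by_cases hx : x = e
        · subst hx; simp [hne, heY]
        · by_cases hx' : x = f
          · subst hx'; simp [hfC, hne.symm]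
          · simp only [hx, hx', false_or]; tauto) <;>
      (have c3 : (insert f (insert e A))ᶜ = C := by
        ext x
        have := hYC x
        simp only [hA, Finset.mem_union, Finset.mem_compl, Finset.mem_insert]
        by_cases hx : x = e
        · subst hx; simp [heC]
        · by_cases hx' : x = f
          · subst hx'; simp [hfC]
          · simp only [hx, hx', false_or]; tauto) <;>
      (have a0 := dual_add hp A
       have a1 := dual_add hp (insert e A)
       have a2 := dual_add hp (insert f A)
       have a3 := dual_add hp (insert f (insert e A))
       rw [c0] at a0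
       rw [c1, Finset.card_insert_of_notMem heA] at a1
       rw [c2, Finset.card_insert_of_notMem hfA] at a2
       rw [c3, Finset.card_insert_of_notMem hfA', Finset.card_insert_of_notMem heA] at a3
       have g1 := gP_add hp (insert e C)
       have g2 := gP_add hp (insert f C)
       have g3 := gP_add hp (insert f (insert e C))
       have g4 := gP_add hp C
       rw [Finset.insert_comm e f] at a0
       omega)
  | @ser Y C e f he hf hce hcf hcef hsp ih =>
    intro hd
    have hne : e ≠ f := fun h => he (by rw [h]; exact Finset.mem_insert_self _ _)
    have heY : e ∉ Y := fun h => he (Finset.mem_insert_of_mem h)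
    have heC : e ∉ C := fun h => (Finset.disjoint_left.1 hd) (Finset.mem_insert_self _ _) h
    have hfC : f ∉ C := fun h => (Finset.disjoint_left.1 hd)
      (Finset.mem_insert_of_mem (Finset.mem_insert_self _ _)) h
    have hYd : Disjoint Y C := Finset.disjoint_of_subset_left
      ((Finset.subset_insert _ _).trans (Finset.subset_insert _ _)) hd
    have hYd' : Disjoint (insert e Y) (insert f C) := by
      rw [Finset.disjoint_insert_left, Finset.disjoint_insert_right, Finset.mem_insert]
      refine ⟨?_, hf, hYd⟩
      rintro (h | h)
      · exact hne h
      · exact heC h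
    have i1 := ih hYd'
    have e1 : insert e Y ∪ insert f C = insert e (insert f Y) ∪ C := by
      rw [Finset.union_insert, Finset.insert_union, Finset.insert_union, Finset.insert_union,
        Finset.insert_comm]
    rw [e1] at i1
    refine SP.par he hf ?_ ?_ ?_ i1 <;>
      set A := (insert e (insert f Y) ∪ C)ᶜ with hA <;>
      (have heA : e ∉ A := by simp [hA]) <;>
      (have hfA : f ∉ A := by simp [hA]) <;>
      (have hfA' : f ∉ insert e A := by
        rw [Finset.mem_insert]
        rintro (h | h)
        · exact hne h.symm
        · exact hfA h) <;>
      (have c0 : Aᶜ = insert e (insert f (Y ∪ C)) := by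
        rw [hA, compl_compl, Finset.insert_union, Finset.insert_union]) <;>
      (have c1 : (insert e A)ᶜ = insert f (Y ∪ C) := by
        ext x
        simp only [hA, Finset.mem_union, Finset.mem_compl, Finset.mem_insert]
        by_cases hx : x = e
        · subst hx; simp [hne, heC, heY]
        · by_cases hx' : x = f
          · subst hx'; simp [hf, hne.symm]
          · simp only [hx, hx', false_or]; tauto) <;>
      (have c2 : (insert f A)ᶜ = insert e (Y ∪ C) := by
        ext x
        simp only [hA, Finset.mem_union, Finset.mem_compl, Finset.mem_insert]
        by_cases hx : x = e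
        · subst hx; simp [hne]
        · by_cases hx' : x = f
          · subst hx'; simp [hfC, hne.symm, hf]
          · simp only [hx, hx', false_or]; tauto) <;>
      (have c3 : (insert f (insert e A))ᶜ = Y ∪ C := by
        ext x
        simp only [hA, Finset.mem_union, Finset.mem_compl, Finset.mem_insert]
        by_cases hx : x = e
        · subst hx; simp [heC, heY]
        · by_cases hx' : x = f
          · subst hx'; simp [hfC, hf]
          · simp only [hx, hx', false_or]; tauto) <;>
      (have a0 := dual_add hp A
       have a1 := dual_add hp (insert e A)
       have a2 := dual_add hp (insert f A)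
       have a3 := dual_add hp (insert f (insert e A))
       rw [c0] at a0
       rw [c1, Finset.card_insert_of_notMem heA] at a1
       rw [c2, Finset.card_insert_of_notMem hfA] at a2
       rw [c3, Finset.card_insert_of_notMem hfA', Finset.card_insert_of_notMem heA] at a3
       have g1 := gP_add hp (insert e (Y ∪ C))
       have g2 := gP_add hp (insert f (Y ∪ C))
       have g3 := gP_add hp (insert f (insert e (Y ∪ C)))
       have g4 := gP_add hp (Y ∪ C)
       rw [Finset.insert_comm e f] at a0
       omega)

/-- the graph is series-parallel -/
theorem sp_dual_univ (hp : IsPieces p) (h : SP (gP p) Finset.univ ∅) : SP (dual p) Finset.univ ∅ := by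
  have h1 := sp_dualP hp h (Finset.disjoint_empty_right _)
  rwa [Finset.union_empty, Finset.compl_univ] at h1

/-- the graph without the edges outside `Y` contracted is series-parallel -/
theorem sp_dual_part (hp : IsPieces p) (Y : Finset (Fin k)) (h : SP (gP p) Y Yᶜ) : SP (dual p) Y ∅ := by
  have h1 := sp_dualP hp h disjoint_compl_right
  rwa [Finset.union_compl, Finset.compl_univ] at h1

end Run7.h509.Abs
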