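import Pool.Agent.Run7.h509.Defs

/-!
# Spanning sums of matroids: two nonvanishing theorems
-/

set_option autoImplicit false

namespace Run7.h509

open Finset

variable {α : Type} [DecidableEq α]

/-- properties of the rank function of a matroid -/
structure IsRk (r : Finset α → ℕ) : Prop where
  step : ∀ (A : Finset α) (e : α), r (insert e A) = r A ∨ r (insert e A) = r A + 1
  loc : ∀ (A B : Finset α) (e : α), A ⊆ B → r (insert e A) = r A → r (insert e B) = r B

/-- the sum of the weights of the sets `Q ⊆ Y` such that `Q ∪ C` has rank `r0` -/
noncomputable def Zs {K : Type} [CommRing K] (r : Finset α → ℕ) (r0 : ℕ) (v : α → K) (Y C : Finset α) : K :=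
  ∑ Q ∈ Y.powerset, if r (Q ∪ C) = r0 then ∏ e ∈ Q, v e else 0

variable {K : Type} [CommRing K] {r : Finset α → ℕ} {r0 : ℕ}

theorem IsRk.mono (hr : IsRk r) : ∀ {A B : Finset α}, A ⊆ B → r A ≤ r B := by
  intro A B hAB
  have key : ∀ (D : Finset α), r A ≤ r (D ∪ A) := by
    intro D
    induction D using Finset.induction_on with
    | empty => rw [Finset.empty_union]
    | insert e D _ ih =>
      rw [Finset.insert_union]
      rcases hr.step (D ∪ A) e with h | h <;> omega
  have := key B
  rwa [Finset.union_eq_left.2 hAB] at this

theorem IsRk.up (hr : IsRk r) {A B : Finset α} {e : α} (h : A ⊆ B) (hB : r (insert e B) ≠ r B) : 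
    r (insert e A) = r A + 1 := by
  rcases hr.step A e with h1 | h1
  · exact absurd (hr.loc A B e h h1) hB
  · exact h1

theorem Zs_empty (v : α → K) (C : Finset α) : Zs r r0 v ∅ C = if r C = r0 then 1 else 0 := by
  unfold Zs
  simp

theorem Zs_insert (v : α → K) (Y C : Finset α) (e : α) (he : e ∉ Y) : 
    Zs r r0 v (insert e Y) C = Zs r r0 v Y C + v e * Zs r r0 v Y (insert e C) := by
  unfold Zs
  rw [Finset.sum_powerset_insert he, Finset.mul_sum]
  congr 1
  refine Finset.sum_congr rfl fun Q hQ => ?_
  have heQ : e ∉ Q := fun h => he (Finset.mem_powerset.1 hQ h)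
  rw [Finset.prod_insert heQ, Finset.insert_union, Finset.union_insert, mul_ite, mul_zero]

theorem Zs_congr {v v' : α → K} {Y C : Finset α} (h : ∀ e ∈ Y, v e = v' e) : 
    Zs r r0 v Y C = Zs r r0 v' Y C := by
  unfold Zs
  refine Finset.sum_congr rfl fun Q hQ => ?_
  rw [Finset.prod_congr rfl fun e he => h e (Finset.mem_powerset.1 hQ he)]

theorem Zs_zero (hr : IsRk r) (v : α → K) {Y C : Finset α} (h : r (Y ∪ C) < r0) : 
    Zs r r0 v Y C = 0 := by
  unfold Zs
  refine Finset.sum_eq_zero fun Q hQ => ?_
  rw [if_neg]
  have := hr.mono (Finset.union_subset_union_left (t := C) (Finset.mem_powerset.1 hQ))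
  omega

theorem Zs_loop (hr : IsRk r) (v : α → K) (Y : Finset α) {C : Finset α} {e : α} (h : r (insert e C) = r C) : 
    Zs r r0 v Y (insert e C) = Zs r r0 v Y C := by
  unfold Zs
  refine Finset.sum_congr rfl fun Q _ => ?_
  rw [Finset.union_insert, hr.loc C (Q ∪ C) e Finset.subset_union_right h]

/-- merging two parallel elements -/
theorem Zs_parallel (hr : IsRk r) (v : α → K) {Y C : Finset α} {e f : α} (he : e ∉ insert f Y) (hf : f ∉ Y) 
    (h1 : r (insert f (insert e C)) = r (insert e C)) (h2 : r (insert e (insert f C)) = r (insert f C)) : 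
    Zs r r0 v (insert e (insert f Y)) C = 
      Zs r r0 (Function.update v e (v e + v f + v e * v f)) (insert e Y) C := by
  have heY : e ∉ Y := fun h => he (Finset.mem_insert_of_mem h)
  have hc : ∀ C, Zs r r0 (Function.update v e (v e + v f + v e * v f)) Y C = Zs r r0 v Y C := by
    intro C
    apply Zs_congr
    intro a ha
    rw [Function.update_of_ne]
    rintro rfl
    exact heY ha
  rw [Zs_insert _ _ _ _ he, Zs_insert _ _ _ _ hf, Zs_insert _ _ _ _ hf, Zs_insert _ _ _ _ heY, hc, hc,
    Function.update_self, Zs_loop hr v Y h1]
  have h3 : Zs r r0 v Y (insert f C) = Zs r r0 v Y (insert e C) := by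
    rw [← Zs_loop hr v Y h2, Finset.insert_comm, Zs_loop hr v Y h1]
  rw [h3]
  ring

/-- a coloop -/
theorem Zs_coloop (hr : IsRk r) (v : α → K) {Y C : Finset α} {e : α} (he : e ∉ Y) (h : r (Y ∪ C) < r0) :
    Zs r r0 v (insert e Y) C = v e * Zs r r0 v Y (insert e C) := by
  rw [Zs_insert _ _ _ _ he, Zs_zero hr v h, zero_add]

/-! ### real weights -/

theorem weak (hr : IsRk r) : ∀ (n : ℕ) (Y C : Finset α) (v : α → ℝ), Y.card = n → 
    (∀ e ∈ Y, -2 ≤ v e ∧ v e ≤ 0) → (∀ e ∈ Y, r (insert e C) = r C + 1) → r (Y ∪ C) ≤ r0 → 
    0 ≤ (-1) ^ (r0 + r C) * Zs r r0 v Y C := by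
  intro n
  induction n with
  | zero =>
    intro Y C v hn _ _ _
    have : Y = ∅ := Finset.card_eq_zero.1 hn
    subst this
    rw [Zs_empty]
    split_ifs with h
    · rw [h, mul_one, ← two_mul, pow_mul]
      simp
    · simp
  | succ n ih =>
    intro Y C v hn hv hl hs
    obtain ⟨e, heY⟩ := Finset.card_pos.1 (by omega : 0 < Y.card)
    obtain ⟨Y', he, rfl⟩ : ∃ Y', e ∉ Y' ∧ Y = insert e Y' := 
      ⟨Y.erase e, Finset.notMem_erase e Y, (Finset.insert_erase heY).symm⟩
    rw [Finset.card_insert_of_notMem he] at hn
    have hle := hl e (Finset.mem_insert_self _ _)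
    have hve := hv e (Finset.mem_insert_self _ _)
    have hs' : r (Y' ∪ C) ≤ r0 := 
      (hr.mono (Finset.union_subset_union_left (Finset.subset_insert e Y'))).trans hs
    by_cases hp : ∃ f ∈ Y', r (insert f (insert e C)) = r (insert e C)
    · obtain ⟨f, hfY, hf⟩ := hp
      obtain ⟨Y'', hf', rfl⟩ : ∃ Y'', f ∉ Y'' ∧ Y' = insert f Y'' := 
        ⟨Y'.erase f, Finset.notMem_erase f Y', (Finset.insert_erase hfY).symm⟩
      have hlf := hl f (Finset.mem_insert_of_mem (Finset.mem_insert_self _ _))
      have hvf := hv f (Finset.mem_insert_of_mem (Finset.mem_insert_self _ _))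
      have h2 : r (insert e (insert f C)) = r (insert f C) := by
        rw [Finset.insert_comm, hf, hle, hlf]
      rw [Zs_parallel hr v he hf' hf h2]
      have heY'' : e ∉ Y'' := fun h => he (Finset.mem_insert_of_mem h)
      apply ih
      · rw [Finset.card_insert_of_notMem heY'']
        rw [Finset.card_insert_of_notMem hf'] at hn
        omega
      · intro a ha
        rw [Finset.mem_insert] at ha
        rcases ha with rfl | ha
        · rw [Function.update_self]
          constructor <;> nlinarith [mul_nonneg_of_nonpos_of_nonpos hve.2 hvf.2]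
        · rw [Function.update_of_ne (by rintro rfl; exact heY'' ha)]
          exact hv a (Finset.mem_insert_of_mem (Finset.mem_insert_of_mem ha))
      · intro a ha
        rw [Finset.mem_insert] at ha
        rcases ha with rfl | ha
        · exact hle
        · exact hl a (Finset.mem_insert_of_mem (Finset.mem_insert_of_mem ha))
      · refine (hr.mono (Finset.union_subset_union_left ?_)).trans hs
        exact Finset.insert_subset_insert _ (Finset.subset_insert _ _)
    · push Not at hp
      rw [Zs_insert _ _ _ _ he, mul_add]
      have i1 := ih Y' C v (by omega) (fun a ha => hv a (Finset.mem_insert_of_mem ha)) 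
        (fun a ha => hl a (Finset.mem_insert_of_mem ha)) hs'
      have i2 := ih Y' (insert e C) v (by omega) (fun a ha => hv a (Finset.mem_insert_of_mem ha)) 
        (fun a ha => ((hr.step (insert e C) a).resolve_left (hp a ha))) 
        (by rw [Finset.union_insert, ← Finset.insert_union]; exact hs)
      rw [hle, ← add_assoc, pow_succ] at i2
      have i3 : 0 ≤ (-1) ^ (r0 + r C) * (v e * Zs r r0 v Y' (insert e C)) := by
        nlinarith [mul_nonneg (neg_nonneg.2 hve.2) i2]
      linarith

theorem strict (hr : IsRk r) : ∀ (n : ℕ) (Y C : Finset α) (v : α → ℝ), Y.card = n → 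
    (∀ e ∈ Y, -2 ≤ v e ∧ v e < 0) → (∀ e ∈ Y, r (insert e C) = r C + 1) → 
    (∀ e ∈ Y, ∀ f ∈ Y, e ≠ f → r (insert f (insert e C)) = r C + 2) → r (Y ∪ C) = r0 → 
    0 < (-1) ^ (r0 + r C) * Zs r r0 v Y C := by
  intro n
  induction n with
  | zero =>
    intro Y C v hn _ _ _ hs
    have : Y = ∅ := Finset.card_eq_zero.1 hn
    subst this
    rw [Finset.empty_union] at hs
    rw [Zs_empty, if_pos hs, hs, mul_one, ← two_mul, pow_mul]
    simp
  | succ n ih =>
    intro Y C v hn hv hl hp hs
    obtain ⟨e, heY⟩ := Finset.card_pos.1 (by omega : 0 < Y.card)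
    obtain ⟨Y', he, rfl⟩ : ∃ Y', e ∉ Y' ∧ Y = insert e Y' := 
      ⟨Y.erase e, Finset.notMem_erase e Y, (Finset.insert_erase heY).symm⟩
    rw [Finset.card_insert_of_notMem he] at hn
    have hle := hl e (Finset.mem_insert_self _ _)
    have hve := hv e (Finset.mem_insert_self _ _)
    have hs' : r (Y' ∪ C) ≤ r0 := 
      (hr.mono (Finset.union_subset_union_left (Finset.subset_insert e Y'))).trans hs.le
    have hne : ∀ f ∈ Y', f ≠ e := by
      rintro f hf rfl
      exact he hf
    have hnl : ∀ f ∈ Y', r (insert f (insert e C)) = r (insert e C) + 1 := by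
      intro f hf
      rw [hp e (Finset.mem_insert_self _ _) f (Finset.mem_insert_of_mem hf) (hne f hf).symm, hle]
    have hsu : r (Y' ∪ insert e C) = r0 := by
      rw [Finset.union_insert, ← Finset.insert_union]; exact hs
    rw [Zs_insert _ _ _ _ he, mul_add]
    have w1 := weak hr n Y' C v (by omega) (fun a ha => 
      ⟨(hv a (Finset.mem_insert_of_mem ha)).1, (hv a (Finset.mem_insert_of_mem ha)).2.le⟩) 
        (fun a ha => hl a (Finset.mem_insert_of_mem ha)) hs'
    have w2 := weak hr n Y' (insert e C) v (by omega) (fun a ha => 
      ⟨(hv a (Finset.mem_insert_of_mem ha)).1, (hv a (Finset.mem_insert_of_mem ha)).2.le⟩) hnl hsu.le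
    rw [hle, ← add_assoc, pow_succ] at w2
    by_cases hc : r (Y' ∪ C) = r0
    · have i1 := ih Y' C v (by omega) (fun a ha => hv a (Finset.mem_insert_of_mem ha)) 
        (fun a ha => hl a (Finset.mem_insert_of_mem ha)) 
        (fun a ha b hb hab => hp a (Finset.mem_insert_of_mem ha) b (Finset.mem_insert_of_mem hb) hab) hc
      have i3 : 0 ≤ (-1) ^ (r0 + r C) * (v e * Zs r r0 v Y' (insert e C)) := by
        nlinarith [mul_nonneg (neg_nonneg.2 hve.2.le) w2]
      linarith
    · have hcl : ∀ A : Finset α, A ⊆ Y' ∪ C → r (insert e A) = r A + 1 := by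
        intro A hA
        apply hr.up hA
        rw [← Finset.insert_union, hs]
        exact fun h => hc h.symm
      have i2 := ih Y' (insert e C) v (by omega) (fun a ha => hv a (Finset.mem_insert_of_mem ha)) hnl ?_ hsu
      · rw [hle, ← add_assoc, pow_succ] at i2
        have i3 : 0 < (-1) ^ (r0 + r C) * (v e * Zs r r0 v Y' (insert e C)) := by
          have := mul_pos (neg_pos.2 hve.2) i2
          nlinarith
        linarith
      · intro a ha b hb hab
        have h1 := hp a (Finset.mem_insert_of_mem ha) b (Finset.mem_insert_of_mem hb) hab
        have h2 := hcl (insert b (insert a C)) (by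
          intro x hx
          rw [Finset.mem_insert, Finset.mem_insert] at hx
          rw [Finset.mem_union]
          rcases hx with rfl | rfl | hx
          · exact Or.inl hb
          · exact Or.inl ha
          · exact Or.inr hx)
        rw [Finset.insert_comm e b, Finset.insert_comm e a] at h2
        rw [h2, h1, hle]

/-! ### complex weights on the closed disc -/

theorem inv_re {v : ℂ} (hv : v ≠ 0) (h : ‖1 + v‖ ≤ 1) : (v⁻¹).re ≤ -1 / 2 := by
  have h1 : Complex.normSq (1 + v) ≤ 1 := by
    rw [← Complex.sq_norm]
    nlinarith [norm_nonneg (1 + v)]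
  have h2 : 0 < Complex.normSq v := Complex.normSq_pos.2 hv
  rw [Complex.inv_re, div_le_iff₀ h2]
  rw [Complex.normSq_apply] at h1 ⊢
  simp only [Complex.add_re, Complex.one_re, Complex.add_im, Complex.one_im] at h1
  nlinarith

theorem norm_lt_of_re {s : ℂ} (h : s.re < -1 / 2) : ‖1 + s⁻¹‖ < 1 := by
  have h0 : s ≠ 0 := by
    rintro rfl
    norm_num at h
  have h1 : 1 + s⁻¹ = (s + 1) / s := by
    field_simp
  rw [h1, norm_div, div_lt_one (norm_pos_iff.2 h0)]
  have h2 : ‖s + 1‖ ^ 2 < ‖s‖ ^ 2 := by
    rw [Complex.sq_norm, Complex.sq_norm, Complex.normSq_apply, Complex.normSq_apply]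
    simp only [Complex.add_re, Complex.one_re, Complex.add_im, Complex.one_im]
    nlinarith
  exact lt_of_pow_lt_pow_left₀ 2 (norm_nonneg _) h2

theorem Zs_series (hr : IsRk r) (v : α → ℂ) {Y C : Finset α} {e f : α} (he : e ∉ insert f Y) 
    (hf : f ∉ Y) (h1 : r (insert e (Y ∪ C)) = r (Y ∪ C) + 1) (h2 : r (insert f (Y ∪ C)) = r (Y ∪ C) + 1) 
    (h0 : r (Y ∪ C) + 1 = r0) (hv : v e + v f ≠ 0) :
    Zs r r0 v (insert e (insert f Y)) C = (v e + v f) * 
      Zs r r0 (Function.update v e (v e * v f / (v e + v f))) (insert e Y) (insert f C) := by
  have heY : e ∉ Y := fun h => he (Finset.mem_insert_of_mem h)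
  have hc : ∀ C, Zs r r0 (Function.update v e (v e * v f / (v e + v f))) Y C = Zs r r0 v Y C := by
    intro C
    apply Zs_congr
    intro a ha
    rw [Function.update_of_ne]
    rintro rfl
    exact heY ha
  have h3 : Zs r r0 v Y (insert e C) = Zs r r0 v Y (insert f C) := by
    unfold Zs
    refine Finset.sum_congr rfl fun Q hQ => ?_
    have hsub : Q ∪ C ⊆ Y ∪ C := Finset.union_subset_union_left (Finset.mem_powerset.1 hQ)
    rw [Finset.union_insert, Finset.union_insert, hr.up hsub (by omega : r (insert e (Y ∪ C)) ≠ r (Y ∪ C)), 
      hr.up hsub (by omega : r (insert f (Y ∪ C)) ≠ r (Y ∪ C))]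
  rw [Zs_insert _ _ _ _ he, Zs_insert _ _ _ _ hf, Zs_insert _ _ _ _ hf, Zs_insert _ _ _ _ heY, hc, hc,
    Function.update_self, Zs_zero hr v (by omega : r (Y ∪ C) < r0), h3, Finset.insert_comm f e]
  field_simp
  ring

/-- Nonvanishing for weights in the closed disc `|1 + v| ≤ 1`; weights `0` are allowed as long as the other
elements span. -/
theorem sp_ne (hr : IsRk r) {Y C : Finset α} (h : SP r Y C) : ∀ (v : α → ℂ), 
    (∀ e ∈ Y, r (insert e C) = r C + 1 → ‖1 + v e‖ ≤ 1) → 
    (∀ e ∈ Y, r (insert e C) = r C → 1 + v e ≠ 0) → 
    (∀ e ∈ Y, ∀ f ∈ Y, e ≠ f → v e ≠ 0 → v f ≠ 0 → r (insert e C) = r C + 1 → 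
      r (insert f C) = r C + 1 → r (insert f (insert e C)) = r C + 1 → ‖1 + v e‖ < 1 ∨ ‖1 + v f‖ < 1) → 
    ∀ A : Finset α, A ⊆ Y → (∀ e ∈ A, v e ≠ 0) → r (A ∪ C) = r0 → r (Y ∪ C) = r0 → 
    Zs r r0 v Y C ≠ 0 := by
  induction h with
  | nil C =>
    intro v _ _ _ A _ _ _ hs
    rw [Finset.empty_union] at hs
    rw [Zs_empty, if_pos hs]
    exact one_ne_zero
  | @loop Y C e he hl _ ih =>
    intro v ha hb hp A hAY hA hAs hs
    rw [Zs_insert _ _ _ _ he, Zs_loop hr v Y hl]
    have h1 : Zs r r0 v Y C + v e * Zs r r0 v Y C = (1 + v e) * Zs r r0 v Y C := by ring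
    rw [h1]
    refine mul_ne_zero (hb e (Finset.mem_insert_self _ _) hl) ?_
    refine ih v (fun a h => ha a (Finset.mem_insert_of_mem h)) (fun a h => hb a (Finset.mem_insert_of_mem h))
      (fun a h b h' => hp a (Finset.mem_insert_of_mem h) b (Finset.mem_insert_of_mem h')) (A.erase e) ?_ 
      (fun a h => hA a (Finset.mem_of_mem_erase h)) ?_ ?_
    · intro a h
      exact (Finset.mem_insert.1 (hAY (Finset.mem_of_mem_erase h))).resolve_left (Finset.ne_of_mem_erase h)
    · have h2 := hr.loc C (A.erase e ∪ C) e Finset.subset_union_right hl
      rw [← h2, ← Finset.insert_union]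
      by_cases heA : e ∈ A
      · rw [Finset.insert_erase heA, hAs]
      · rw [Finset.erase_eq_of_notMem heA, Finset.insert_union, 
          hr.loc C (A ∪ C) e Finset.subset_union_right hl, hAs]
    · rw [Finset.insert_union, hr.loc C (Y ∪ C) e Finset.subset_union_right hl] at hs
      exact hs
  | @coloop Y C e he hcl _ ih =>
    intro v ha hb hp A hAY hA hAs hs
    rw [Finset.insert_union, hcl] at hs
    rw [Zs_coloop hr v he (by omega)]
    have hup : ∀ A : Finset α, A ⊆ Y ∪ C → r (insert e A) = r A + 1 := fun A hA => 
      hr.up hA (by omega)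
    have hle := hup C Finset.subset_union_right
    have heA : e ∈ A := by
      by_contra heA
      have h1 : A ⊆ Y := fun a h => (Finset.mem_insert.1 (hAY h)).resolve_left (by rintro rfl; exact heA h)
      have h2 := hr.mono (Finset.union_subset_union_left (t := C) h1)
      omega
    refine mul_ne_zero (hA e heA) ?_
    have h1 : ∀ a ∈ Y, r (insert a (insert e C)) = r (insert a C) + 1 := by
      intro a haY
      rw [Finset.insert_comm, hup (insert a C)]
      exact Finset.insert_subset (Finset.mem_union_left _ haY) Finset.subset_union_right
    have h2 : ∀ a ∈ Y, ∀ b ∈ Y, r (insert b (insert a (insert e C))) = r (insert b (insert a C)) + 1 := by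
      intro a haY b hbY
      rw [Finset.insert_comm a e, Finset.insert_comm b e, hup (insert b (insert a C))]
      exact Finset.insert_subset (Finset.mem_union_left _ hbY) 
        (Finset.insert_subset (Finset.mem_union_left _ haY) Finset.subset_union_right)
    refine ih v (fun a h h' => ha a (Finset.mem_insert_of_mem h) ?_) 
      (fun a h h' => hb a (Finset.mem_insert_of_mem h) ?_)
      (fun a h b h' hab g4 g5 g1 g2 g3 => hp a (Finset.mem_insert_of_mem h) b (Finset.mem_insert_of_mem h') 
        hab g4 g5 ?_ ?_ ?_) (A.erase e) ?_ (fun a h => hA a (Finset.mem_of_mem_erase h)) ?_ ?_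
    · have := h1 a h; omega
    · have := h1 a h; omega
    · have := h1 a h; omega
    · have := h1 b h'; omega
    · have := h2 a h b h'; omega
    · intro a h
      exact (Finset.mem_insert.1 (hAY (Finset.mem_of_mem_erase h))).resolve_left (Finset.ne_of_mem_erase h)
    · rw [Finset.union_insert, ← Finset.insert_union, Finset.insert_erase heA, hAs]
    · rw [Finset.union_insert, hcl]; exact hs
  | @par Y C e f he hf hle hlf hef _ ih =>
    intro v ha hb hp A hAY hA hAs hs
    have heY : e ∉ Y := fun h => he (Finset.mem_insert_of_mem h)
    have hne : e ≠ f := fun h => he (by rw [h]; exact Finset.mem_insert_self _ _)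
    have me : e ∈ insert e (insert f Y) := Finset.mem_insert_self _ _
    have mf : f ∈ insert e (insert f Y) := Finset.mem_insert_of_mem (Finset.mem_insert_self _ _)
    have mY : ∀ {a}, a ∈ Y → a ∈ insert e (insert f Y) := fun h => 
      Finset.mem_insert_of_mem (Finset.mem_insert_of_mem h)
    have hef' : r (insert e (insert f C)) = r C + 1 := by rw [Finset.insert_comm]; exact hef
    rw [Zs_parallel hr v he hf (by rw [hef, hle]) (by rw [hef', hlf])]
    have hst : v e ≠ 0 → v f ≠ 0 → ‖1 + (v e + v f + v e * v f)‖ < 1 := by
      intro e0 f0
      have h1 : 1 + (v e + v f + v e * v f) = (1 + v e) * (1 + v f) := by ring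
      rw [h1, norm_mul]
      have a1 := ha e me hle
      have a2 := ha f mf hlf
      have a3 := norm_nonneg (1 + v e)
      have a4 := norm_nonneg (1 + v f)
      rcases hp e me f mf hne e0 f0 hle hlf hef with h | h <;> nlinarith
    have hstn : ∀ x : ℂ, ‖1 + x‖ < 1 → x ≠ 0 := by
      rintro x hx rfl
      rw [add_zero, norm_one] at hx
      exact lt_irrefl _ hx
    have hupd : ∀ a ∈ Y, Function.update v e (v e + v f + v e * v f) a = v a := by
      intro a haY
      rw [Function.update_of_ne]
      rintro rfl
      exact heY haY
    -- parallel to `e` iff parallel to `f`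
    have hswap : ∀ a, r (insert a (insert e C)) = r C + 1 → r (insert a (insert f C)) = r C + 1 := by
      intro a h
      have h1 := hr.loc (insert e C) (insert a (insert e C)) f (Finset.subset_insert _ _) (by rw [hef, hle])
      have h2 : insert a (insert f C) ⊆ insert f (insert a (insert e C)) := by
        rw [Finset.insert_comm]
        exact Finset.insert_subset_insert _ (Finset.insert_subset_insert _ (Finset.subset_insert _ _))
      have h3 := hr.mono h2
      have h4 := hr.mono (Finset.subset_insert a (insert f C))
      omega
    have hmem : e ∈ A ∨ f ∈ A → v e + v f + v e * v f ≠ 0 := by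
      intro h
      by_cases e0 : v e = 0
      · have hf0 : v f ≠ 0 := by
          rcases h with h | h
          · exact absurd e0 (hA e h)
          · exact hA f h
        rw [e0]
        simpa using hf0
      · by_cases f0 : v f = 0
        · rw [f0]
          simpa using e0
        · exact hstn _ (hst e0 f0)
    refine ih _ ?_ ?_ ?_ (if e ∈ A ∨ f ∈ A then insert e (A.erase f) else A) ?_ ?_ ?_ ?_
    · intro a haY hla
      rw [Finset.mem_insert] at haY
      rcases haY with rfl | haY
      · rw [Function.update_self]
        by_cases e0 : v a = 0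
        · rw [e0]
          simpa using ha f mf hlf
        · by_cases f0 : v f = 0
          · rw [f0]
            simpa using ha a me hle
          · exact (hst e0 f0).le
      · rw [hupd a haY]
        exact ha a (mY haY) hla
    · intro a haY hla
      rw [Finset.mem_insert] at haY
      rcases haY with rfl | haY
      · omega
      · rw [hupd a haY]
        exact hb a (mY haY) hla
    · intro a haY b hbY hab a0 b0 g1 g2 g3
      -- the element `e` and another one
      have main : ∀ b ∈ Y, v b ≠ 0 → v e + v f + v e * v f ≠ 0 → r (insert b C) = r C + 1 → 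
          r (insert b (insert e C)) = r C + 1 → 
          ‖1 + (v e + v f + v e * v f)‖ < 1 ∨ ‖1 + v b‖ < 1 := by
        intro b hbY b0 e0' g2 g3
        by_cases e0 : v e = 0
        · have f0 : v f ≠ 0 := by
            rintro f0
            apply e0'
            rw [e0, f0]
            ring
          have hfb : f ≠ b := by rintro rfl; exact hf hbY
          have := hp f mf b (mY hbY) hfb f0 b0 hlf g2 (hswap b g3)
          rw [e0]
          simpa using this
        · by_cases f0 : v f = 0
          · have heb : e ≠ b := by rintro rfl; exact heY hbY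
            have := hp e me b (mY hbY) heb e0 b0 hle g2 g3
            rw [f0]
            simpa using this
          · exact Or.inl (hst e0 f0)
      rw [Finset.mem_insert] at haY hbY
      rcases haY with rfl | haY
      · rcases hbY with rfl | hbY
        · exact absurd rfl hab
        · rw [Function.update_self] at a0 ⊢
          rw [hupd b hbY] at b0 ⊢
          exact main b hbY b0 a0 g2 g3
      · rcases hbY with rfl | hbY
        · rw [Function.update_self] at b0 ⊢
          rw [hupd a haY] at a0 ⊢
          exact (main a haY a0 b0 g1 (by rw [Finset.insert_comm]; exact g3)).symm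
        · rw [hupd a haY] at a0 ⊢
          rw [hupd b hbY] at b0 ⊢
          exact hp a (mY haY) b (mY hbY) hab a0 b0 g1 g2 g3
    · split_ifs with h
      · intro a h'
        rw [Finset.mem_insert] at h'
        rcases h' with rfl | h'
        · exact Finset.mem_insert_self _ _
        · have := hAY (Finset.mem_of_mem_erase h')
          rw [Finset.mem_insert, Finset.mem_insert] at this
          rw [Finset.mem_insert]
          have h2 := Finset.ne_of_mem_erase h'
          tauto
      · push Not at h
        intro a h'
        have := hAY h'
        rw [Finset.mem_insert, Finset.mem_insert] at this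
        rw [Finset.mem_insert]
        rcases this with h3 | rfl | h3
        · exact Or.inl h3
        · exact absurd h' h.2
        · exact Or.inr h3
    · intro a haA
      split_ifs at haA with h
      · rw [Finset.mem_insert] at haA
        by_cases hae : a = e
        · subst hae
          rw [Function.update_self]
          exact hmem h
        · have h3 := haA.resolve_left hae
          rw [Function.update_of_ne hae]
          exact hA a (Finset.mem_of_mem_erase h3)
      · push Not at h
        have hae : a ≠ e := by rintro rfl; exact h.1 haA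
        rw [Function.update_of_ne hae]
        exact hA a haA
    · split_ifs with h
      · -- rank of `insert e (A.erase f)`
        have h1 : r (insert f (insert e (A.erase f) ∪ C)) = r (insert e (A.erase f) ∪ C) := by
          apply hr.loc (insert e C) _ f
          · rw [Finset.insert_union]
            exact Finset.insert_subset_insert _ Finset.subset_union_right
          · rw [hef, hle]
        rw [← h1]
        apply le_antisymm
        · rw [← hs]
          apply hr.mono
          intro a h'
          simp only [Finset.mem_insert, Finset.mem_union, Finset.mem_erase] at h' ⊢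
          rcases h' with h' | (h' | h') | h'
          · exact Or.inl (Or.inr (Or.inl h'))
          · exact Or.inl (Or.inl h')
          · have := hAY h'.2
            rw [Finset.mem_insert, Finset.mem_insert] at this
            exact Or.inl this
          · exact Or.inr h'
        · rw [← hAs]
          apply hr.mono
          intro a h'
          simp only [Finset.mem_insert, Finset.mem_union, Finset.mem_erase] at h' ⊢
          by_cases haf : a = f
          · exact Or.inl haf
          · rcases h' with h' | h'
            · exact Or.inr (Or.inl (Or.inr ⟨haf, h'⟩))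
            · exact Or.inr (Or.inr h')
      · exact hAs
    · rw [← hs]
      apply le_antisymm
      · exact hr.mono (Finset.union_subset_union_left 
          (Finset.insert_subset_insert _ (Finset.subset_insert _ _)))
      · rw [Finset.insert_union, Finset.insert_union, Finset.insert_union, Finset.insert_comm]
        have h1 := hr.loc (insert e C) (insert e (Y ∪ C)) f 
          (Finset.insert_subset_insert _ Finset.subset_union_right) (by rw [hef, hle])
        rw [h1]
  | @ser Y C e f he hf hce hcf hcef _ ih =>
    intro v ha hb hp A hAY hA hAs hs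
    have heY : e ∉ Y := fun h => he (Finset.mem_insert_of_mem h)
    have hne : e ≠ f := fun h => he (by rw [h]; exact Finset.mem_insert_self _ _)
    have me : e ∈ insert e (insert f Y) := Finset.mem_insert_self _ _
    have mf : f ∈ insert e (insert f Y) := Finset.mem_insert_of_mem (Finset.mem_insert_self _ _)
    have mY : ∀ {a}, a ∈ Y → a ∈ insert e (insert f Y) := fun h => 
      Finset.mem_insert_of_mem (Finset.mem_insert_of_mem h)
    have upe : ∀ A : Finset α, A ⊆ Y ∪ C → r (insert e A) = r A + 1 := fun A hA => 
      hr.up hA (by omega)
    have upf : ∀ A : Finset α, A ⊆ Y ∪ C → r (insert f A) = r A + 1 := fun A hA => 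
      hr.up hA (by omega)
    have hle := upe C Finset.subset_union_right
    have hlf := upf C Finset.subset_union_right
    have e1 := ha e me hle
    have f1 := ha f mf hlf
    have hs0 : r (Y ∪ C) + 1 = r0 := by
      rw [Finset.insert_union, Finset.insert_union, Finset.insert_comm, hcef] at hs
      exact hs
    have hA2 : e ∈ A ∨ f ∈ A := by
      by_contra h
      push Not at h
      have h1 : A ⊆ Y := by
        intro a h'
        have := hAY h'
        rw [Finset.mem_insert, Finset.mem_insert] at this
        rcases this with rfl | rfl | h3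
        · exact absurd h' h.1
        · exact absurd h' h.2
        · exact h3
      have h2 := hr.mono (Finset.union_subset_union_left (t := C) h1)
      omega
    have hre : v e ≠ 0 → v f ≠ 0 → ((v e)⁻¹ + (v f)⁻¹).re < -1 / 2 := by
      intro e2 f2
      have r1 := inv_re e2 e1
      have r2 := inv_re f2 f1
      rw [Complex.add_re]
      linarith
    have hsum : v e + v f ≠ 0 := by
      intro h0
      have h1 : v f = - v e := by linear_combination h0
      have e2 : v e ≠ 0 := by
        intro e2
        rcases hA2 with h | h
        · exact hA e h e2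
        · exact hA f h (by rw [h1, e2, neg_zero])
      have f2 : v f ≠ 0 := by rw [h1]; exact neg_ne_zero.2 e2
      have h2 := hre e2 f2
      rw [h1, inv_neg, add_neg_cancel, Complex.zero_re] at h2
      norm_num at h2
    have hst : v e ≠ 0 → v f ≠ 0 → ‖1 + v e * v f / (v e + v f)‖ < 1 := by
      intro e2 f2
      have hinv : v e * v f / (v e + v f) = ((v e)⁻¹ + (v f)⁻¹)⁻¹ := by
        have h3 : (v e)⁻¹ + (v f)⁻¹ = (v e + v f) / (v e * v f) := by
          field_simp
          ring
        rw [h3, inv_div]
      rw [hinv]
      exact norm_lt_of_re (hre e2 f2)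
    have hzero : v e * v f / (v e + v f) ≠ 0 → v e ≠ 0 ∧ v f ≠ 0 := by
      intro h
      constructor <;> (intro h0; apply h; rw [h0]; simp)
    have hupd : ∀ a ∈ Y, Function.update v e (v e * v f / (v e + v f)) a = v a := by
      intro a haY
      rw [Function.update_of_ne]
      rintro rfl
      exact heY haY
    rw [Zs_series hr v he hf hce hcf hs0 hsum]
    refine mul_ne_zero hsum ?_
    have h1 : ∀ a ∈ Y, r (insert a (insert f C)) = r (insert a C) + 1 := by
      intro a haY
      rw [Finset.insert_comm, upf (insert a C)]
      exact Finset.insert_subset (Finset.mem_union_left _ haY) Finset.subset_union_right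
    have h2 : ∀ a ∈ Y, ∀ b ∈ Y, r (insert b (insert a (insert f C))) = r (insert b (insert a C)) + 1 := by
      intro a haY b hbY
      rw [Finset.insert_comm a f, Finset.insert_comm b f, upf (insert b (insert a C))]
      exact Finset.insert_subset (Finset.mem_union_left _ hbY) 
        (Finset.insert_subset (Finset.mem_union_left _ haY) Finset.subset_union_right)
    refine ih _ ?_ ?_ ?_ (if v e = 0 ∨ v f = 0 then (A.erase e).erase f else A.erase f) ?_ ?_ ?_ ?_
    · intro a haY hla
      rw [Finset.mem_insert] at haY
      rcases haY with rfl | haY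
      · rw [Function.update_self]
        by_cases h0 : v a * v f / (v a + v f) = 0
        · rw [h0]; simp
        · obtain ⟨e2, f2⟩ := hzero h0
          exact (hst e2 f2).le
      · rw [hupd a haY]
        refine ha a (mY haY) ?_
        have := h1 a haY
        omega
    · intro a haY hla
      rw [Finset.mem_insert] at haY
      rcases haY with rfl | haY
      · -- `e` and `f` are parallel
        rw [Function.update_self]
        intro h0
        by_cases h00 : v a * v f / (v a + v f) = 0
        · rw [h00] at h0
          norm_num at h0
        · obtain ⟨e2, f2⟩ := hzero h00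
          have h3 : ‖(1 + v a) * (1 + v f)‖ < 1 := by
            rw [norm_mul]
            have a3 := norm_nonneg (1 + v a)
            have a4 := norm_nonneg (1 + v f)
            rcases hp a me f mf hne e2 f2 hle hlf (by rw [Finset.insert_comm, hla, hlf]) with h | h <;> 
              nlinarith
          have h4 : (1 + v a) * (1 + v f) = 1 := by
            have h5 : (v a + v f) + v a * v f = 0 := by
              have h6 : (v a + v f) * (1 + v a * v f / (v a + v f)) = (v a + v f) + v a * v f := by
                field_simp
              rw [← h6, h0, mul_zero]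
            linear_combination h5
          rw [h4, norm_one] at h3
          exact lt_irrefl _ h3
      · rw [hupd a haY]
        refine hb a (mY haY) ?_
        have := h1 a haY
        omega
    · intro a haY b hbY hab a0 b0 g1 g2 g3
      rw [Finset.mem_insert] at haY hbY
      rcases haY with rfl | haY
      · left
        rw [Function.update_self] at a0 ⊢
        exact hst (hzero a0).1 (hzero a0).2
      · rcases hbY with rfl | hbY
        · right
          rw [Function.update_self] at b0 ⊢
          exact hst (hzero b0).1 (hzero b0).2
        · rw [hupd a haY] at a0 ⊢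
          rw [hupd b hbY] at b0 ⊢
          refine hp a (mY haY) b (mY hbY) hab a0 b0 ?_ ?_ ?_
          · have := h1 a haY; omega
          · have := h1 b hbY; omega
          · have := h2 a haY b hbY; omega
    · split_ifs with h
      · intro a h'
        rw [Finset.mem_erase, Finset.mem_erase] at h'
        have := hAY h'.2.2
        rw [Finset.mem_insert, Finset.mem_insert] at this
        rw [Finset.mem_insert]
        tauto
      · intro a h'
        rw [Finset.mem_erase] at h'
        have := hAY h'.2
        rw [Finset.mem_insert, Finset.mem_insert] at this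
        rw [Finset.mem_insert]
        tauto
    · intro a haA
      split_ifs at haA with h
      · rw [Finset.mem_erase, Finset.mem_erase] at haA
        rw [Function.update_of_ne haA.2.1]
        exact hA a haA.2.2
      · push Not at h
        rw [Finset.mem_erase] at haA
        by_cases hae : a = e
        · subst hae
          rw [Function.update_self]
          exact div_ne_zero (mul_ne_zero h.1 h.2) hsum
        · rw [Function.update_of_ne hae]
          exact hA a haA.2
    · -- the rank of the new set
      have hY2 : (A.erase e).erase f ⊆ Y := by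
        intro a h'
        rw [Finset.mem_erase, Finset.mem_erase] at h'
        have := hAY h'.2.2
        rw [Finset.mem_insert, Finset.mem_insert] at this
        tauto
      have hsub : (A.erase e).erase f ∪ C ⊆ Y ∪ C := Finset.union_subset_union_left hY2
      split_ifs with h
      · -- exactly one of the two is in `A`
        have h3 : A ⊆ insert e ((A.erase e).erase f) ∨ A ⊆ insert f ((A.erase e).erase f) := by
          rcases h with h | h
          · right
            intro a haA
            rw [Finset.mem_insert, Finset.mem_erase, Finset.mem_erase]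
            have hae : a ≠ e := by rintro rfl; exact hA a haA h
            tauto
          · left
            intro a haA
            rw [Finset.mem_insert, Finset.mem_erase, Finset.mem_erase]
            have haf : a ≠ f := by rintro rfl; exact hA a haA h
            tauto
        rw [Finset.union_insert, upf _ hsub]
        have h4 : r0 ≤ r ((A.erase e).erase f ∪ C) + 1 := by
          rcases h3 with h3 | h3
          · rw [← upe _ hsub, ← hAs, ← Finset.insert_union]
            exact hr.mono (Finset.union_subset_union_left h3)
          · rw [← upf _ hsub, ← hAs, ← Finset.insert_union]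
            exact hr.mono (Finset.union_subset_union_left h3)
        have h5 := hr.mono hsub
        omega
      · apply le_antisymm
        · rw [← hs]
          apply hr.mono
          intro a h'
          simp only [Finset.mem_insert, Finset.mem_union, Finset.mem_erase] at h' ⊢
          rcases h' with h' | h' | h'
          · have := hAY h'.2
            rw [Finset.mem_insert, Finset.mem_insert] at this
            exact Or.inl this
          · exact Or.inl (Or.inr (Or.inl h'))
          · exact Or.inr h'
        · rw [← hAs]
          apply hr.mono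
          intro a h'
          simp only [Finset.mem_insert, Finset.mem_union, Finset.mem_erase] at h' ⊢
          tauto
    · rw [Finset.insert_union, Finset.union_insert, Finset.insert_comm, hcef]
      exact hs0

end Run7.h509
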