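import Pool.Agent.Y463.CD.Fin
import Pool.Agent.H891R2.DS.D1
import Pool.Agent.Run7.h509.Mat

/-!
# The cluster lemma for a linear functional
-/

set_option autoImplicit false

namespace Run7.h509

open Finset LaurentPolynomial Pool.Agent.H891R2.Jones Pool.Agent.H891R2.MT Pool.Agent.H891R2.SI T4b
open Pool.Agent.Y463.CD hiding cluster

/-- the cluster lemma, for a linear functional -/
theorem cluster {ι : Type} [DecidableEq ι] (p : ι → ℤ[T;T⁻¹]) (b x L : ℤ) (hp : ∀ i, SIn (p i) (-b) b) 
    (hx : 0 ≤ x) (hL0 : 0 ≤ L) (hL : 2 * b + L ≤ 2 * x) (a : ι → ℤ) (ψ y : ι → ℂ) 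
    (hψ : ∀ X : Finset ι, ∑ i ∈ X, zf (a i) * p i = 0 → ∑ i ∈ X, ψ i = 0) : 
    ∀ (n : ℕ) (X : Finset ι), X.card ≤ n → 
    ∀ lo : ℤ, SIn (∑ i ∈ X, zf (a i) * p i) lo (lo + L) → ∑ i ∈ X, ψ i = 0 → 
    (∀ i ∈ X, ∀ j ∈ X, 2 * |a i - a j| ≤ x → y i = y j) → ∑ i ∈ X, y i * ψ i = 0 := by
  intro n
  induction n with
  | zero =>
    intro X hX lo _ _ _
    have : X = ∅ := Finset.card_eq_zero.1 (by omega)
    subst this
    simp
  | succ n ih =>
    intro X hX lo hS hX0 hy
    by_cases hc : ∃ y0, ∀ i ∈ X, y i = y0
    · obtain ⟨y0, hy0⟩ := hc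
      rw [Finset.sum_congr rfl fun i hi => by rw [hy0 i hi], ← Finset.mul_sum, hX0, mul_zero]
    · have hne : X.Nonempty := by
        by_contra h
        rw [Finset.not_nonempty_iff_eq_empty] at h
        subst h
        exact hc ⟨0, by simp⟩
      obtain ⟨i0, hi0, hmin⟩ := X.exists_min_image a hne
      have hc1 : (X.filter (fun i => y i ≠ y i0)).Nonempty := by
        by_contra h
        rw [Finset.not_nonempty_iff_eq_empty, Finset.filter_eq_empty_iff] at h
        exact hc ⟨y i0, fun i hi => not_not.1 (h hi)⟩
      obtain ⟨j0, hj0, hjmin⟩ := (X.filter (fun i => y i ≠ y i0)).exists_min_image a hc1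
      rw [Finset.mem_filter] at hj0
      -- the two parts
      set X1 := X.filter (fun i => a i < a j0) with hX1
      set X2 := X.filter (fun i => ¬ a i < a j0) with hX2
      have hy1 : ∀ i ∈ X1, y i = y i0 := by
        intro i hi
        rw [hX1, Finset.mem_filter] at hi
        by_contra h
        have := hjmin i (Finset.mem_filter.2 ⟨hi.1, h⟩)
        omega
      have hi01 : i0 ∈ X1 := by
        rw [hX1, Finset.mem_filter]
        refine ⟨hi0, ?_⟩
        by_contra h
        have h1 := hmin j0 hj0.1
        have h2 : a i0 = a j0 := by omega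
        apply hj0.2
        refine hy j0 hj0.1 i0 hi0 ?_
        rw [h2, sub_self, abs_zero]
        simpa using hx
      have hj02 : j0 ∈ X2 := by
        rw [hX2, Finset.mem_filter]
        exact ⟨hj0.1, by omega⟩
      -- the gap
      have hgap : ∀ i ∈ X1, x + 1 ≤ 2 * (a j0 - a i) := by
        intro i hi
        have hi' := (Finset.mem_filter.1 hi)
        by_contra h
        apply hj0.2
        rw [← hy1 i hi]
        refine hy j0 hj0.1 i hi'.1 ?_
        rw [abs_of_pos (by omega)]
        omega
      have hX2' : ∀ i ∈ X2, a j0 ≤ a i := by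
        intro i hi
        have := (Finset.mem_filter.1 hi).2
        omega
      have hsum : ∀ f : ι → ℤ[T;T⁻¹], ∑ i ∈ X, f i = ∑ i ∈ X1, f i + ∑ i ∈ X2, f i := fun f => 
        (Finset.sum_filter_add_sum_filter_not X _ f).symm
      have hsumc : ∀ f : ι → ℂ, ∑ i ∈ X, f i = ∑ i ∈ X1, f i + ∑ i ∈ X2, f i := fun f => 
        (Finset.sum_filter_add_sum_filter_not X _ f).symm
      set G1 := ∑ i ∈ X1, zf (a i) * p i with hG1
      set G2 := ∑ i ∈ X2, zf (a i) * p i with hG2
      -- supports
      have s1 : ∀ j, G1.coeff j ≠ 0 → 2 * x + 2 - 4 * a j0 - b ≤ j := by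
        have h1 : SIn G1 (2 * x + 2 - 4 * a j0 - b) (-4 * a i0 + b) := by
          refine SIn.sum _ _ fun i hi => (SIn_zf_mul (hp i) (a i)).mono ?_ ?_
          · have := hgap i hi
            linarith
          · have := hmin i (Finset.mem_filter.1 hi).1
            linarith
        exact fun j hj => (h1 j hj).1
      have s2 : ∀ j, G2.coeff j ≠ 0 → j ≤ -4 * a j0 + b := by
        intro j hj
        by_contra hlt
        apply hj
        have h2 : ∀ i ∈ X2, (zf (a i) * p i).coeff j = 0 := by
          intro i hi
          by_contra h3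
          have h4 := (SIn_zf_mul (hp i) (a i) j h3).2
          have h5 := hX2' i hi
          linarith
        rw [hG2, AddMonoidAlgebra.coeff_sum, Finsupp.finsetSum_apply]
        exact Finset.sum_eq_zero h2
      have hc1 : X1.card ≤ n := by
        have h1 : X1.card < X.card := Finset.card_lt_card (Finset.filter_ssubset.2 
          ⟨j0, hj0.1, by simp⟩)
        omega
      have hc2 : X2.card ≤ n := by
        have h1 : X2.card < X.card := Finset.card_lt_card (Finset.filter_ssubset.2 
          ⟨i0, hi0, by simpa using (Finset.mem_filter.1 hi01).2⟩)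
        omega
      have hyy1 : ∀ i ∈ X1, ∀ j ∈ X1, 2 * |a i - a j| ≤ x → y i = y j := fun i hi j hj => 
        hy i (Finset.mem_filter.1 hi).1 j (Finset.mem_filter.1 hj).1
      have hyy2 : ∀ i ∈ X2, ∀ j ∈ X2, 2 * |a i - a j| ≤ x → y i = y j := fun i hi j hj => 
        hy i (Finset.mem_filter.1 hi).1 j (Finset.mem_filter.1 hj).1
      -- one part vanishes
      have hor : G1 = 0 ∨ G2 = 0 := by
        by_contra hcon
        rw [not_or] at hcon
        obtain ⟨j1, hj1⟩ := ne_zero_coeff hcon.1
        obtain ⟨j2, hj2⟩ := ne_zero_coeff hcon.2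
        have a1 := s1 j1 hj1
        have a2 := s2 j2 hj2
        have b1 : (G1 + G2).coeff j1 ≠ 0 := by
          rw [coeff_add']
          have : G2.coeff j1 = 0 := by
            by_contra h
            have := s2 j1 h
            linarith
          rw [this, add_zero]
          exact hj1
        have b2 : (G1 + G2).coeff j2 ≠ 0 := by
          rw [coeff_add']
          have : G1.coeff j2 = 0 := by
            by_contra h
            have := s1 j2 h
            linarith
          rw [this, zero_add]
          exact hj2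
        rw [hsum] at hS
        have c1 := hS j1 b1
        have c2 := hS j2 b2
        linarith [c1.2, c2.1]
      rcases hor with h0 | h0
      · have q1 := hψ X1 (by rw [← hG1]; exact h0)
        have q2 : ∑ i ∈ X2, ψ i = 0 := by
          have := hsumc ψ
          rw [hX0, q1, zero_add] at this
          exact this.symm
        have i1 := ih X1 hc1 0 (by rw [← hG1, h0]; exact SIn.zero) q1 hyy1
        have i2 := ih X2 hc2 lo (by
          rw [hsum, ← hG1, h0, zero_add] at hS; exact hS) q2 hyy2
        rw [hsumc, i1, i2, add_zero]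
      · have q2 := hψ X2 (by rw [← hG2]; exact h0)
        have q1 : ∑ i ∈ X1, ψ i = 0 := by
          have := hsumc ψ
          rw [hX0, q2, add_zero] at this
          exact this.symm
        have i1 := ih X1 hc1 lo (by
          rw [hsum, ← hG2, h0, add_zero] at hS; exact hS) q1 hyy1
        have i2 := ih X2 hc2 0 (by rw [← hG2, h0]; exact SIn.zero) q2 hyy2
        rw [hsumc, i1, i2, add_zero]

end Run7.h509
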