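import Pool.Agent.H891R2.DS.Defs
import Pool.Agent.H891R2.MT.T7

/-!
# Definitions: twist-reduced diagrams, series-parallel graphs
-/

set_option autoImplicit false

namespace Run7.h509

open Finset Pool.Agent.H891R2.MT Pool.Agent.H891R2.DS

variable {k : ℕ}

/-- the four marked points around a crossing in the opposite cyclic order, with over-strand and
under-strand exchanged: the crossing seen from the other side of the plane -/
def turn {P : Type} (x : P × P × P × P) : P × P × P × P := (x.2.1, x.1, x.2.2.2, x.2.2.1)

/-- the marked point at the right side of the dart `d`, looking away from its vertex, if the twist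
regions at the edges in `S` run across the edge -/
def rgt (S : Finset (Fin k)) (w : Fin k → ℤ) (d : Fin k × Bool) : Ribbon.Pt w :=
  if d.1 ∈ S then Ribbon.right w (Pool.Agent.H891R2.MT.flip d) else Ribbon.right w d

/-- The link diagram with a twist region of `|w e|` crossings (of the kind given by the sign of `w e`) at
every edge `e` of the plane graph `Γ`.  For `e ∉ S` the crossings form a row along the edge `e`, as in
`Γ.link w`: the marked points `(j, true)`, `(j, false)` of the level `j` are at the left and at the right
side of the edge, seen from its dart `(e, false)`, and the level `j` runs from `0` at the dart `(e, false)`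
to `|w e|` at the dart `(e, true)`.  For `e ∈ S` the crossings form a row across the edge `e`: the level
`0` is at the left side of the edge and the level `|w e|` at its right side, the points `(j, true)` are
at the side of the dart `(e, false)` and the points `(j, false)` at the side of the dart `(e, true)`. -/
def twistLink (Γ : Ribbon k) (S : Finset (Fin k)) (w : Fin k → ℤ) : UDiagram (Ribbon.Pt w) where
  arcs := (List.finRange k).flatMap (fun e => 
    [(Ribbon.left w (e, false), rgt S w (Γ.rot (e, false))), 
      (Ribbon.left w (e, true), rgt S w (Γ.rot (e, true)))])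
  crossings := (List.finRange k).flatMap (fun e => (List.finRange (w e).natAbs).map (fun j => 
    if e ∈ S then turn (Ribbon.twistCrossing w e j) else Ribbon.twistCrossing w e j))

/-- The twist regions in `Y` are reduced: no edge in `Y ∩ S` is a loop of `Γ`, no two edges in `Y ∩ S`
are parallel, no edge in `Y \ S` is a bridge of `Γ`, no two edges in `Y \ S` form an edge cut. -/
def TwistReduced (Γ : Ribbon k) (S Y : Finset (Fin k)) : Prop :=
  (∀ e ∈ Y, e ∈ S → Γ.comps {e} + 1 = Γ.verts) ∧ 
  (∀ e ∈ Y, e ∉ S → Γ.comps {e}ᶜ = 1) ∧ 
  (∀ e ∈ Y, ∀ f ∈ Y, e ≠ f → e ∈ S → f ∈ S → Γ.comps {e, f} + 2 = Γ.verts) ∧ 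
  (∀ e ∈ Y, ∀ f ∈ Y, e ≠ f → e ∉ S → f ∉ S → Γ.comps {e, f}ᶜ = 1)

/-- `Y ∩ S` spans the subgraph `S` of `Γ`, and the edges outside `S ∪ Y` form a forest in the graph
obtained from `Γ` by contracting the edges in `S`. (For `Y = univ` this always holds.) -/
def Spans (Γ : Ribbon k) (S Y : Finset (Fin k)) : Prop :=
  Γ.comps (Y ∩ S) = Γ.comps S ∧ Γ.comps (S ∪ Yᶜ) + (Sᶜ \ Y).card = Γ.comps S

/-- the rank function of the cycle matroid of the graph `Γ` -/
noncomputable def gr (Γ : Ribbon k) (A : Finset (Fin k)) : ℕ := Γ.verts - Γ.comps A

/-- Let `r` be the rank function of a matroid. `SP r Y C`: the minor with the elements `Y`, in which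
the elements of `C` are contracted and all others are deleted, is series-parallel: it can be reduced
to the empty matroid by deleting loops, contracting coloops, deleting one of two parallel elements and
contracting one of two elements in series. -/
inductive SP {α : Type} [DecidableEq α] (r : Finset α → ℕ) : Finset α → Finset α → Prop
  | nil (C : Finset α) : SP r ∅ C
  | loop {Y C : Finset α} {e : α} : e ∉ Y → r (insert e C) = r C → SP r Y C → SP r (insert e Y) C
  | coloop {Y C : Finset α} {e : α} : e ∉ Y → r (insert e (Y ∪ C)) = r (Y ∪ C) + 1 → 
      SP r Y (insert e C) → SP r (insert e Y) C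
  | par {Y C : Finset α} {e f : α} : e ∉ insert f Y → f ∉ Y → r (insert e C) = r C + 1 → 
      r (insert f C) = r C + 1 → r (insert f (insert e C)) = r C + 1 → SP r (insert e Y) C → 
      SP r (insert e (insert f Y)) C
  | ser {Y C : Finset α} {e f : α} : e ∉ insert f Y → f ∉ Y → r (insert e (Y ∪ C)) = r (Y ∪ C) + 1 → 
      r (insert f (Y ∪ C)) = r (Y ∪ C) + 1 → r (insert f (insert e (Y ∪ C))) = r (Y ∪ C) + 1 → 
      SP r (insert e Y) (insert f C) → SP r (insert e (insert f Y)) C

end Run7.h509
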