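import Pool.Agent.Run7.h509.Rank

/-!
# The key identity
-/

set_option autoImplicit false

namespace Run7.h509

open Finset LaurentPolynomial Pool.Agent.H891R2.Jones Pool.Agent.H891R2.MT Pool.Agent.H891R2.DS T4b
open Pool.Agent.H891R2.SI (Sites)
open Pool.Agent.Y463.CD hiding cluster

variable {k : ℕ}

theorem loops_state (Γ : Ribbon k) (X : Finset (Fin k)) 
    (s : Fin ((graphSites Γ).state X).std.crossings.length → Bool) : 
    ((graphSites Γ).state X).std.loops s = Γ.curves X := by
  have hfin : Finite (graphSites Γ).P := inferInstance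
  unfold Diagram.loops Ribbon.curves
  apply T2.card_quot_congr
  · intro p q h
    rcases h with h | ⟨i, _⟩
    · change (p, q) ∈ (graphSites Γ).arcs ++ _ at h
      rw [List.mem_append] at h
      rcases h with h | h
      · obtain ⟨e, _, he⟩ := List.mem_flatMap.1 h
        simp only [List.mem_cons, List.not_mem_nil, or_false, Prod.mk.injEq] at he
        rcases he with ⟨rfl, rfl⟩ | ⟨rfl, rfl⟩
        · exact Quot.sound (Or.inl ⟨rfl, rfl⟩)
        · exact Quot.sound (Or.inl ⟨rfl, rfl⟩)
      · obtain ⟨e, _, he⟩ := List.mem_flatMap.1 h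
        by_cases heX : e ∈ X
        · rw [if_pos heX] at he
          simp only [List.mem_cons, List.not_mem_nil, or_false, Prod.mk.injEq] at he
          rcases he with ⟨rfl, rfl⟩ | ⟨rfl, rfl⟩
          · exact Quot.sound (Or.inr (Or.inl ⟨heX, rfl⟩))
          · exact Quot.sound (Or.inr (Or.inl ⟨heX, rfl⟩))
        · rw [if_neg heX] at he
          simp only [List.mem_cons, List.not_mem_nil, or_false, Prod.mk.injEq] at he
          rcases he with ⟨rfl, rfl⟩ | ⟨rfl, rfl⟩
          · exact Quot.sound (Or.inr (Or.inr ⟨heX, rfl⟩))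
          · exact (Quot.sound (Or.inr (Or.inr ⟨heX, rfl⟩)))
    · exact absurd i.2 (by simp [UDiagram.std, Sites.state])
  · intro p q h
    have hmem : ∀ {p q}, (p, q) ∈ (graphSites Γ).arcs → 
        Quot.mk (((graphSites Γ).state X).std.Joined s) p = Quot.mk _ q := by
      intro p q h
      refine Quot.sound (Or.inl ?_)
      show _ ∈ (graphSites Γ).arcs ++ _
      exact List.mem_append_left _ h
    have hmem2 : ∀ {p q} (e : Fin k), (p, q) ∈ (if e ∈ X 
        then [((graphSites Γ).corner e false true, (graphSites Γ).corner e true true), 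
          ((graphSites Γ).corner e false false, (graphSites Γ).corner e true false)]
        else [((graphSites Γ).corner e false true, (graphSites Γ).corner e false false), 
          ((graphSites Γ).corner e true true, (graphSites Γ).corner e true false)]) → 
        Quot.mk (((graphSites Γ).state X).std.Joined s) p = Quot.mk _ q := by
      intro p q e h
      refine Quot.sound (Or.inl ?_)
      show _ ∈ (graphSites Γ).arcs ++ _
      exact List.mem_append_right _ (List.mem_flatMap.2 ⟨e, List.mem_finRange e, h⟩)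
    obtain ⟨⟨e, t⟩, l⟩ := p
    rcases h with ⟨h1, rfl⟩ | ⟨h1, rfl⟩ | ⟨h1, rfl⟩
    · simp only at h1
      subst h1
      apply hmem
      refine List.mem_flatMap.2 ⟨e, List.mem_finRange e, ?_⟩
      cases t
      · exact List.mem_cons_self ..
      · exact List.mem_cons_of_mem _ (List.mem_cons_self ..)
    · simp only at h1
      have a1 := hmem2 (p := ((e, false), true)) (q := ((e, true), false)) e (by
        rw [if_pos h1]; exact List.mem_cons_self ..)
      have a2 := hmem2 (p := ((e, false), false)) (q := ((e, true), true)) e (by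
        rw [if_pos h1]; exact List.mem_cons_of_mem _ (List.mem_cons_self ..))
      cases t <;> cases l
      · exact a2
      · exact a1
      · exact a1.symm
      · exact a2.symm
    · simp only at h1
      have a1 := hmem2 (p := ((e, false), true)) (q := ((e, false), false)) e (by
        rw [if_neg h1]; exact List.mem_cons_self ..)
      have a2 := hmem2 (p := ((e, true), false)) (q := ((e, true), true)) e (by
        rw [if_neg h1]; exact List.mem_cons_of_mem _ (List.mem_cons_self ..))
      cases t <;> cases l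
      · exact a1.symm
      · exact a1
      · exact a2
      · exact a2.symm

theorem bracket_state (Γ : Ribbon k) (X : Finset (Fin k)) : 
    ((graphSites Γ).state X).std.bracket = (-T 2 - T (-2)) ^ (Γ.curves X - 1) := by
  have h0 : ((graphSites Γ).state X).std.crossings.length = 0 := rfl
  unfold Diagram.bracket
  have : Unique (Fin ((graphSites Γ).state X).std.crossings.length → Bool) := by
    rw [h0]; infer_instance
  rw [Fintype.sum_unique, loops_state]
  have hw : ∀ s : Fin ((graphSites Γ).state X).std.crossings.length → Bool, Diagram.weight s = 0 := by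
    intro s
    unfold Diagram.weight
    apply Finset.sum_eq_zero
    intro i _
    exfalso
    have h5 := i.2
    omega
  rw [hw, T_zero, one_mul]

/-- the reduced coefficient polynomials -/
noncomputable def Zq (Γ : Ribbon k) (S R : Finset (Fin k)) : ℤ[T;T⁻¹] :=
  ∑ X ∈ (Rᶜ).powerset, (-1) ^ (Rᶜ \ X).card * 
    (-T 2 - T (-2)) ^ (X.card + ((stateGraph Γ S).curves X - 1) - (Γ.curves S - 1))

theorem Zp_eq (Γ : Ribbon k) (hk : 0 < k) (hΓ : Γ.Planar) (S R : Finset (Fin k)) : 
    Pool.Agent.H891R2.SI.Zp (graphSites (stateGraph Γ S)) R = 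
      (-T 2 - T (-2)) ^ (Γ.curves S - 1) * Zq Γ S R := by
  unfold Pool.Agent.H891R2.SI.Zp Zq
  rw [Finset.mul_sum]
  refine Finset.sum_congr rfl fun X _ => ?_
  rw [bracket_state]
  have h1 := (expo hΓ S Xᶜ).1
  rw [compl_compl] at h1
  have h2 := curves_pos (stateGraph Γ S) hk X
  have h3 := curves_pos Γ hk S
  obtain ⟨m, hm⟩ : ∃ m, X.card + ((stateGraph Γ S).curves X - 1) = (Γ.curves S - 1) + m := 
    ⟨X.card + ((stateGraph Γ S).curves X - 1) - (Γ.curves S - 1), by omega⟩
  rw [mul_assoc, ← pow_add, hm, Nat.add_sub_cancel_left, pow_add]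
  ring

theorem ev8_Zq (Γ : Ribbon k) (hk : 0 < k) (hΓ : Γ.Planar) (S R : Finset (Fin k)) : 
    ev8 (Zq Γ S R) = ∑ X ∈ (Rᶜ).powerset, 
      if rk Γ S Xᶜ = rk Γ S Finset.univ then (-1 : ℂ) ^ (Rᶜ \ X).card else 0 := by
  unfold Zq
  rw [map_sum]
  refine Finset.sum_congr rfl fun X _ => ?_
  rw [map_mul, map_pow, map_pow, map_neg, map_one, ev8_d]
  have h1 := expo hΓ S Xᶜ
  rw [compl_compl] at h1
  have h2 := curves_pos (stateGraph Γ S) hk X
  have h3 := curves_pos Γ hk S
  split_ifs with h
  · rw [← h1.2] at h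
    have : X.card + ((stateGraph Γ S).curves X - 1) - (Γ.curves S - 1) = 0 := by omega
    rw [this, pow_zero, mul_one]
  · rw [← h1.2] at h
    have := h1.1
    rw [zero_pow, mul_zero]
    omega

/-- **the key identity** -/
theorem key (Γ : Ribbon k) (hk : 0 < k) (hΓ : Γ.Planar) (S : Finset (Fin k)) 
    (hr : 0 < rk Γ S Finset.univ) (s : ℕ) (w : Fin k → ℤ) (lo : ℤ) 
    (h : SIn ((stateGraph Γ S).link w).std.bracket lo (lo + 4 * s)) (u : Fin k → ℂ) 
    (hu : ∀ R R' : Finset (Fin k), 2 * |nS w R - nS w R'| ≤ 6 * k + 2 * s → 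
      ∏ e ∈ R, u e = ∏ e ∈ R', u e) : 
    Zs (rk Γ S) (rk Γ S Finset.univ) (fun e => u e - 1) Finset.univ ∅ = 0 := by
  classical
  set G := stateGraph Γ S with hG
  have hconn : (graphSites G).Connected := graph_connected G (by 
    rw [hG, D1.sg_comps_univ]; exact hΓ.1)
  rw [← bracket_graph G hk w] at h
  have hS3 := Pool.Agent.H891R2.SI.S3 (graphSites G) hk w
  have hlen : (graphSites G).crossings.length = 0 := rfl
  have hc1 := curves_pos Γ hk S
  have hc2 := curves_lt hΓ S hr
  -- the total sum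
  have hL := ((SIn_d.pow k).mul (SIn.T (- ∑ e, w e))).mul h
  rw [hS3] at hL
  have hd : ((-T 2 - T (-2)) ^ (Γ.curves S - 1) : ℤ[T;T⁻¹]) ≠ 0 := pow_ne_zero _ delta_ne
  -- the functional
  have hfac : ∀ X : Finset (Finset (Fin k)), 
      ∑ R ∈ X, zf (nS w R) * Pool.Agent.H891R2.SI.Zp (graphSites G) R = 
        (-T 2 - T (-2)) ^ (Γ.curves S - 1) * ∑ R ∈ X, zf (nS w R) * Zq Γ S R := by
    intro X
    rw [Finset.mul_sum]
    refine Finset.sum_congr rfl fun R _ => ?_
    rw [hG, Zp_eq Γ hk hΓ]
    ring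
  have hev : ∀ X : Finset (Finset (Fin k)), 
      ev8 (∑ R ∈ X, zf (nS w R) * Zq Γ S R) = ∑ R ∈ X, ev8 (Zq Γ S R) := by
    intro X
    rw [map_sum]
    refine Finset.sum_congr rfl fun R _ => ?_
    rw [map_mul, ev8_zf, one_mul]
  have hψ : ∀ X : Finset (Finset (Fin k)), 
      ∑ R ∈ X, zf (nS w R) * Pool.Agent.H891R2.SI.Zp (graphSites G) R = 0 → 
      ∑ R ∈ X, ev8 (Zq Γ S R) = 0 := by
    intro X hX
    rw [hfac] at hX
    rcases mul_eq_zero.1 hX with h1 | h1
    · exact absurd h1 hd
    · rw [← hev, h1, map_zero]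
  have htot : ∑ R : Finset (Fin k), ev8 (Zq Γ S R) = 0 := by
    have h1 : ((-T 2 - T (-2)) ^ (Γ.curves S - 1) : ℤ[T;T⁻¹]) * 
        ∑ R : Finset (Fin k), zf (nS w R) * Zq Γ S R = (-T 2 - T (-2)) ^ (Γ.curves S - 1) * 
        ((-T 2 - T (-2)) ^ (k - (Γ.curves S - 1)) * T (- ∑ e, w e) * 
          ((graphSites G).fill w).std.bracket) := by
      rw [← hfac]
      refine Eq.trans hS3.symm ?_
      have hpk : ((-T 2 - T (-2)) ^ k : ℤ[T;T⁻¹]) = 
          (-T 2 - T (-2)) ^ (Γ.curves S - 1) * (-T 2 - T (-2)) ^ (k - (Γ.curves S - 1)) := by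
        rw [← pow_add]
        congr 1
        omega
      rw [hpk]
      ring
    have h2 := mul_left_cancel₀ hd h1
    rw [← hev, h2, map_mul, map_mul, map_pow, ev8_d, zero_pow (by omega), zero_mul, zero_mul]
  have hclu := cluster (Pool.Agent.H891R2.SI.Zp (graphSites G)) (4 * k) (6 * k + 2 * s) (4 * k + 4 * s)
    (fun R => by
      have := Pool.Agent.H891R2.SI.S4 (graphSites G) hconn R
      rw [hlen] at this
      exact this.mono (by push_cast; linarith) (by push_cast; linarith)) (by positivity) (by positivity)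
    (by linarith) (fun R => nS w R) (fun R => ev8 (Zq Γ S R)) (fun R => ∏ e ∈ R, u e) hψ _ 
    (Finset.univ : Finset (Finset (Fin k))) le_rfl _ (hL.mono le_rfl (by linarith)) htot 
    (fun R _ R' _ hc => hu R R' hc)
  -- rearrange
  rw [← hclu]
  unfold Zs
  have hprod : ∀ Y : Finset (Fin k), ∏ e ∈ Y, (u e - 1) = 
      ∑ R ∈ Y.powerset, (∏ e ∈ R, u e) * (-1) ^ (Y \ R).card := by
    intro Y
    have : ∏ e ∈ Y, (u e - 1) = ∏ e ∈ Y, (u e + (-1)) := Finset.prod_congr rfl fun e _ => sub_eq_add_neg _ _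
    rw [this, Finset.prod_add]
    refine Finset.sum_congr rfl fun R _ => ?_
    rw [Finset.prod_const]
  have hR : ∀ R : Finset (Fin k), (∏ e ∈ R, u e) * ev8 (Zq Γ S R) = 
      ∑ Q : Finset (Fin k), if R ⊆ Q ∧ rk Γ S Q = rk Γ S Finset.univ then 
        (∏ e ∈ R, u e) * (-1) ^ (Q \ R).card else 0 := by
    intro R
    rw [ev8_Zq Γ hk hΓ, Finset.mul_sum]
    have h1 : (Rᶜ).powerset = Finset.univ.filter (fun X => X ⊆ Rᶜ) := by
      ext X; simp
    rw [h1, Finset.sum_filter]
    rw [← Equiv.sum_comp (compl_involutive.toPerm : Equiv.Perm (Finset (Fin k)))]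
    refine Finset.sum_congr rfl fun Q _ => ?_
    simp only [Function.Involutive.coe_toPerm, Finset.compl_subset_compl, compl_compl]
    have h2 : Rᶜ \ Qᶜ = Q \ R := by
      ext x
      simp only [Finset.mem_sdiff, Finset.mem_compl]
      tauto
    rw [h2]
    by_cases a : R ⊆ Q <;> by_cases b : rk Γ S Q = rk Γ S Finset.univ <;> simp [a, b]
  rw [Finset.sum_congr rfl fun R _ => hR R, Finset.sum_comm, Finset.powerset_univ]
  refine Finset.sum_congr rfl fun Q _ => ?_
  rw [Finset.union_empty]
  split_ifs with hQ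
  · rw [hprod]
    have h1 : Q.powerset = Finset.univ.filter (fun R => R ⊆ Q) := by
      ext X; simp
    rw [h1, Finset.sum_filter]
    refine Finset.sum_congr rfl fun R _ => ?_
    simp [hQ]
  · symm
    apply Finset.sum_eq_zero
    intro R _
    simp [hQ]

end Run7.h509
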