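import Pool.Agent.Run7.h509.Trans

/-!
# Highly twisted diagrams: the main theorems
-/

set_option autoImplicit false

namespace Run7.h509

open Finset LaurentPolynomial Module Pool.Agent.H891R2.Jones Pool.Agent.H891R2.MT Pool.Agent.H891R2.DS T4b
open Pool.Agent.H891R2.SI (Sites)
open Pool.Agent.Y463.CD hiding cluster

variable {k : ℕ}

theorem unlink_span {P : Type} [DecidableEq P] {c s : ℕ} (hc : c ≤ s + 1) (U : UDiagram P) 
    (h : UnlinkJones c U) : SpanLE s U := by
  obtain ⟨D, hD, hcl, hf⟩ := h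
  refine ⟨D, hD, hcl, -((c - 1 : ℕ) * 2), ?_⟩
  intro j hj
  rw [hf] at hj
  have h1 := SIn_d.pow (c - 1) j hj
  constructor
  · exact h1.1
  · have h2 : ((c - 1 : ℕ) : ℤ) ≤ s := by
      have : c - 1 ≤ s := by omega
      exact_mod_cast this
    linarith [h1.2]

/-- the bracket of the plane diagram is the one of the partial dual -/
theorem bracket_twist (Γ : Ribbon k) (hk : 0 < k) (S : Finset (Fin k)) (w : Fin k → ℤ) : 
    (twistLink Γ S w).std.bracket = ((stateGraph Γ S).link w).std.bracket := by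
  classical
  have n1 : Nonempty (Ribbon.Pt w) := ⟨⟨⟨0, hk⟩, 0, true⟩⟩
  have harcs : (twistLink Γ S w).std.arcs = ((stateGraph Γ S).link w).std.arcs := by
    show (twistLink Γ S w).arcs = ((stateGraph Γ S).link w).arcs
    have h1 : ∀ d, rgt S w (Γ.rot d) = Ribbon.right w ((stateGraph Γ S).rot d) := by
      intro d
      unfold rgt
      rw [D1.sg_rot_apply]
      split_ifs <;> rfl
    unfold twistLink Ribbon.link
    simp only [h1]
  apply T6.eq_of_ev
  intro N hN
  have hN0 : (N : ℂ) ≠ 0 := by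
    exact_mod_cast (by omega : N ≠ 0)
  apply mul_left_cancel₀ hN0
  rw [ev_bracket, ev_bracket]
  refine Finset.sum_congr rfl fun x _ => ?_
  unfold WW
  rw [harcs]
  congr 2
  have h0 : (twistLink Γ S w).std.crossings = ((List.finRange k).flatMap (fun e => 
      (List.finRange (w e).natAbs).map (fun j => 
        if e ∈ S then turn (Ribbon.twistCrossing w e j) else Ribbon.twistCrossing w e j))).map
        (fun x => (⟨x.1, x.2.1, x.2.2.1, x.2.2.2, true, true⟩ : Crossing (Ribbon.Pt w))) := rfl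
  have h1 : ((stateGraph Γ S).link w).std.crossings = ((List.finRange k).flatMap (fun e => 
      (List.finRange (w e).natAbs).map (Ribbon.twistCrossing w e))).map
        (fun x => (⟨x.1, x.2.1, x.2.2.1, x.2.2.2, true, true⟩ : Crossing (Ribbon.Pt w))) := rfl
  rw [h0, h1, List.map_flatMap, List.map_flatMap, List.map_flatMap, List.map_flatMap]
  congr 1
  funext e
  rw [List.map_map, List.map_map, List.map_map, List.map_map]
  apply List.map_congr_left
  intro j _
  simp only [Function.comp_apply]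
  split_ifs with he
  · have hturn : ∀ y : Ribbon.Pt w × Ribbon.Pt w × Ribbon.Pt w × Ribbon.Pt w, 
        crossW (Ar N) x ⟨(turn y).1, (turn y).2.1, (turn y).2.2.1, (turn y).2.2.2, true, true⟩ = 
        crossW (Ar N) x ⟨y.1, y.2.1, y.2.2.1, y.2.2.2, true, true⟩ := by
      rintro ⟨a, b, c, d⟩
      unfold crossW turn
      congr 2
      · apply ind_congr
        constructor
        · rintro ⟨h1, h2⟩; exact ⟨h1.symm, h2.symm⟩
        · rintro ⟨h1, h2⟩; exact ⟨h1.symm, h2.symm⟩
      · apply ind_congr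
        constructor
        · rintro ⟨h1, h2⟩; exact ⟨h2.symm, h1.symm⟩
        · rintro ⟨h1, h2⟩; exact ⟨h2.symm, h1.symm⟩
    exact hturn _
  · rfl

theorem bracket_small (Γ : Ribbon k) (hk : 0 < k) (S : Finset (Fin k)) (s : ℕ) (w : Fin k → ℤ) 
    (h : SpanLE s (twistLink Γ S w)) : 
    ∃ lo : ℤ, SIn ((stateGraph Γ S).link w).std.bracket lo (lo + 4 * s) := by
  have n1 : Nonempty (Ribbon.Pt w) := ⟨⟨⟨0, hk⟩, 0, true⟩⟩
  rw [← bracket_twist Γ hk S w]
  exact T7.bracket_span s _ h

theorem Zs_support {α K : Type} [DecidableEq α] [CommRing K] {r : Finset α → ℕ} {r0 : ℕ} (v : α → K) 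
    {U Y C : Finset α} (hYU : Y ⊆ U) (h : ∀ e, e ∉ Y → v e = 0) : 
    Zs r r0 v U C = Zs r r0 v Y C := by
  unfold Zs
  symm
  apply Finset.sum_subset (Finset.powerset_mono.2 hYU)
  intro Q _ hQ
  rw [Finset.mem_powerset] at hQ
  obtain ⟨e, he, heY⟩ := Finset.not_subset.1 hQ
  rw [Finset.prod_eq_zero he (h e heY), ite_self]

theorem Zs_ofReal {α : Type} [DecidableEq α] {r : Finset α → ℕ} {r0 : ℕ} (v : α → ℝ) (Y C : Finset α) : 
    ((Zs r r0 v Y C : ℝ) : ℂ) = Zs r r0 (fun e => (v e : ℂ)) Y C := by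
  unfold Zs
  rw [Complex.ofReal_sum]
  refine Finset.sum_congr rfl fun Q _ => ?_
  split_ifs
  · rw [Complex.ofReal_prod]
  · exact Complex.ofReal_zero

theorem rk_pos {Γ : Ribbon k} (h1 : Γ.comps Finset.univ = 1) {S Y : Finset (Fin k)} 
    (h : TwistReduced Γ S Y) (hY : Y.Nonempty) : 0 < rk Γ S Finset.univ := by
  obtain ⟨e, he⟩ := hY
  have h2 := rk_single h1 h he
  have h3 := (isRk_rk h1 S).mono (Finset.subset_univ {e})
  omega

/-- real weights -/
theorem real_main (Γ : Ribbon k) (hΓ : Γ.Planar) (S Y : Finset (Fin k)) (hY : Y.Nonempty) 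
    (hred : TwistReduced Γ S Y) (hsp : Spans Γ S Y) (s : ℕ) (w : Fin k → ℤ) 
    (h : SpanLE s (twistLink Γ S w)) (u : Fin k → ℝ) (hu1 : ∀ e ∈ Y, -1 ≤ u e ∧ u e < 1) 
    (hu2 : ∀ e, e ∉ Y → u e = 1) : 
    ∃ R R' : Finset (Fin k), 2 * |nS w R - nS w R'| ≤ 6 * k + 2 * s ∧ ∏ e ∈ R, u e ≠ ∏ e ∈ R', u e := by
  classical
  by_contra hcon
  push Not at hcon
  have hk : 0 < k := by
    obtain ⟨e, _⟩ := hY
    exact Fin.pos e
  obtain ⟨lo, hlo⟩ := bracket_small Γ hk S s w h
  have hkey := key Γ hk hΓ S (rk_pos hΓ.1 hred hY) s w lo hlo (fun e => (u e : ℂ)) (by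
    intro R R' hc
    have := hcon R R' hc
    rw [← Complex.ofReal_prod, ← Complex.ofReal_prod, this])
  have h2 : Zs (rk Γ S) (rk Γ S Finset.univ) (fun e => ((u e : ℂ)) - 1) Finset.univ ∅ = 
      ((Zs (rk Γ S) (rk Γ S Finset.univ) (fun e => u e - 1) Finset.univ ∅ : ℝ) : ℂ) := by
    rw [Zs_ofReal]
    push_cast
    rfl
  rw [h2, Complex.ofReal_eq_zero, Zs_support _ (Finset.subset_univ Y) (fun e he => by
    rw [hu2 e he, sub_self])] at hkey
  have hr := isRk_rk hΓ.1 S
  have h3 := strict (r0 := rk Γ S Finset.univ) hr Y.card Y ∅ (fun e => u e - 1) rfl ?_ ?_ ?_ ?_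
  · rw [hkey, mul_zero] at h3
    exact lt_irrefl _ h3
  · intro e he
    have := hu1 e he
    constructor <;> linarith
  · intro e he
    rw [rk_empty hΓ.1]
    exact rk_single hΓ.1 hred he
  · intro e he f hf hne
    rw [rk_empty hΓ.1]
    exact rk_pair hΓ.1 hred he hf hne
  · rw [Finset.union_empty]
    exact (spans_iff hΓ.1 S Y).1 hsp

/-- twist numbers near odd multiples -/
theorem odd_main (Γ : Ribbon k) (hΓ : Γ.Planar) (S Y : Finset (Fin k)) (hY : Y.Nonempty) 
    (hred : TwistReduced Γ S Y) (hsp : Spans Γ S Y) (s : ℕ) (w : Fin k → ℤ) (M : ℝ) (m : Fin k → ℤ)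
    (hm : ∀ e, Odd (m e) ↔ e ∈ Y) (hM : ∑ e, |(w e : ℝ) - M * m e| + 3 * k + s < M) : 
    ¬ SpanLE s (twistLink Γ S w) := by
  classical
  intro h
  obtain ⟨R, R', hc, hne⟩ := real_main Γ hΓ S Y hY hred hsp s w h (fun e => if e ∈ Y then -1 else 1) 
    (fun e he => by rw [if_pos he]; norm_num) (fun e he => by rw [if_neg he])
  apply hne
  have hM0 : 0 < M := by
    have h1 : 0 ≤ ∑ e, |(w e : ℝ) - M * m e| := Finset.sum_nonneg fun e _ => abs_nonneg _
    have h2 : (0 : ℝ) ≤ 3 * k + s := by positivity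
    linarith
  -- the values of `m` agree
  have hdiff : ∀ R : Finset (Fin k), (nS w R : ℝ) - M * (nS m R : ℤ) = ∑ e ∈ R, ((w e : ℝ) - M * m e) := by
    intro R
    unfold nS
    push_cast
    rw [Finset.mul_sum, ← Finset.sum_sub_distrib]
  have hbd : |(∑ e ∈ R, ((w e : ℝ) - M * m e)) - ∑ e ∈ R', ((w e : ℝ) - M * m e)| ≤ 
      ∑ e, |(w e : ℝ) - M * m e| := by
    have e1 : (∑ e ∈ R, ((w e : ℝ) - M * m e)) - ∑ e ∈ R', ((w e : ℝ) - M * m e) = 
        ∑ e, ((if e ∈ R then 1 else 0) - (if e ∈ R' then 1 else 0)) * ((w e : ℝ) - M * m e) := by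
      simp only [sub_mul, ite_mul, one_mul, zero_mul, Finset.sum_sub_distrib, Finset.sum_ite_mem, 
        Finset.univ_inter]
    rw [e1]
    refine (Finset.abs_sum_le_sum_abs _ _).trans (Finset.sum_le_sum fun e _ => ?_)
    rw [abs_mul]
    have : |((if e ∈ R then 1 else 0) - (if e ∈ R' then 1 else 0) : ℝ)| ≤ 1 := by
      by_cases h1 : e ∈ R <;> by_cases h2 : e ∈ R' <;> simp [h1, h2]
    nlinarith [abs_nonneg ((w e : ℝ) - M * m e)]
  have heq : nS m R = nS m R' := by
    by_contra hne'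
    have h1 : (1 : ℝ) ≤ |((nS m R - nS m R' : ℤ) : ℝ)| := by
      rw [← Int.cast_abs]
      exact_mod_cast Int.one_le_abs (sub_ne_zero.2 hne')
    have h2 : |(nS w R : ℝ) - nS w R'| ≤ 3 * k + s := by
      have h3 : (2 * |nS w R - nS w R'| : ℤ) ≤ 6 * k + 2 * s := hc
      have h4 : (2 * |(nS w R : ℝ) - nS w R'|) ≤ 6 * k + 2 * s := by exact_mod_cast h3
      linarith
    have h5 : M * ((nS m R - nS m R' : ℤ) : ℝ) = ((nS w R : ℝ) - nS w R') - 
        ((∑ e ∈ R, ((w e : ℝ) - M * m e)) - ∑ e ∈ R', ((w e : ℝ) - M * m e)) := by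
      rw [← hdiff, ← hdiff]
      push_cast
      ring
    have h6 : M ≤ |M * ((nS m R - nS m R' : ℤ) : ℝ)| := by
      rw [abs_mul, abs_of_pos hM0]
      nlinarith
    rw [h5] at h6
    have h7 := abs_sub ((nS w R : ℝ) - nS w R') 
      ((∑ e ∈ R, ((w e : ℝ) - M * m e)) - ∑ e ∈ R', ((w e : ℝ) - M * m e))
    linarith
  -- parities
  have hpar : ∀ R : Finset (Fin k), ∏ e ∈ R, (if e ∈ Y then (-1 : ℝ) else 1) = 
      if Even (nS m R) then 1 else -1 := by
    intro R
    induction R using Finset.induction_on with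
    | empty => simp [nS]
    | insert e R he ih =>
      have h1 : nS m (insert e R) = m e + nS m R := by
        unfold nS
        rw [Finset.sum_insert he]
      rw [Finset.prod_insert he, ih, h1]
      by_cases heY : e ∈ Y
      · have h2 : ¬ Even (m e) := Int.not_even_iff_odd.2 ((hm e).2 heY)
        rw [if_pos heY]
        by_cases h3 : Even (nS m R)
        · have h4 : ¬ Even (m e + nS m R) := by rw [Int.even_add]; tauto
          rw [if_pos h3, if_neg h4]; norm_num
        · have h4 : Even (m e + nS m R) := by rw [Int.even_add]; tauto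
          rw [if_neg h3, if_pos h4]; norm_num
      · have h2 : Even (m e) := by
          rw [← Int.not_odd_iff_even, hm e]
          exact heY
        rw [if_neg heY]
        by_cases h3 : Even (nS m R)
        · have h4 : Even (m e + nS m R) := by rw [Int.even_add]; tauto
          rw [if_pos h3, if_pos h4]; norm_num
        · have h4 : ¬ Even (m e + nS m R) := by rw [Int.even_add]; tauto
          rw [if_neg h3, if_neg h4]; norm_num
  rw [hpar, hpar, heq]

/-- twist numbers of about the same size -/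
theorem balanced_main (Γ : Ribbon k) (hΓ : Γ.Planar) (S Y : Finset (Fin k)) (hY : Y.Nonempty) 
    (hred : TwistReduced Γ S Y) (hsp : Spans Γ S Y) (s : ℕ) (w : Fin k → ℤ) (M D : ℕ) 
    (hM : k * (D + 3) + s < M) (h1 : ∀ e ∈ Y, (M : ℤ) ≤ |w e| ∧ |w e| ≤ M + D) 
    (h2 : ∀ e, e ∉ Y → |w e| ≤ D) : ¬ SpanLE s (twistLink Γ S w) := by
  classical
  refine odd_main Γ hΓ S Y hY hred hsp s w M (fun e => if e ∈ Y then (if 0 < w e then 1 else -1) else 0) 
    ?_ ?_
  · intro e
    by_cases he : e ∈ Y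
    · by_cases hw : 0 < w e
      · simp [he, hw]
      · simp [he, hw]
    · simp [he]
  · have hb : ∀ e, |(w e : ℝ) - M * ((if e ∈ Y then (if 0 < w e then 1 else -1) else 0 : ℤ) : ℝ)| ≤ D := by
      intro e
      by_cases he : e ∈ Y
      · obtain ⟨a1, a2⟩ := h1 e he
        by_cases hw : 0 < w e
        · rw [if_pos he, if_pos hw]
          rw [abs_of_pos hw] at a1 a2
          have b1 : (M : ℝ) ≤ w e := by exact_mod_cast a1
          have b2 : (w e : ℝ) ≤ M + D := by exact_mod_cast a2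
          push_cast
          rw [abs_le]
          constructor <;> linarith
        · rw [if_pos he, if_neg hw]
          rw [abs_of_nonpos (not_lt.1 hw)] at a1 a2
          have b1 : (M : ℝ) ≤ -(w e : ℝ) := by exact_mod_cast a1
          have b2 : -(w e : ℝ) ≤ M + D := by exact_mod_cast a2
          push_cast
          rw [abs_le]
          constructor <;> linarith
      · rw [if_neg he]
        have := h2 e he
        have b1 : |(w e : ℝ)| ≤ D := by exact_mod_cast this
        simpa using b1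
    have h3 : ∑ e, |(w e : ℝ) - M * ((if e ∈ Y then (if 0 < w e then 1 else -1) else 0 : ℤ) : ℝ)| ≤ 
        k * D := by
      refine (Finset.sum_le_sum fun e _ => hb e).trans ?_
      rw [Finset.sum_const, Finset.card_univ, Fintype.card_fin, nsmul_eq_mul]
    have h4 : ((k * (D + 3) + s : ℕ) : ℝ) < M := by exact_mod_cast hM
    push_cast at h4
    linarith

/-! ### series-parallel graphs -/

theorem exp_ne_one {y : ℚ} (hy : y ≠ 0) : Complex.exp (((y : ℝ) : ℂ) * Complex.I) ≠ 1 := by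
  intro h
  rw [Complex.exp_eq_one_iff] at h
  obtain ⟨n, hn⟩ := h
  have h1 : ((y : ℝ) : ℂ) = n * (2 * Real.pi) := by
    have h2 : ((y : ℝ) : ℂ) * Complex.I = (n * (2 * Real.pi)) * Complex.I := by
      rw [hn]; ring
    exact mul_right_cancel₀ Complex.I_ne_zero h2
  have h2 : (y : ℝ) = n * (2 * Real.pi) := by exact_mod_cast h1
  have hn0 : (n : ℝ) ≠ 0 := by
    intro h0
    rw [h0, zero_mul] at h2
    apply hy
    exact_mod_cast h2
  apply irrational_pi
  refine ⟨y / (2 * n), ?_⟩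
  push_cast
  rw [h2]
  field_simp

theorem sp_main (Γ : Ribbon k) (hk : 0 < k) (hΓ : Γ.Planar) (S : Finset (Fin k)) 
    (hred : TwistReduced Γ S Finset.univ) (hSP : SP (rk Γ S) Finset.univ ∅) (s : ℕ) (w : Fin k → ℤ) 
    (A : Finset (Fin k)) (hA : Spans Γ S A) 
    (hw : ∀ e ∈ A, (k * k.factorial * (3 * k + s) : ℤ) < |w e|) : 
    ¬ SpanLE s (twistLink Γ S w) := by
  classical
  intro h
  obtain ⟨lo, hlo⟩ := bracket_small Γ hk S s w h
  obtain ⟨y, hy, hy0⟩ := exists_dir (graphSites (stateGraph Γ S)) s w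
  have hlen : ((graphSites (stateGraph Γ S)).crossings.length : ℤ) = 0 := rfl
  have hne : ∀ e ∈ A, y e ≠ 0 := by
    intro e he
    apply hy0
    have h1 := hw e he
    rw [hlen]
    have h2 : (k * k.factorial * (3 * 0 + 6 * k + 2 * s) : ℤ) = 2 * (k * k.factorial * (3 * k + s)) := by
      ring
    rw [h2]
    linarith
  set u : Fin k → ℂ := fun e => Complex.exp (((y e : ℝ) : ℂ) * Complex.I) with hu
  have hkey := key Γ hk hΓ S (rk_pos hΓ.1 hred ⟨⟨0, hk⟩, Finset.mem_univ _⟩) s w lo hlo u (by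
    intro R R' hc
    have h1 : Close (graphSites (stateGraph Γ S)) s w R R' := by
      unfold Close
      rw [hlen]
      linarith
    have h2 := hy (rv R R') ⟨R, R', h1, rfl⟩
    have h3 : ∑ e ∈ R, y e = ∑ e ∈ R', y e := by
      unfold rv at h2
      simp only [sub_mul, ite_mul, one_mul, zero_mul, Finset.sum_sub_distrib, Finset.sum_ite_mem, 
        Finset.univ_inter] at h2
      linarith
    have h4 : ∀ R : Finset (Fin k), ∏ e ∈ R, u e = 
        Complex.exp ((((∑ e ∈ R, y e : ℚ) : ℝ) : ℂ) * Complex.I) := by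
      intro R
      rw [hu, ← Complex.exp_sum]
      congr 1
      push_cast
      rw [Finset.sum_mul]
    rw [h4, h4, h3])
  have hn : ∀ e, ‖u e‖ = 1 := fun e => Complex.norm_exp_ofReal_mul_I _
  refine sp_ne (r0 := rk Γ S Finset.univ) (isRk_rk hΓ.1 S) hSP (fun e => u e - 1) ?_ ?_ ?_ A 
    (Finset.subset_univ _) ?_ ?_ ?_ hkey
  · intro e _ _
    rw [add_sub_cancel, hn]
  · intro e _ _
    rw [add_sub_cancel]
    exact Complex.exp_ne_zero _
  · intro e he f hf hef _ _ _ _ h3
    exfalso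
    have h4 := rk_pair hΓ.1 hred he hf hef
    rw [rk_empty hΓ.1] at h3
    change rk Γ S {f, e} = 0 + 1 at h3
    omega
  · intro e he
    rw [sub_ne_zero]
    exact exp_ne_one (hne e he)
  · rw [Finset.union_empty]
    exact (spans_iff hΓ.1 S A).1 hA
  · rw [Finset.union_empty]

end Run7.h509
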