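import Pool.Agent.Run7.h509.Clu

/-!
# The rank function which belongs to a plane graph with two kinds of edges
-/

set_option autoImplicit false

namespace Run7.h509

open Finset Pool.Agent.H891R2.MT Pool.Agent.H891R2.DS

/-! ### general rank functions -/

section general

variable {α : Type} [DecidableEq α] {r : Finset α → ℕ}

theorem IsRk.union_eq (hr : IsRk r) {A B : Finset α} (h : A ⊆ B) (he : r A = r B) (D : Finset α) : 
    r (A ∪ D) = r (B ∪ D) := by
  have h1 : ∀ e ∈ B, r (insert e A) = r A := by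
    intro e heB
    have h2 := hr.mono (Finset.insert_subset heB h)
    have h3 := hr.mono (Finset.subset_insert e A)
    omega
  have key : ∀ E : Finset α, E ⊆ B → r (E ∪ (A ∪ D)) = r (A ∪ D) := by
    intro E
    induction E using Finset.induction_on with
    | empty => intro _; rw [Finset.empty_union]
    | insert e E _ ih =>
      intro hE
      rw [Finset.insert_union, hr.loc A _ e _ (h1 e (hE (Finset.mem_insert_self _ _))), 
        ih ((Finset.subset_insert _ _).trans hE)]
      exact Finset.subset_union_left.trans Finset.subset_union_right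
  have h2 := key B (Finset.Subset.refl _)
  rw [← h2, ← Finset.union_assoc, Finset.union_eq_left.2 h]

theorem IsRk.le_add (hr : IsRk r) (A D : Finset α) : r (D ∪ A) ≤ r A + D.card := by
  induction D using Finset.induction_on with
  | empty => rw [Finset.empty_union, Finset.card_empty, add_zero]
  | insert e D he ih =>
    rw [Finset.insert_union, Finset.card_insert_of_notMem he]
    rcases hr.step (D ∪ A) e with h | h <;> omega

end general

variable {k : ℕ} (Γ : Ribbon k)

theorem comps_step (A : Finset (Fin k)) (e : Fin k) : 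
    Γ.comps (insert e A) = Γ.comps A ∨ Γ.comps (insert e A) + 1 = Γ.comps A := by
  rcases T3a.comps_insert Γ A e with ⟨_, h⟩ | ⟨_, h⟩
  · exact Or.inl h
  · exact Or.inr h.symm

theorem comps_loc (A B : Finset (Fin k)) (e : Fin k) (h : A ⊆ B) 
    (h1 : Γ.comps (insert e A) = Γ.comps A) : Γ.comps (insert e B) = Γ.comps B := by
  rcases T3a.comps_insert Γ A e with ⟨h2, _⟩ | ⟨_, h2⟩
  · rcases T3a.comps_insert Γ B e with ⟨_, h3⟩ | ⟨h3, _⟩
    · exact h3
    · exfalso
      apply h3
      have := congrArg (Quot.lift (Quot.mk (T3a.rel Γ B))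
        (fun x y h' => Quot.sound (T3a.rel_mono Γ h x y h')) : Quot (T3a.rel Γ A) → Quot (T3a.rel Γ B)) h2
      exact this
  · omega

theorem gr_add (A : Finset (Fin k)) : gr Γ A + Γ.comps A = Γ.verts := by
  have := comps_le_verts Γ A
  unfold gr
  omega

theorem isRk_gr : IsRk (gr Γ) where
  step A e := by
    have h1 := gr_add Γ A
    have h2 := gr_add Γ (insert e A)
    rcases comps_step Γ A e with h | h <;> omega
  loc A B e hAB h := by
    have h1 := gr_add Γ A
    have h2 := gr_add Γ (insert e A)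
    have h3 := gr_add Γ B
    have h4 := gr_add Γ (insert e B)
    have := comps_loc Γ A B e hAB (by omega)
    omega

theorem comps_anti {A B : Finset (Fin k)} (h : A ⊆ B) : Γ.comps B ≤ Γ.comps A := by
  have h1 := (isRk_gr Γ).mono h
  have h2 := gr_add Γ A
  have h3 := gr_add Γ B
  omega

theorem comps_union_le (A D : Finset (Fin k)) : Γ.comps A ≤ Γ.comps (D ∪ A) + D.card := by
  have h1 := (isRk_gr Γ).le_add A D
  have h2 := gr_add Γ A
  have h3 := gr_add Γ (D ∪ A)
  omega

theorem comps_union_eq {A B : Finset (Fin k)} (h : A ⊆ B) (he : Γ.comps A = Γ.comps B) (D : Finset (Fin k)) : 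
    Γ.comps (A ∪ D) = Γ.comps (B ∪ D) := by
  have h2 := gr_add Γ A
  have h3 := gr_add Γ B
  have h4 := gr_add Γ (A ∪ D)
  have h5 := gr_add Γ (B ∪ D)
  have h1 := (isRk_gr Γ).union_eq h (by omega) D
  omega

/-- The rank function of the direct sum of the cycle matroid of the subgraph `S` of `Γ` and of the
dual of the cycle matroid of the graph obtained from `Γ` by contracting the edges in `S`. -/
noncomputable def rk (Γ : Ribbon k) (S Q : Finset (Fin k)) : ℕ :=
  (Γ.verts - Γ.comps (Q ∩ S)) + ((Q \ S).card + 1 - Γ.comps (S ∪ Qᶜ))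

variable {Γ}

theorem comps_le_sdiff (h1 : Γ.comps Finset.univ = 1) (S Q : Finset (Fin k)) : 
    Γ.comps (S ∪ Qᶜ) ≤ (Q \ S).card + 1 := by
  have h := comps_union_le Γ (S ∪ Qᶜ) (Q \ S)
  have h2 : (Q \ S) ∪ (S ∪ Qᶜ) = Finset.univ := by
    ext e
    simp only [Finset.mem_union, Finset.mem_sdiff, Finset.mem_compl, Finset.mem_univ, iff_true]
    tauto
  rw [h2, h1] at h
  omega

theorem rk_add (h1 : Γ.comps Finset.univ = 1) (S Q : Finset (Fin k)) : 
    rk Γ S Q + Γ.comps (Q ∩ S) + Γ.comps (S ∪ Qᶜ) = Γ.verts + ((Q \ S).card + 1) := by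
  have h2 := comps_le_verts Γ (Q ∩ S)
  have h3 := comps_le_sdiff h1 S Q
  unfold rk
  omega

theorem ins_mem {S A : Finset (Fin k)} {e : Fin k} (he : e ∈ S) : 
    (insert e A) ∩ S = insert e (A ∩ S) ∧ (insert e A) \ S = A \ S ∧ S ∪ (insert e A)ᶜ = S ∪ Aᶜ := by
  refine ⟨Finset.insert_inter_of_mem he, Finset.insert_sdiff_of_mem _ he, ?_⟩
  ext x
  simp only [Finset.mem_union, Finset.mem_compl, Finset.mem_insert]
  by_cases hx : x = e
  · subst hx
    simp [he]
  · simp [hx]

theorem ins_not {S A : Finset (Fin k)} {e : Fin k} (he : e ∉ S) (heA : e ∉ A) : 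
    (insert e A) ∩ S = A ∩ S ∧ ((insert e A) \ S).card = (A \ S).card + 1 ∧ 
      S ∪ (insert e A)ᶜ = (S ∪ Aᶜ).erase e ∧ insert e ((S ∪ Aᶜ).erase e) = S ∪ Aᶜ := by
  refine ⟨Finset.insert_inter_of_notMem he, ?_, ?_, ?_⟩
  · rw [Finset.insert_sdiff_of_notMem _ he, Finset.card_insert_of_notMem]
    simp [heA]
  · ext x
    simp only [Finset.mem_union, Finset.mem_compl, Finset.mem_insert, Finset.mem_erase]
    by_cases hx : x = e
    · subst hx
      simp [he]
    · simp [hx]
  · exact Finset.insert_erase (by simp [heA])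

theorem isRk_rk (h1 : Γ.comps Finset.univ = 1) (S : Finset (Fin k)) : IsRk (rk Γ S) where
  step A e := by
    have a1 := rk_add h1 S A
    have a2 := rk_add h1 S (insert e A)
    by_cases he : e ∈ S
    · obtain ⟨b1, b2, b3⟩ := ins_mem (A := A) he
      rw [b1, b2, b3] at a2
      rcases comps_step Γ (A ∩ S) e with h | h <;> omega
    · by_cases heA : e ∈ A
      · left; rw [Finset.insert_eq_self.2 heA]
      · obtain ⟨b1, b2, b3, b4⟩ := ins_not he heA
        rw [b1, b2, b3] at a2
        have h := comps_step Γ ((S ∪ Aᶜ).erase e) e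
        rw [b4] at h
        rcases h with h | h <;> omega
  loc A B e hAB h := by
    by_cases heB : e ∈ B
    · rw [Finset.insert_eq_self.2 heB]
    · have heA : e ∉ A := fun h => heB (hAB h)
      have a1 := rk_add h1 S A
      have a2 := rk_add h1 S (insert e A)
      have a3 := rk_add h1 S B
      have a4 := rk_add h1 S (insert e B)
      by_cases he : e ∈ S
      · obtain ⟨b1, b2, b3⟩ := ins_mem (A := A) he
        obtain ⟨c1, c2, c3⟩ := ins_mem (A := B) he
        rw [b1, b2, b3] at a2
        rw [c1, c2, c3] at a4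
        have := comps_loc Γ (A ∩ S) (B ∩ S) e (Finset.inter_subset_inter_right hAB) (by omega)
        omega
      · obtain ⟨b1, b2, b3, b4⟩ := ins_not he heA
        obtain ⟨c1, c2, c3, c4⟩ := ins_not he heB
        rw [b1, b2, b3] at a2
        rw [c1, c2, c3] at a4
        have g1 := comps_step Γ ((S ∪ Aᶜ).erase e) e
        have g2 := comps_step Γ ((S ∪ Bᶜ).erase e) e
        rw [b4] at g1
        rw [c4] at g2
        rcases g2 with g2 | g2
        · exfalso
          have := comps_loc Γ ((S ∪ Bᶜ).erase e) ((S ∪ Aᶜ).erase e) e 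
            (Finset.erase_subset_erase _ (Finset.union_subset_union_right (Finset.compl_subset_compl.2 hAB))) 
            (by rw [c4]; exact g2)
          rw [b4] at this
          omega
        · omega

theorem symm_compl (S Q : Finset (Fin k)) : symmDiff S Qᶜ = (Q ∩ S) ∪ (Sᶜ \ Q) := by
  ext x
  simp only [Finset.mem_symmDiff, Finset.mem_compl, Finset.mem_union, Finset.mem_inter, Finset.mem_sdiff]
  tauto

/-- the exponent of a state -/
theorem expo (hΓ : Γ.Planar) (S Q : Finset (Fin k)) : 
    Γ.curves S ≤ (Qᶜ).card + (stateGraph Γ S).curves Qᶜ ∧ 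
    (Γ.curves S = (Qᶜ).card + (stateGraph Γ S).curves Qᶜ ↔ rk Γ S Q = rk Γ S Finset.univ) := by
  have c1 := T2.curves_eq Γ hΓ S
  have c2 := T2.curves_eq Γ hΓ ((Q ∩ S) ∪ (Sᶜ \ Q))
  rw [D1.sg_curves, symm_compl]
  have e1 : ((Q ∩ S) ∪ (Sᶜ \ Q)).card = (Q ∩ S).card + (Sᶜ \ Q).card := by
    apply Finset.card_union_of_disjoint
    rw [Finset.disjoint_left]
    intro x hx hx'
    simp only [Finset.mem_inter, Finset.mem_sdiff, Finset.mem_compl] at hx hx'
    exact hx'.1 hx.2
  have e2 : (Qᶜ).card = (S \ Q).card + (Sᶜ \ Q).card := by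
    rw [← Finset.card_union_of_disjoint]
    · congr 1
      ext x
      simp only [Finset.mem_union, Finset.mem_compl, Finset.mem_sdiff]
      tauto
    · rw [Finset.disjoint_left]
      intro x hx hx'
      simp only [Finset.mem_sdiff, Finset.mem_compl] at hx hx'
      exact hx'.1 hx.1
  have e3 : S.card = (S \ Q).card + (Q ∩ S).card := by
    rw [← Finset.card_union_of_disjoint]
    · congr 1
      ext x
      simp only [Finset.mem_union, Finset.mem_inter, Finset.mem_sdiff]
      tauto
    · rw [Finset.disjoint_left]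
      intro x hx hx'
      simp only [Finset.mem_sdiff, Finset.mem_inter] at hx hx'
      exact hx.2 hx'.1
  have e4 : (Sᶜ).card = (Q \ S).card + (Sᶜ \ Q).card := by
    rw [← Finset.card_union_of_disjoint]
    · congr 1
      ext x
      simp only [Finset.mem_union, Finset.mem_compl, Finset.mem_sdiff]
      tauto
    · rw [Finset.disjoint_left]
      intro x hx hx'
      simp only [Finset.mem_sdiff] at hx hx'
      exact hx'.2 hx.1
  -- comparison of the numbers of components
  have f1 : Γ.comps S ≤ Γ.comps (Q ∩ S) := comps_anti Γ Finset.inter_subset_right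
  have f2 : Γ.comps (S ∪ Qᶜ) ≤ Γ.comps S := comps_anti Γ Finset.subset_union_left
  have f3 : Γ.comps S ≤ Γ.comps (S ∪ Qᶜ) + (Sᶜ \ Q).card := by
    have h := comps_union_le Γ S (Sᶜ \ Q)
    have h2 : (Sᶜ \ Q) ∪ S = S ∪ Qᶜ := by
      ext x
      simp only [Finset.mem_union, Finset.mem_compl, Finset.mem_sdiff]
      tauto
    rwa [h2] at h
  have f4 : Γ.comps (S ∪ Qᶜ) ≤ Γ.comps ((Q ∩ S) ∪ (Sᶜ \ Q)) := by
    apply comps_anti
    intro x
    simp only [Finset.mem_union, Finset.mem_compl, Finset.mem_sdiff, Finset.mem_inter]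
    tauto
  have f5 : Γ.comps (Q ∩ S) ≤ Γ.comps ((Q ∩ S) ∪ (Sᶜ \ Q)) + (Sᶜ \ Q).card := by
    have h := comps_union_le Γ (Q ∩ S) (Sᶜ \ Q)
    rwa [Finset.union_comm] at h
  have f6 : Γ.comps (Q ∩ S) = Γ.comps S → Γ.comps ((Q ∩ S) ∪ (Sᶜ \ Q)) = Γ.comps (S ∪ Qᶜ) := by
    intro h
    have h2 := comps_union_eq Γ (Finset.inter_subset_right : Q ∩ S ⊆ S) h (Sᶜ \ Q)
    rw [h2]
    congr 1
    ext x
    simp only [Finset.mem_union, Finset.mem_compl, Finset.mem_sdiff]
    tauto
  have a1 := rk_add hΓ.1 S Q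
  have a2 := rk_add hΓ.1 S Finset.univ
  rw [Finset.univ_inter, Finset.compl_univ, Finset.union_empty, ← Finset.compl_eq_univ_sdiff] at a2
  rw [e1] at c2
  push_cast at c2
  constructor
  · zify
    rw [c1, c2, e2, e3]
    push_cast
    linarith
  · constructor
    · intro h
      zify at h
      rw [c1, c2, e2, e3] at h
      push_cast at h
      have h' : Γ.comps S = Γ.comps ((Q ∩ S) ∪ (Sᶜ \ Q)) + (Sᶜ \ Q).card := by
        zify; linarith
      omega
    · intro h
      have h3 : Γ.comps (Q ∩ S) = Γ.comps S := by omega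
      have h4 := f6 h3
      have h' : Γ.comps S = Γ.comps ((Q ∩ S) ∪ (Sᶜ \ Q)) + (Sᶜ \ Q).card := by omega
      zify
      rw [c1, c2, e2, e3]
      push_cast
      zify at h'
      linarith

theorem curves_pos (Γ : Ribbon k) (hk : 0 < k) (X : Finset (Fin k)) : 0 < Γ.curves X := by
  unfold Ribbon.curves
  have : Nonempty (Quot (Γ.Cor X)) := ⟨Quot.mk _ ((⟨0, hk⟩, true), true)⟩
  have : Finite (Quot (Γ.Cor X)) := Quot.finite _
  exact Nat.card_pos

theorem curves_lt (hΓ : Γ.Planar) (S : Finset (Fin k)) (h : 0 < rk Γ S Finset.univ) : Γ.curves S < k + 1 := by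
  have c1 := T2.curves_eq Γ hΓ S
  have a2 := rk_add hΓ.1 S Finset.univ
  rw [Finset.univ_inter, Finset.compl_univ, Finset.union_empty, ← Finset.compl_eq_univ_sdiff, 
    Finset.card_compl, Fintype.card_fin] at a2
  have h1 := Finset.card_le_univ S
  rw [Fintype.card_fin] at h1
  zify at a2 h ⊢
  rw [Nat.cast_sub h1] at a2
  rw [c1]
  linarith

end Run7.h509
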