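import Pool.Agent.Run7.h509.Main
import Pool.Agent.Run7.h509.Minor

/-!
# Roots of unity: deleting the twist regions near the multiples of a number
-/

set_option autoImplicit false

namespace Run7.h509

open Finset LaurentPolynomial Module Pool.Agent.H891R2.Jones Pool.Agent.H891R2.MT Pool.Agent.H891R2.DS T4b
open Pool.Agent.H891R2.SI (Sites)
open Pool.Agent.Y463.CD hiding cluster

variable {k : ℕ}

/-- An approximate solution of a system of linear equations with small integral coefficients is close to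
a solution. -/
theorem siegel_gen (n : ℕ) (Rel : Set (Fin n → ℚ)) (w : Fin n → ℤ) (c X : ℤ) (hc : 1 ≤ c) (hX : 0 ≤ X) 
    (hRel : ∀ ρ ∈ Rel, ∃ g : Fin n → ℤ, (fun e => (g e : ℚ)) = ρ ∧ (∀ e, |g e| ≤ c) ∧ 
      |∑ e, g e * w e| ≤ X) : 
    ∃ y ∈ orth Rel, ∀ e, |(w e : ℚ) - y e| ≤ n * (n.factorial * c ^ n) * X := by
  classical
  obtain ⟨F, hFc, hsurj, hinj⟩ := exists_coord (orth Rel)
  obtain ⟨y, hy, hyw⟩ := hsurj (fun e => (w e : ℚ))
  refine ⟨y, hy, fun e0 => ?_⟩
  set Rel' : Set (Fin n → ℚ) := Rel ∪ {ρ | ∃ j ∈ F, ρ = Pi.single j 1} with hRel'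
  have horth : orth Rel' = ⊥ := by
    rw [Submodule.eq_bot_iff]
    intro z hz
    apply hinj z
    · exact fun ρ hρ => hz ρ (Or.inl hρ)
    · intro j hj
      have := hz (Pi.single j 1) (Or.inr ⟨j, hj, rfl⟩)
      rw [Finset.sum_eq_single j] at this
      · simpa using this
      · intro b _ hb
        rw [Pi.single_eq_of_ne hb, zero_mul]
      · intro h
        exact absurd (Finset.mem_univ _) h
  obtain ⟨f, hf, hfm⟩ := exists_indep Rel' n (by rw [horth, finrank_bot]; omega)
  have hch : ∀ i, ∃ g : Fin n → ℤ, (fun e => (g e : ℚ)) = f i ∧ (∀ e, |g e| ≤ c) ∧ 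
      |∑ e, (g e : ℚ) * ((w e : ℚ) - y e)| ≤ X := by
    intro i
    rcases hfm i with hi | ⟨j, hj, hS⟩
    · obtain ⟨g, hg1, hg2, hg3⟩ := hRel _ hi
      refine ⟨g, hg1, hg2, ?_⟩
      have e1 : ∑ e, (g e : ℚ) * ((w e : ℚ) - y e) = 
          ∑ e, (g e : ℚ) * (w e : ℚ) - ∑ e, f i e * y e := by
        rw [← Finset.sum_sub_distrib]
        refine Finset.sum_congr rfl fun e _ => ?_
        have := congrFun hg1 e
        rw [← this]
        ring
      rw [e1, hy (f i) hi, sub_zero]
      exact_mod_cast hg3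
    · refine ⟨Pi.single j 1, ?_, ?_, ?_⟩
      · rw [hS]
        funext e
        by_cases h : e = j
        · subst h; simp
        · rw [Pi.single_eq_of_ne h, Pi.single_eq_of_ne h]; simp
      · intro e
        by_cases h : e = j
        · subst h; simpa using hc
        · rw [Pi.single_eq_of_ne h]; simp; omega
      · rw [Finset.sum_eq_single j]
        · rw [hyw j hj, sub_self, mul_zero, abs_zero]
          exact_mod_cast hX
        · intro b _ hb
          rw [Pi.single_eq_of_ne hb]
          simp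
        · intro h
          exact absurd (Finset.mem_univ _) h
  choose g hg1 hg2 hg3 using hch
  set M : Matrix (Fin n) (Fin n) ℤ := Matrix.of g with hM
  have hdet : M.det ≠ 0 := by
    intro h0
    have h3 : (M.map (Int.castRingHom ℚ)).det = 0 := by
      have h9 := RingHom.map_det (Int.castRingHom ℚ) M
      rw [h0, map_zero] at h9
      exact h9.symm
    have h4 : LinearIndependent ℚ (M.map (Int.castRingHom ℚ)).row := by
      have : (M.map (Int.castRingHom ℚ)).row = f := by
        funext i
        rw [← hg1 i]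
        rfl
      rw [this]
      exact hf
    have h5 := Matrix.linearIndependent_rows_iff_isUnit.1 h4
    rw [Matrix.isUnit_iff_isUnit_det, h3] at h5
    exact not_isUnit_zero h5
  have hadj : ∀ i j, |M.adjugate i j| ≤ n.factorial * c ^ n := by
    intro i j
    rw [Matrix.adjugate_apply]
    have h3 := Matrix.det_le (abv := (AbsoluteValue.abs : AbsoluteValue ℤ ℤ)) 
      (A := M.updateRow j (Pi.single i 1)) (x := c) (by
        intro a b
        show |_| ≤ (c : ℤ)
        by_cases haj : a = j
        · subst haj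
          rw [Matrix.updateRow_self]
          by_cases hb : b = i
          · subst hb; simpa using hc
          · rw [Pi.single_eq_of_ne hb]; simp; omega
        · rw [Matrix.updateRow_ne haj]
          exact hg2 a b)
    rw [Fintype.card_fin] at h3
    have h4 : (AbsoluteValue.abs : AbsoluteValue ℤ ℤ) (M.updateRow j (Pi.single i 1)).det = 
      |(M.updateRow j (Pi.single i 1)).det| := rfl
    rw [h4, nsmul_eq_mul] at h3
    exact h3
  -- Cramer's rule
  have h3 : (M.det : ℚ) * ((w e0 : ℚ) - y e0) = 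
      ∑ i, (M.adjugate e0 i : ℚ) * ∑ e, (g i e : ℚ) * ((w e : ℚ) - y e) := by
    have h4 : ((M.adjugate.map (Int.castRingHom ℚ)) * (M.map (Int.castRingHom ℚ))).mulVec 
        (fun e => (w e : ℚ) - y e) e0 = (M.det : ℚ) * ((w e0 : ℚ) - y e0) := by
      rw [← Matrix.map_mul, Matrix.adjugate_mul]
      have h5 : (M.det • (1 : Matrix (Fin n) (Fin n) ℤ)).map (Int.castRingHom ℚ) = 
          (M.det : ℚ) • (1 : Matrix (Fin n) (Fin n) ℚ) := by
        ext a b
        simp only [Matrix.map_apply, Matrix.smul_apply, smul_eq_mul, map_mul, Matrix.one_apply]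
        split_ifs <;> simp
      rw [h5, Matrix.smul_mulVec, Matrix.one_mulVec]
      rfl
    rw [← h4, ← Matrix.mulVec_mulVec]
    rfl
  have h4 : |(M.det : ℚ) * ((w e0 : ℚ) - y e0)| ≤ ∑ i : Fin n, ((n.factorial * c ^ n : ℤ) : ℚ) * X := by
    rw [h3]
    refine (Finset.abs_sum_le_sum_abs _ _).trans ?_
    refine Finset.sum_le_sum fun i _ => ?_
    rw [abs_mul]
    have a1 : |(M.adjugate e0 i : ℚ)| ≤ ((n.factorial * c ^ n : ℤ) : ℚ) := by exact_mod_cast hadj e0 i
    exact mul_le_mul a1 (hg3 i) (abs_nonneg _) ((abs_nonneg _).trans a1)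
  have h6 : |(w e0 : ℚ) - y e0| ≤ |(M.det : ℚ) * ((w e0 : ℚ) - y e0)| := by
    rw [abs_mul]
    have h6 : (1 : ℚ) ≤ |(M.det : ℚ)| := by exact_mod_cast Int.one_le_abs hdet
    nlinarith [abs_nonneg ((w e0 : ℚ) - y e0)]
  rw [Finset.sum_const, Finset.card_univ, Fintype.card_fin, nsmul_eq_mul] at h4
  calc |(w e0 : ℚ) - y e0| ≤ _ := h6
    _ ≤ _ := h4
    _ = _ := by push_cast; ring

/-! ### the matroid restricted to a set of twist regions -/

theorem set5' {S C Y D : Finset (Fin k)} (hY : Y ⊆ S) (hC : C ⊆ S) (hD : Disjoint D S) : 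
    ((Y ∪ D) ∪ C) ∩ S = Y ∪ C := by
  ext x
  have h1 : x ∈ Y → x ∈ S := fun h => hY h
  have h2 : x ∈ C → x ∈ S := fun h => hC h
  have h3 : x ∈ D → x ∉ S := fun h => Finset.disjoint_left.1 hD h
  simp only [Finset.mem_union, Finset.mem_inter]
  tauto

theorem sp_direct' {Γ : Ribbon k} (h1 : Γ.comps Finset.univ = 1) (S D : Finset (Fin k)) 
    (hD : Disjoint D S) {Y C : Finset (Fin k)} 
    (h : SP (gr Γ) Y C) : Y ⊆ S → C ⊆ S → (∀ R : Finset (Fin k), R ⊆ S → SP (rk Γ S) D R) → 
      SP (rk Γ S) (Y ∪ D) C := by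
  induction h with
  | nil C => 
    intro _ hC hR
    rw [Finset.empty_union]
    exact hR C hC
  | @loop Y C e he hl hsp ih =>
    intro hY hC hR
    have heS := hY (Finset.mem_insert_self _ _)
    have heD : e ∉ D := fun h => Finset.disjoint_left.1 hD h heS
    rw [Finset.insert_union]
    refine SP.loop (by simp [he, heD]) ?_ (ih ((Finset.subset_insert _ _).trans hY) hC hR)
    have h2 := rk_mem h1 heS C
    rw [Finset.inter_eq_left.2 hC] at h2
    omega
  | @coloop Y C e he hcl hsp ih =>
    intro hY hC hR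
    have heS := hY (Finset.mem_insert_self _ _)
    have heD : e ∉ D := fun h => Finset.disjoint_left.1 hD h heS
    have hY' := (Finset.subset_insert _ _).trans hY
    rw [Finset.insert_union]
    refine SP.coloop (by simp [he, heD]) ?_ (ih hY' (Finset.insert_subset heS hC) hR)
    have h2 := rk_mem h1 heS ((Y ∪ D) ∪ C)
    have e1 := set5' hY' hC hD
    rw [e1] at h2
    omega
  | @par Y C e f he hf hle hlf hef hsp ih =>
    intro hY hC hR
    have heS := hY (Finset.mem_insert_self _ _)
    have heD : e ∉ D := fun h => Finset.disjoint_left.1 hD h heS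
    have hfS := hY (Finset.mem_insert_of_mem (Finset.mem_insert_self _ _))
    have hfD : f ∉ D := fun h => Finset.disjoint_left.1 hD h hfS
    have hY' : insert e Y ⊆ S := (Finset.insert_subset_insert _ (Finset.subset_insert _ _)).trans hY
    have i1 := ih hY' hC hR
    rw [Finset.insert_union] at i1
    rw [Finset.insert_union, Finset.insert_union]
    have he' : e ∉ insert f (Y ∪ D) := by
      rw [Finset.mem_insert, not_or] at he
      simp [he.1, he.2, heD]
    have h2 := rk_mem h1 heS C
    have h3 := rk_mem h1 hfS C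
    have h4 := rk_mem h1 hfS (insert e C)
    have e1 : (insert e C) ∩ S = insert e C := Finset.inter_eq_left.2 (Finset.insert_subset heS hC)
    rw [Finset.inter_eq_left.2 hC] at h2 h3
    rw [e1] at h4
    refine SP.par he' (by simp [hf, hfD]) ?_ ?_ ?_ i1 <;> omega
  | @ser Y C e f he hf hce hcf hcef hsp ih =>
    intro hY hC hR
    have heS := hY (Finset.mem_insert_self _ _)
    have heD : e ∉ D := fun h => Finset.disjoint_left.1 hD h heS
    have hfS := hY (Finset.mem_insert_of_mem (Finset.mem_insert_self _ _))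
    have hfD : f ∉ D := fun h => Finset.disjoint_left.1 hD h hfS
    have hY' : insert e Y ⊆ S := (Finset.insert_subset_insert _ (Finset.subset_insert _ _)).trans hY
    have i1 := ih hY' (Finset.insert_subset hfS hC) hR
    rw [Finset.insert_union] at i1
    rw [Finset.insert_union, Finset.insert_union]
    have he' : e ∉ insert f (Y ∪ D) := by
      rw [Finset.mem_insert, not_or] at he
      simp [he.1, he.2, heD]
    have h2 := rk_mem h1 heS ((Y ∪ D) ∪ C)
    have h3 := rk_mem h1 hfS ((Y ∪ D) ∪ C)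
    have h4 := rk_mem h1 hfS (insert e ((Y ∪ D) ∪ C))
    have e1 := set5' (fun x h => hY (Finset.mem_insert_of_mem (Finset.mem_insert_of_mem h)) : Y ⊆ S) hC hD
    rw [e1] at h2 h3
    rw [Finset.insert_inter_of_mem heS, e1] at h4
    refine SP.ser he' (by simp [hf, hfD]) ?_ ?_ ?_ i1 <;> omega

theorem sp_part {Γ : Ribbon k} (h1 : Γ.comps Finset.univ = 1) (S Y : Finset (Fin k)) 
    (hS : SP (gr Γ) (Y ∩ S) ∅) (hS' : SP (gr Γ) (Y \ S) (S ∪ Yᶜ)) : SP (rk Γ S) Y ∅ := by
  have h2 := sp_direct' h1 S (Y \ S) Finset.sdiff_disjoint hS Finset.inter_subset_right 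
    (Finset.empty_subset _) (fun R hR => by
    have h3 := sp_dual h1 S hS' Finset.subset_union_left (by
      rw [Finset.disjoint_left]
      intro x hx hx'
      rw [Finset.mem_sdiff] at hx
      rw [Finset.mem_union, Finset.mem_compl] at hx'
      tauto) R hR
    have h4 : (Y \ S ∪ (S ∪ Yᶜ))ᶜ = (∅ : Finset (Fin k)) := by
      ext x
      simp only [Finset.mem_compl, Finset.mem_union, Finset.mem_sdiff, Finset.notMem_empty, iff_false]
      tauto
    rw [h4, Finset.union_empty] at h3
    exact h3)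
  have h3 : Y ∩ S ∪ Y \ S = Y := by
    ext x
    simp only [Finset.mem_union, Finset.mem_inter, Finset.mem_sdiff]
    tauto
  rw [h3] at h2
  exact h2

/-- the error in the approximation of the twist numbers -/
def errB (k c s D : ℕ) : ℤ := (k + 1) * ((k + 1).factorial * c ^ (k + 1)) * (3 * k + s + D)

/-- The twist regions outside `Y` have about `c e * M` crossings, the ones in `Y` are away from the
multiples of `M`, and the regions in `Y` form a series-parallel matroid. -/
theorem res_main (Γ : Ribbon k) (hΓ : Γ.Planar) (S Y : Finset (Fin k)) (hY : Y.Nonempty)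
    (hred : TwistReduced Γ S Y) (hsp : Spans Γ S Y) (hSP : SP (rk Γ S) Y ∅) (s D c : ℕ) (hc : 1 ≤ c)
    (w : Fin k → ℤ) (M : ℤ) (a : Fin k → ℤ) (ha : ∀ e, e ∉ Y → |a e| ≤ c) 
    (hM : errB k c s D < M) (h1 : ∀ e, e ∉ Y → |w e - a e * M| ≤ D) 
    (h2 : ∀ e ∈ Y, ∀ j : ℤ, errB k c s D * (|j| + 1) < |w e - j * M|) : 
    ¬ SpanLE s (twistLink Γ S w) := by
  classical
  intro h
  obtain ⟨lo, hlo⟩ := bracket_small Γ (by
    obtain ⟨e, _⟩ := hY
    exact Fin.pos e) S s w h
  have hk : 0 < k := by
    obtain ⟨e, _⟩ := hY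
    exact Fin.pos e
  -- the relations
  set Rel : Set (Fin (k + 1) → ℚ) := 
    {ρ | ∃ R R' : Finset (Fin k), |nS w R - nS w R'| ≤ 3 * k + s ∧ ρ = Fin.cons 0 (rv R R')} ∪ 
    {ρ | ∃ e, e ∉ Y ∧ ρ = Fin.cons (-(a e : ℚ)) (Pi.single e 1)} with hRel
  obtain ⟨y', hy', hyw⟩ := siegel_gen (k + 1) Rel (Fin.cons M w) c (3 * k + s + D) (by exact_mod_cast hc)
    (by positivity) (by
    rintro ρ (⟨R, R', hR, rfl⟩ | ⟨e, he, rfl⟩)
    · refine ⟨Fin.cons 0 (rz R R'), ?_, ?_, ?_⟩
      · funext i
        refine Fin.cases ?_ (fun j => ?_) i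
        · simp
        · rw [Fin.cons_succ, Fin.cons_succ]
          exact congrFun (rz_cast R R') j
      · intro i
        refine Fin.cases ?_ (fun j => ?_) i
        · simp
        · rw [Fin.cons_succ]
          have : |rz R R' j| ≤ 1 := by
            unfold rz one
            by_cases h1 : j ∈ R <;> by_cases h2 : j ∈ R' <;> simp [h1, h2]
          have h3 : (1 : ℤ) ≤ c := by exact_mod_cast hc
          linarith
      · rw [Fin.sum_univ_succ]
        simp only [Fin.cons_zero, Fin.cons_succ, zero_mul, zero_add]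
        rw [rz_sum]
        have : (0 : ℤ) ≤ D := by positivity
        linarith
    · refine ⟨Fin.cons (-(a e)) (Pi.single e 1), ?_, ?_, ?_⟩
      · funext i
        refine Fin.cases ?_ (fun j => ?_) i
        · simp
        · rw [Fin.cons_succ, Fin.cons_succ]
          by_cases h : j = e
          · subst h; simp
          · rw [Pi.single_eq_of_ne h, Pi.single_eq_of_ne h]; simp
      · intro i
        refine Fin.cases ?_ (fun j => ?_) i
        · rw [Fin.cons_zero, abs_neg]
          exact ha e he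
        · rw [Fin.cons_succ]
          have h3 : (1 : ℤ) ≤ c := by exact_mod_cast hc
          by_cases h : j = e
          · subst h; simpa using h3
          · rw [Pi.single_eq_of_ne h]; simp
      · rw [Fin.sum_univ_succ]
        simp only [Fin.cons_zero, Fin.cons_succ]
        rw [Finset.sum_eq_single e]
        · rw [Pi.single_eq_same, one_mul]
          have h3 := h1 e he
          have h4 : -a e * M + w e = w e - a e * M := by ring
          rw [h4]
          have : (0 : ℤ) ≤ 3 * k + s := by positivity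
          linarith
        · intro b _ hb
          rw [Pi.single_eq_of_ne hb]
          simp
        · intro h
          exact absurd (Finset.mem_univ _) h)
  set m : ℚ := y' 0 with hm
  set y : Fin k → ℚ := fun e => y' e.succ with hy
  have hB : ((k + 1 : ℕ) * ((k + 1).factorial * c ^ (k + 1)) * ((3 * k + s + D : ℤ) : ℚ) : ℚ) = 
      (errB k c s D : ℤ) := by
    unfold errB
    push_cast
    ring
  have hB0 : 0 ≤ errB k c s D := by unfold errB; positivity
  have hmM : |(M : ℚ) - m| ≤ errB k c s D := by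
    have := hyw 0
    rw [Fin.cons_zero] at this
    rw [← hB]
    exact_mod_cast this
  have hwy : ∀ e, |(w e : ℚ) - y e| ≤ errB k c s D := by
    intro e
    have := hyw e.succ
    rw [Fin.cons_succ] at this
    rw [← hB]
    exact_mod_cast this
  have hm0 : 0 < m := by
    have h3 : ((errB k c s D : ℤ) : ℚ) < M := by exact_mod_cast hM
    have := (abs_le.1 hmM).2
    linarith
  have hrel1 : ∀ R R' : Finset (Fin k), |nS w R - nS w R'| ≤ 3 * k + s → 
      ∑ e ∈ R, y e = ∑ e ∈ R', y e := by
    intro R R' hR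
    have h3 := hy' (Fin.cons 0 (rv R R')) (Or.inl ⟨R, R', hR, rfl⟩)
    rw [Fin.sum_univ_succ] at h3
    simp only [Fin.cons_zero, Fin.cons_succ, zero_mul, zero_add] at h3
    unfold rv at h3
    simp only [sub_mul, ite_mul, one_mul, zero_mul, Finset.sum_sub_distrib, Finset.sum_ite_mem, 
      Finset.univ_inter] at h3
    linarith
  have hrel2 : ∀ e, e ∉ Y → y e = a e * m := by
    intro e he
    have h3 := hy' (Fin.cons (-(a e : ℚ)) (Pi.single e 1)) (Or.inr ⟨e, he, rfl⟩)
    rw [Fin.sum_univ_succ] at h3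
    simp only [Fin.cons_zero, Fin.cons_succ] at h3
    rw [Finset.sum_eq_single e] at h3
    · rw [Pi.single_eq_same, one_mul] at h3
      have : y e = y' e.succ := rfl
      rw [this]
      linarith
    · intro b _ hb
      rw [Pi.single_eq_of_ne hb, zero_mul]
    · intro h
      exact absurd (Finset.mem_univ _) h
  have hne : ∀ e ∈ Y, ∀ j : ℤ, y e ≠ j * m := by
    intro e he j hj
    have h3 := h2 e he j
    have h4 : |(w e : ℚ) - j * M| ≤ (errB k c s D : ℤ) * (|(j : ℚ)| + 1) := by
      have e1 : (w e : ℚ) - j * M = ((w e : ℚ) - y e) - j * (M - m) := by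
        rw [hj]; ring
      rw [e1]
      refine (abs_sub _ _).trans ?_
      rw [abs_mul]
      have h5 := hwy e
      have h6 := mul_le_mul_of_nonneg_left hmM (abs_nonneg (j : ℚ))
      linarith
    have h5 : |w e - j * M| ≤ errB k c s D * (|j| + 1) := by exact_mod_cast h4
    linarith
  -- the weights
  set u : Fin k → ℂ := fun e => Complex.exp ((((2 * Real.pi * ((y e / m : ℚ) : ℝ) : ℝ)) : ℂ) * Complex.I) 
    with hu
  have hn : ∀ e, ‖u e‖ = 1 := fun e => Complex.norm_exp_ofReal_mul_I _
  have hu1 : ∀ e, e ∉ Y → u e = 1 := by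
    intro e he
    rw [hu]
    dsimp only
    rw [Complex.exp_eq_one_iff]
    refine ⟨a e, ?_⟩
    rw [hrel2 e he, mul_div_assoc, div_self hm0.ne', mul_one]
    push_cast
    ring
  have hu2 : ∀ e ∈ Y, u e ≠ 1 := by
    intro e he h3
    rw [hu] at h3
    dsimp only at h3
    rw [Complex.exp_eq_one_iff] at h3
    obtain ⟨j, hj⟩ := h3
    have h4 : (((2 * Real.pi * ((y e / m : ℚ) : ℝ) : ℝ)) : ℂ) = j * (2 * Real.pi) := by
      apply mul_right_cancel₀ Complex.I_ne_zero
      rw [hj]; ring
    have h5 : (2 * Real.pi * ((y e / m : ℚ) : ℝ) : ℝ) = j * (2 * Real.pi) := by exact_mod_cast h4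
    have h6 : ((y e / m : ℚ) : ℝ) = j := by
      have := Real.pi_pos
      have h7 : (2 * Real.pi) * (((y e / m : ℚ) : ℝ) - j) = 0 := by linarith
      rcases mul_eq_zero.1 h7 with h8 | h8
      · linarith
      · linarith
    have h7 : y e / m = j := by exact_mod_cast h6
    exact hne e he j (by rw [← h7]; field_simp)
  have hkey := key Γ hk hΓ S (rk_pos hΓ.1 hred hY) s w lo hlo u (by
    intro R R' hc
    have h3 := hrel1 R R' (by linarith)
    have h4 : ∀ R : Finset (Fin k), ∏ e ∈ R, u e = 
        Complex.exp ((((2 * Real.pi * (((∑ e ∈ R, y e) / m : ℚ) : ℝ) : ℝ)) : ℂ) * Complex.I) := by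
      intro R
      rw [hu, ← Complex.exp_sum]
      congr 1
      rw [← Finset.sum_mul]
      congr 1
      rw [← Complex.ofReal_sum, ← Finset.mul_sum, Finset.sum_div]
      push_cast
      rfl
    rw [h4, h4, h3])
  rw [Zs_support _ (Finset.subset_univ Y) (fun e he => by rw [hu1 e he, sub_self])] at hkey
  have hspY := (spans_iff hΓ.1 S Y).1 hsp
  refine sp_ne (r0 := rk Γ S Finset.univ) (isRk_rk hΓ.1 S) hSP (fun e => u e - 1) ?_ ?_ ?_ Y 
    (Finset.Subset.refl _) ?_ ?_ ?_ hkey
  · intro e _ _
    rw [add_sub_cancel, hn]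
  · intro e _ _
    rw [add_sub_cancel]
    exact Complex.exp_ne_zero _
  · intro e he f hf hef _ _ _ _ h3
    exfalso
    have h4 := rk_pair hΓ.1 hred he hf hef
    rw [rk_empty hΓ.1] at h3
    change rk Γ S {f, e} = 0 + 1 at h3
    omega
  · intro e he
    rw [sub_ne_zero]
    exact hu2 e he
  · rw [Finset.union_empty]
    exact hspY
  · rw [Finset.union_empty]
    exact hspY

/-- The twist regions outside `Y` have bounded or maximal length. -/
theorem max_main (Γ : Ribbon k) (hΓ : Γ.Planar) (S Y : Finset (Fin k)) (hY : Y.Nonempty)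
    (hred : TwistReduced Γ S Y) (hsp : Spans Γ S Y) (hSP : SP (rk Γ S) Y ∅) (s D : ℕ) 
    (w : Fin k → ℤ) (M : ℤ) (h1 : ∀ e, e ∉ Y → |w e| ≤ D ∨ (M ≤ |w e| ∧ |w e| ≤ M + D)) 
    (h2 : ∀ e ∈ Y, errB k 1 s D < |w e| ∧ |w e| < M - 2 * errB k 1 s D) : 
    ¬ SpanLE s (twistLink Γ S w) := by
  classical
  have hB0 : 0 ≤ errB k 1 s D := by unfold errB; positivity
  have hM : 3 * errB k 1 s D < M := by
    obtain ⟨e, he⟩ := hY
    have := h2 e he
    linarith [this.1, this.2]
  refine res_main Γ hΓ S Y hY hred hsp hSP s D 1 le_rfl w M 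
    (fun e => if |w e| ≤ D then 0 else if 0 < w e then 1 else -1) ?_ (by linarith) ?_ ?_
  · intro e _
    split_ifs <;> simp
  · intro e he
    by_cases h3 : |w e| ≤ D
    · rw [if_pos h3, zero_mul, sub_zero]
      exact h3
    · rw [if_neg h3]
      obtain ⟨h4, h5⟩ := (h1 e he).resolve_left h3
      by_cases h6 : 0 < w e
      · rw [if_pos h6, one_mul]
        rw [abs_of_pos h6] at h4 h5
        rw [abs_le]
        constructor <;> linarith [(Nat.cast_nonneg D : (0 : ℤ) ≤ D)]
      · rw [if_neg h6]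
        rw [abs_of_nonpos (not_lt.1 h6)] at h4 h5
        rw [abs_le]
        constructor <;> linarith [(Nat.cast_nonneg D : (0 : ℤ) ≤ D)]
  · intro e he j
    obtain ⟨h3, h4⟩ := h2 e he
    rcases eq_or_ne j 0 with rfl | hj
    · simpa using h3
    · have h5 : 1 ≤ |j| := Int.one_le_abs hj
      have h6 : |j| * M ≤ |w e| + |w e - j * M| := by
        have h7 : |j * M| ≤ |w e| + |w e - j * M| := by
          have h8 : j * M = w e - (w e - j * M) := by ring
          calc |j * M| = |w e - (w e - j * M)| := by rw [← h8]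
            _ ≤ _ := abs_sub _ _
        rw [abs_mul, abs_of_pos (by linarith : 0 < M)] at h7
        exact h7
      nlinarith

end Run7.h509
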