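import Pool.Agent.Run7.h509.Key

/-!
# Directions in which the twist vector can be changed
-/

set_option autoImplicit false

namespace Run7.h509

open Finset Module Pool.Agent.H891R2.MT
open Pool.Agent.H891R2.SI (Sites)
open Pool.Agent.Y463.CD hiding cluster

variable {k : ℕ}

/-- a large coordinate is not orthogonal to the directions -/
theorem siegel (O : Sites k) (s : ℕ) (w : Fin k → ℤ) (e0 : Fin k) 
    (h0 : ∀ y ∈ orth (RelS O s w), y e0 = 0) : 
    2 * |w e0| ≤ k * k.factorial * (3 * O.crossings.length + 6 * k + 2 * s) := by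
  classical
  obtain ⟨F, hFc, hsurj, hinj⟩ := exists_coord (orth (RelS O s w))
  obtain ⟨y, hy, hyw⟩ := hsurj (fun e => (w e : ℚ))
  set X : ℤ := 3 * O.crossings.length + 6 * k + 2 * s with hX
  have hX0 : (0 : ℤ) ≤ X := by positivity
  set Rel' : Set (Fin k → ℚ) := RelS O s w ∪ {ρ | ∃ j ∈ F, ρ = Pi.single j 1} with hRel
  have horth : orth Rel' = ⊥ := by
    rw [Submodule.eq_bot_iff]
    intro z hz
    apply hinj z
    · exact fun ρ hρ => hz ρ (Or.inl hρ)
    · intro j hj
      have := hz (Pi.single j 1) (Or.inr ⟨j, hj, rfl⟩)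
      rw [Finset.sum_eq_single j] at this
      · simpa using this
      · intro b _ hb
        rw [Pi.single_eq_of_ne hb, zero_mul]
      · intro h
        exact absurd (Finset.mem_univ _) h
  obtain ⟨f, hf, hfm⟩ := exists_indep Rel' k (by rw [horth, finrank_bot]; omega)
  have hch : ∀ i, ∃ g : Fin k → ℤ, (fun e => (g e : ℚ)) = f i ∧ (∀ e, |g e| ≤ 1) ∧ 
      2 * |∑ e, (g e : ℚ) * ((w e : ℚ) - y e)| ≤ X := by
    intro i
    rcases hfm i with ⟨S, S', hc, hS⟩ | ⟨j, hj, hS⟩
    · refine ⟨rz S S', ?_, ?_, ?_⟩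
      · rw [rz_cast, hS]
      · intro e
        unfold rz one
        by_cases h1 : e ∈ S <;> by_cases h2 : e ∈ S' <;> simp [h1, h2]
      · have e1 : ∑ e, (rz S S' e : ℚ) * ((w e : ℚ) - y e) = 
            ∑ e, rv S S' e * (w e : ℚ) - ∑ e, rv S S' e * y e := by
          rw [← Finset.sum_sub_distrib]
          refine Finset.sum_congr rfl fun e _ => ?_
          have := congrFun (rz_cast S S') e
          rw [this]
          ring
        rw [e1, rv_sum, hy (rv S S') ⟨S, S', hc, rfl⟩, sub_zero]
        have h2 : 2 * |nS w S - nS w S'| ≤ X := hc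
        exact_mod_cast h2
    · refine ⟨Pi.single j 1, ?_, ?_, ?_⟩
      · rw [hS]
        funext e
        by_cases h : e = j
        · subst h; simp
        · rw [Pi.single_eq_of_ne h, Pi.single_eq_of_ne h]; simp
      · intro e
        by_cases h : e = j
        · subst h; simp
        · rw [Pi.single_eq_of_ne h]; simp
      · rw [Finset.sum_eq_single j]
        · rw [hyw j hj, sub_self, mul_zero, abs_zero, mul_zero]
          exact_mod_cast hX0
        · intro b _ hb
          rw [Pi.single_eq_of_ne hb]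
          simp
        · intro h
          exact absurd (Finset.mem_univ _) h
  choose g hg1 hg2 hg3 using hch
  set M : Matrix (Fin k) (Fin k) ℤ := Matrix.of g with hM
  have hdet : M.det ≠ 0 := by
    intro h0
    have h3 : (M.map (Int.castRingHom ℚ)).det = 0 := by
      have h9 := RingHom.map_det (Int.castRingHom ℚ) M
      rw [h0, map_zero] at h9
      exact h9.symm
    have h4 : LinearIndependent ℚ (M.map (Int.castRingHom ℚ)).row := by
      have : (M.map (Int.castRingHom ℚ)).row = f := by
        funext i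
        rw [← hg1 i]
        rfl
      rw [this]
      exact hf
    have h5 := Matrix.linearIndependent_rows_iff_isUnit.1 h4
    rw [Matrix.isUnit_iff_isUnit_det, h3] at h5
    exact not_isUnit_zero h5
  have hadj : ∀ i j, |M.adjugate i j| ≤ k.factorial := by
    intro i j
    rw [Matrix.adjugate_apply]
    have h3 := Matrix.det_le (abv := (AbsoluteValue.abs : AbsoluteValue ℤ ℤ)) 
      (A := M.updateRow j (Pi.single i 1)) (x := 1) (by
        intro a b
        show |_| ≤ (1 : ℤ)
        by_cases haj : a = j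
        · subst haj
          rw [Matrix.updateRow_self]
          by_cases hb : b = i
          · subst hb; simp
          · rw [Pi.single_eq_of_ne hb]; simp
        · rw [Matrix.updateRow_ne haj]
          exact hg2 a b)
    rw [one_pow, Fintype.card_fin] at h3
    have h4 : (AbsoluteValue.abs : AbsoluteValue ℤ ℤ) (M.updateRow j (Pi.single i 1)).det = 
      |(M.updateRow j (Pi.single i 1)).det| := rfl
    rw [h4] at h3
    simpa using h3
  -- Cramer's rule
  have h3 : (M.det : ℚ) * ((w e0 : ℚ) - y e0) = 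
      ∑ i, (M.adjugate e0 i : ℚ) * ∑ e, (g i e : ℚ) * ((w e : ℚ) - y e) := by
    have h4 : ((M.adjugate.map (Int.castRingHom ℚ)) * (M.map (Int.castRingHom ℚ))).mulVec 
        (fun e => (w e : ℚ) - y e) e0 = (M.det : ℚ) * ((w e0 : ℚ) - y e0) := by
      rw [← Matrix.map_mul, Matrix.adjugate_mul]
      have h5 : (M.det • (1 : Matrix (Fin k) (Fin k) ℤ)).map (Int.castRingHom ℚ) = 
          (M.det : ℚ) • (1 : Matrix (Fin k) (Fin k) ℚ) := by
        ext a b
        simp only [Matrix.map_apply, Matrix.smul_apply, smul_eq_mul, map_mul, Matrix.one_apply]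
        split_ifs <;> simp
      rw [h5, Matrix.smul_mulVec, Matrix.one_mulVec]
      rfl
    rw [← h4, ← Matrix.mulVec_mulVec]
    rfl
  rw [h0 y hy, sub_zero] at h3
  have h4 : 2 * |(M.det : ℚ) * (w e0 : ℚ)| ≤ ∑ i : Fin k, (k.factorial : ℚ) * X := by
    rw [h3]
    refine (mul_le_mul_of_nonneg_left (Finset.abs_sum_le_sum_abs _ _) (by norm_num)).trans ?_
    rw [Finset.mul_sum]
    refine Finset.sum_le_sum fun i _ => ?_
    rw [abs_mul]
    have a1 : |(M.adjugate e0 i : ℚ)| ≤ k.factorial := by exact_mod_cast hadj e0 i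
    have a2 := hg3 i
    have a3 := abs_nonneg (M.adjugate e0 i : ℚ)
    have a4 := abs_nonneg (∑ e, (g i e : ℚ) * ((w e : ℚ) - y e))
    calc 2 * (|(M.adjugate e0 i : ℚ)| * |∑ e, (g i e : ℚ) * ((w e : ℚ) - y e)|) = 
        |(M.adjugate e0 i : ℚ)| * (2 * |∑ e, (g i e : ℚ) * ((w e : ℚ) - y e)|) := by ring
      _ ≤ (k.factorial : ℚ) * X := mul_le_mul a1 a2 (by positivity) (by positivity)
  have h5 : 2 * |M.det * w e0| ≤ ∑ i : Fin k, (k.factorial : ℤ) * X := by exact_mod_cast h4
  have h6 : |w e0| ≤ |M.det * w e0| := by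
    rw [abs_mul]
    have h6 : 1 ≤ |M.det| := Int.one_le_abs hdet
    nlinarith [abs_nonneg (w e0)]
  rw [Finset.sum_const, Finset.card_univ, Fintype.card_fin, nsmul_eq_mul] at h5
  calc 2 * |w e0| ≤ 2 * |M.det * w e0| := by linarith
    _ ≤ _ := h5
    _ = _ := by ring

/-- a direction which is nonzero at all large coordinates -/
theorem exists_dir (O : Sites k) (s : ℕ) (w : Fin k → ℤ) : ∃ y ∈ orth (RelS O s w), 
    ∀ e, k * k.factorial * (3 * O.crossings.length + 6 * k + 2 * s) < 2 * |w e| → y e ≠ 0 := by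
  classical
  obtain ⟨y, hy, hy0⟩ := Module.Dual.exists_forall_mem_ne_zero_of_forall_exists (orth (RelS O s w))
    (fun e : {e : Fin k // (k * k.factorial * (3 * O.crossings.length + 6 * k + 2 * s) : ℤ) < 2 * |w e|} => 
      (LinearMap.proj (R := ℚ) (φ := fun _ : Fin k => ℚ) e.1)) (by
      rintro ⟨e, he⟩
      by_contra hcon
      push Not at hcon
      have := siegel O s w e (fun y hy => hcon y hy)
      linarith)
  exact ⟨y, hy, fun e he => hy0 ⟨e, he⟩⟩

end Run7.h509
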