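import Pool.Agent.H832R3.TW.E
import Pool.Agent.H891R2.MT.T3a
import Pool.Agent.H891R2.MT.T2

/-!
# Templates with cut boxes
-/

set_option autoImplicit false

namespace Run7.h509.Tp

open Finset Pool.Agent.H891R2.MT Pool.Agent.H832R3.TW

variable {k : ℕ}

/-- Two corners are joined if the boxes `e ∈ X` are contracted and the other boxes are cut: by an arc; by
the strand from the left to the right at the end of a box; or if they belong to the same box `e ∈ X`. -/
def Jn (arcs : List (Corner k × Corner k)) (X : Finset (Fin k)) (x y : Corner k) : Prop :=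
  (x, y) ∈ arcs ∨ y = (x.1, x.2.1, !x.2.2) ∨ (x.1 ∈ X ∧ y.1 = x.1)

/-- the number of pieces of the diagram if the boxes outside `X` are cut -/
noncomputable def pieces (arcs : List (Corner k × Corner k)) (X : Finset (Fin k)) : ℕ :=
  Nat.card (Quot (Jn arcs X))

/-- every corner is joined by an arc to exactly one other corner (link diagrams) -/
def ClosedT (arcs : List (Corner k × Corner k)) : Prop :=
  ∀ x, ∃ y, y ≠ x ∧ ∀ z, ((x, z) ∈ arcs ∨ (z, x) ∈ arcs) ↔ z = y

/-- two corners belong to no arc, every other corner is joined by an arc to exactly one other corner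
(diagrams of knotoids) -/
def OpenT (arcs : List (Corner k × Corner k)) : Prop :=
  ∃ a b : Corner k, a ≠ b ∧ (∀ z, (a, z) ∉ arcs ∧ (z, a) ∉ arcs) ∧ (∀ z, (b, z) ∉ arcs ∧ (z, b) ∉ arcs) ∧
    ∀ x, x ≠ a → x ≠ b → ∃ y, y ≠ x ∧ ∀ z, ((x, z) ∈ arcs ∨ (z, x) ∈ arcs) ↔ z = y

/-! ### the number of pieces -/

/-- an equivalent relation -/
def Jn1 (arcs : List (Corner k × Corner k)) (X : Finset (Fin k)) (x y : Corner k) : Prop :=
  (x, y) ∈ arcs ∨ y = (x.1, x.2.1, !x.2.2) ∨ (x.1 ∈ X ∧ x.2 = (false, false) ∧ y = (x.1, true, false))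

theorem Jn1_mono (arcs : List (Corner k × Corner k)) {X Y : Finset (Fin k)} (h : X ⊆ Y) (x y : Corner k)
    (hr : Jn1 arcs X x y) : Jn1 arcs Y x y := by
  rcases hr with hr | hr | ⟨h1, h2⟩
  · exact Or.inl hr
  · exact Or.inr (Or.inl hr)
  · exact Or.inr (Or.inr ⟨h h1, h2⟩)

theorem Jn1_sides (arcs : List (Corner k × Corner k)) (X : Finset (Fin k)) (e : Fin k) (t s s' : Bool) :
    Quot.mk (Jn1 arcs X) (e, t, s) = Quot.mk (Jn1 arcs X) (e, t, s') := by
  have h : Quot.mk (Jn1 arcs X) (e, t, false) = Quot.mk (Jn1 arcs X) (e, t, true) :=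
    Quot.sound (Or.inr (Or.inl rfl))
  cases s <;> cases s' <;> first | rfl | exact h | exact h.symm

theorem pieces_eq (arcs : List (Corner k × Corner k)) (X : Finset (Fin k)) :
    pieces arcs X = Nat.card (Quot (Jn1 arcs X)) := by
  apply T2.card_quot_congr
  · rintro ⟨e, t, s⟩ ⟨e', t', s'⟩ (h | h | ⟨h1, h2⟩)
    · exact Quot.sound (Or.inl h)
    · exact Quot.sound (Or.inr (Or.inl h))
    · simp only at h1 h2
      subst h2
      have h3 : Quot.mk (Jn1 arcs X) (e', false, false) = Quot.mk (Jn1 arcs X) (e', true, false) :=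
        Quot.sound (Or.inr (Or.inr ⟨h1, rfl, rfl⟩))
      rw [Jn1_sides arcs X e' t s false, Jn1_sides arcs X e' t' s' false]
      cases t <;> cases t' <;> first | rfl | exact h3 | exact h3.symm
  · rintro ⟨e, t, s⟩ ⟨e', t', s'⟩ (h | h | ⟨h1, h2, h3⟩)
    · exact Quot.sound (Or.inl h)
    · exact Quot.sound (Or.inr (Or.inl h))
    · refine Quot.sound (Or.inr (Or.inr ⟨h1, ?_⟩))
      rw [h3]

/-- one box -/
theorem pieces_insert (arcs : List (Corner k × Corner k)) (X : Finset (Fin k)) (e : Fin k) :
    (Quot.mk (Jn1 arcs X) (e, false, false) = Quot.mk (Jn1 arcs X) (e, true, false) ∧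
        pieces arcs (insert e X) = pieces arcs X) ∨
      (Quot.mk (Jn1 arcs X) (e, false, false) ≠ Quot.mk (Jn1 arcs X) (e, true, false) ∧
        pieces arcs X = pieces arcs (insert e X) + 1) := by
  rw [pieces_eq, pieces_eq]
  apply T3a.quot_merge (Jn1 arcs X) (Jn1 arcs (insert e X)) (e, false, false) (e, true, false)
  · exact fun x y => Jn1_mono arcs (Finset.subset_insert _ _) x y
  · rintro ⟨x1, x2⟩ y (h | h | ⟨h1, h2, h3⟩)
    · exact Or.inl (Or.inl h)
    · exact Or.inl (Or.inr (Or.inl h))
    · rw [Finset.mem_insert] at h1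
      rcases h1 with h1 | h1
      · right; left
        simp only at h1 h2 h3
        subst h1
        rw [h2, h3]
        exact ⟨rfl, rfl⟩
      · exact Or.inl (Or.inr (Or.inr ⟨h1, h2, h3⟩))
  · exact Or.inr (Or.inr ⟨Finset.mem_insert_self _ _, rfl, rfl⟩)

theorem pieces_loc (arcs : List (Corner k × Corner k)) (A B : Finset (Fin k)) (e : Fin k) (h : A ⊆ B)
    (h1 : pieces arcs (insert e A) = pieces arcs A) : pieces arcs (insert e B) = pieces arcs B := by
  rcases pieces_insert arcs A e with ⟨h2, _⟩ | ⟨_, h2⟩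
  · rcases pieces_insert arcs B e with ⟨_, h3⟩ | ⟨h3, _⟩
    · exact h3
    · exfalso
      apply h3
      have := congrArg (Quot.lift (Quot.mk (Jn1 arcs B))
        (fun x y h' => Quot.sound (Jn1_mono arcs h x y h')) :
          Quot (Jn1 arcs A) → Quot (Jn1 arcs B)) h2
      exact this
  · omega

theorem pieces_empty (arcs : List (Corner k × Corner k)) : pieces arcs ∅ = loops arcs ∅ := by
  rw [pieces_eq]
  apply T2.card_quot_congr
  · rintro x y (h | h | ⟨h1, _⟩)
    · exact Quot.sound (Or.inl h)
    · exact Quot.sound (Or.inr (Or.inr ⟨Finset.notMem_empty _, h⟩))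
    · exact absurd h1 (Finset.notMem_empty _)
  · rintro x y (h | ⟨h1, _⟩ | ⟨_, h⟩)
    · exact Quot.sound (Or.inl h)
    · exact absurd h1 (Finset.notMem_empty _)
    · exact Quot.sound (Or.inr (Or.inl h))

/-- the pieces consist of components of the state -/
theorem pieces_le (arcs : List (Corner k × Corner k)) (X : Finset (Fin k)) :
    pieces arcs X ≤ loops arcs X := by
  have hf : ∀ x y, Sm arcs X x y → Quot.mk (Jn arcs X) x = Quot.mk (Jn arcs X) y := by
    rintro ⟨e, t, s⟩ y (h | ⟨h1, h2⟩ | ⟨_, h⟩)
    · exact Quot.sound (Or.inl h)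
    · refine Quot.sound (Or.inr (Or.inr ⟨h1, ?_⟩))
      rw [h2]
    · exact Quot.sound (Or.inr (Or.inl h))
  unfold pieces loops
  apply Nat.card_le_card_of_surjective (Quot.lift (Quot.mk (Jn arcs X)) hf)
  rintro ⟨x⟩
  exact ⟨Quot.mk _ x, rfl⟩

/-! ### two involutions -/

section inv

variable {V : Type} [Finite V] (σ τ : V → V) (hσ : ∀ x, σ (σ x) = x) (hτ : ∀ x, τ (τ x) = x)
  (hσ0 : ∀ x, σ x ≠ x) (hτ0 : ∀ x, τ x ≠ x)

include hσ hτ hσ0 hτ0 in
theorem parity_inv : ∀ (j : ℕ) (a : V), τ ((fun x => σ (τ x))^[j] a) ≠ a := by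
  intro j
  induction j using Nat.twoStepInduction with
  | zero => 
    intro a
    exact hτ0 a
  | one =>
    intro a h
    simp only [Function.iterate_one] at h
    have h1 : σ (τ a) = τ a := by
      have := congrArg τ h
      rw [hτ] at this
      exact this
    exact hσ0 _ h1
  | more j ih _ =>
    intro a h
    have h1 : (fun x => σ (τ x))^[j + 2] a = τ a := by
      have := congrArg τ h
      rw [hτ] at this
      exact this
    have h2 : (fun x => σ (τ x))^[j + 2] a = σ (τ ((fun x => σ (τ x))^[j] (σ (τ a)))) := by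
      rw [Function.iterate_succ_apply', Function.iterate_succ_apply]
    rw [h2] at h1
    have h3 : τ ((fun x => σ (τ x))^[j] (σ (τ a))) = σ (τ a) := by
      have := congrArg σ h1
      rw [hσ] at this
      exact this
    exact ih _ h3

include hσ hτ hσ0 hτ0 in
theorem inv_path (R : V → V → Prop) (hR : Equivalence R) (Q : V → Prop) (a : V) (hQa : Q a)
    (hQσ : ∀ x, Q x → Q (σ x)) (hQτ : ∀ x, Q x → Q (τ x)) (h1 : ∀ x, Q x → R x (τ x))
    (h2 : ∀ x, Q x → x ≠ a → x ≠ σ a → R x (σ x)) : R a (σ a) := by
  classical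
  set g : V → V := fun x => σ (τ x) with hg
  have hinj : Function.Injective g := by
    intro x y h
    have h3 : σ (τ x) = σ (τ y) := h
    have h4 := congrArg σ h3
    rw [hσ, hσ] at h4
    have h5 := congrArg τ h4
    rwa [hτ, hτ] at h5
  have hex : ∃ j, τ (g^[j] a) = σ a := by
    have hp := Function.Injective.mem_periodicPts hinj a
    obtain ⟨m, hm, hper⟩ := hp
    obtain ⟨n, rfl⟩ : ∃ n, m = n + 1 := ⟨m - 1, by omega⟩
    refine ⟨n, ?_⟩
    have h3 : g^[n + 1] a = a := hper
    rw [Function.iterate_succ_apply'] at h3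
    have h4 : σ (τ (g^[n] a)) = a := h3
    have h5 := congrArg σ h4
    rwa [hσ] at h5
  set j := Nat.find hex with hj
  have hjs := Nat.find_spec hex
  have hmin : ∀ i < j, τ (g^[i] a) ≠ σ a := fun i hi => Nat.find_min hex hi
  have key : ∀ i ≤ j, R a (g^[i] a) ∧ Q (g^[i] a) := by
    intro i
    induction i with
    | zero => intro _; exact ⟨hR.refl a, hQa⟩
    | succ i ih =>
      intro hi
      obtain ⟨h3, h4⟩ := ih (by omega)
      have h5 := hQτ _ h4
      have h6 : R a (τ (g^[i] a)) := hR.trans h3 (h1 _ h4)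
      have h7 := h2 _ h5 (parity_inv σ τ hσ hτ hσ0 hτ0 i a) (hmin i (by omega))
      rw [Function.iterate_succ_apply']
      exact ⟨hR.trans h6 h7, hQσ _ h5⟩
  have h3 := key j le_rfl
  rw [← hjs]
  exact hR.trans h3.1 (h1 _ h3.2)

end inv

/-! ### forests -/

/-- the strands in the boxes in the state `X` -/
def sm (X : Finset (Fin k)) (x : Corner k) : Corner k :=
  if x.1 ∈ X then (x.1, !x.2.1, x.2.2) else (x.1, x.2.1, !x.2.2)

theorem sm_sm (X : Finset (Fin k)) (x : Corner k) : sm X (sm X x) = x := by
  obtain ⟨e, t, s⟩ := x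
  unfold sm
  by_cases h : e ∈ X <;> simp [h]

theorem sm_ne (X : Finset (Fin k)) (x : Corner k) : sm X x ≠ x := by
  obtain ⟨e, t, s⟩ := x
  unfold sm
  by_cases h : e ∈ X <;> simp [h]

theorem sm_rel (arcs : List (Corner k × Corner k)) (X : Finset (Fin k)) (x : Corner k) :
    Sm arcs X x (sm X x) := by
  unfold Sm sm
  by_cases h : x.1 ∈ X
  · rw [if_pos h]
    exact Or.inr (Or.inl ⟨h, rfl⟩)
  · rw [if_neg h]
    exact Or.inr (Or.inr ⟨h, rfl⟩)

theorem exists_inv {arcs : List (Corner k × Corner k)} (hc : ClosedT arcs) :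
    ∃ τ : Corner k → Corner k, (∀ x, τ (τ x) = x) ∧ (∀ x, τ x ≠ x) ∧
      ∀ x z, ((x, z) ∈ arcs ∨ (z, x) ∈ arcs) ↔ z = τ x := by
  choose τ h1 h2 using hc
  refine ⟨τ, fun x => ?_, h1, h2⟩
  have h3 := (h2 x (τ x)).2 rfl
  have h4 := (h2 (τ x) x).1 h3.symm
  exact h4.symm

theorem mk_arc {arcs : List (Corner k × Corner k)} (r : Corner k → Corner k → Prop)
    (hr : ∀ x y, (x, y) ∈ arcs → r x y) {x z : Corner k} (h : (x, z) ∈ arcs ∨ (z, x) ∈ arcs) :
    Quot.mk r x = Quot.mk r z := by
  rcases h with h | h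
  · exact Quot.sound (hr _ _ h)
  · exact (Quot.sound (hr _ _ h)).symm

/-- **Forests**: opening two different components into each other -/
theorem loops_insert {arcs : List (Corner k × Corner k)} (hc : ClosedT arcs) {X : Finset (Fin k)} {e : Fin k}
    (he : e ∉ X) (hne : Quot.mk (Jn1 arcs X) (e, false, false) ≠ Quot.mk (Jn1 arcs X) (e, true, false)) :
    loops arcs (insert e X) < loops arcs X := by
  classical
  obtain ⟨τ, hτ, hτ0, harc⟩ := exists_inv hc
  -- the two ends of the box are in different components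
  have hcomp : ∀ s s' : Bool, Quot.mk (Sm arcs X) (e, false, s) ≠ Quot.mk (Sm arcs X) (e, true, s') := by
    intro s s' h
    have hf : ∀ x y, Sm arcs X x y → Quot.mk (Jn1 arcs X) x = Quot.mk (Jn1 arcs X) y := by
      rintro ⟨f, t, s⟩ y (h | ⟨h1, h2⟩ | ⟨_, h⟩)
      · exact Quot.sound (Or.inl h)
      · simp only at h1 h2
        subst h2
        have h3 : Quot.mk (Jn1 arcs X) (f, false, false) = Quot.mk (Jn1 arcs X) (f, true, false) :=
          Quot.sound (Or.inr (Or.inr ⟨h1, rfl, rfl⟩))
        rw [Jn1_sides arcs X f t s false, Jn1_sides arcs X f (!t) s false]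
        cases t
        · exact h3
        · exact h3.symm
      · exact Quot.sound (Or.inr (Or.inl h))
    have h1 := congrArg (Quot.lift (Quot.mk (Jn1 arcs X)) hf) h
    have h2 : Quot.mk (Jn1 arcs X) (e, false, s) = Quot.mk (Jn1 arcs X) (e, true, s') := h1
    rw [Jn1_sides arcs X e false s false, Jn1_sides arcs X e true s' false] at h2
    exact hne h2
  -- the cuts of the box are joined outside
  have hcut : ∀ (t s : Bool), Quot.mk (Sm arcs (insert e X)) (e, t, s) =
      Quot.mk (Sm arcs (insert e X)) (e, t, !s) := by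
    intro t s
    have hsm : sm X (e, t, s) = (e, t, !s) := by
      unfold sm
      simp [he]
    have h := inv_path (sm X) τ (sm_sm X) hτ (sm_ne X) hτ0
      (fun x y => Quot.mk (Sm arcs (insert e X)) x = Quot.mk (Sm arcs (insert e X)) y)
      ⟨fun _ => rfl, fun h => h.symm, fun h h' => h.trans h'⟩
      (fun x => Quot.mk (Sm arcs X) (e, t, s) = Quot.mk (Sm arcs X) x) (e, t, s) rfl
      (fun x hx => hx.trans (Quot.sound (sm_rel arcs X x)))
      (fun x hx => hx.trans (mk_arc _ (fun _ _ h => Or.inl h) ((harc x (τ x)).2 rfl)))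
      (fun x _ => mk_arc _ (fun _ _ h => Or.inl h) ((harc x (τ x)).2 rfl)) ?_
    · rw [hsm] at h
      exact h
    · rintro ⟨f, t', s'⟩ hx h1 h2
      rw [hsm] at h2
      have hfe : f ≠ e := by
        rintro rfl
        have ht : t' ≠ t := by
          rintro rfl
          cases s <;> cases s' <;> simp at h1 h2
        cases t <;> cases t'
        · exact ht rfl
        · exact hcomp _ _ hx
        · exact hcomp _ _ hx.symm
        · exact ht rfl
      have h3 : sm X (f, t', s') = sm (insert e X) (f, t', s') := by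
        unfold sm
        simp [hfe]
      rw [h3]
      exact Quot.sound (sm_rel arcs _ _)
  -- the map of the components
  have hf : ∀ x y, Sm arcs X x y → Quot.mk (Sm arcs (insert e X)) x = Quot.mk (Sm arcs (insert e X)) y := by
    rintro ⟨f, t, s⟩ y (h | ⟨h1, h2⟩ | ⟨h1, h2⟩)
    · exact Quot.sound (Or.inl h)
    · exact Quot.sound (Or.inr (Or.inl ⟨Finset.mem_insert_of_mem h1, h2⟩))
    · simp only at h1 h2
      subst h2
      by_cases hfe : f = e
      · subst hfe
        exact hcut t s
      · exact Quot.sound (Or.inr (Or.inr ⟨by simp [hfe, h1], rfl⟩))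
  unfold loops
  by_contra hcon
  push Not at hcon
  have hfin : Finite (Quot (Sm arcs X)) := Finite.of_surjective (Quot.mk _) Quot.mk_surjective
  have hsurj : Function.Surjective (Quot.lift (Quot.mk (Sm arcs (insert e X))) hf) := by
    rintro ⟨x⟩
    exact ⟨Quot.mk _ x, rfl⟩
  have hbij := hsurj.bijective_of_nat_card_le hcon
  apply hcomp false false
  apply hbij.1
  exact Quot.sound (Or.inr (Or.inl ⟨Finset.mem_insert_self _ _, rfl⟩))

theorem loops_le_card (arcs : List (Corner k × Corner k)) (X : Finset (Fin k)) :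
    loops arcs ∅ ≤ X.card + pieces arcs X := by
  induction X using Finset.induction_on with
  | empty => rw [pieces_empty]; simp
  | insert e X he ih =>
    rw [Finset.card_insert_of_notMem he]
    rcases pieces_insert arcs X e with ⟨_, h⟩ | ⟨_, h⟩ <;> omega

theorem forest_loops {arcs : List (Corner k × Corner k)} (hc : ClosedT arcs) (X : Finset (Fin k)) :
    X.card + pieces arcs X = loops arcs ∅ → loops arcs X = pieces arcs X := by
  induction X using Finset.induction_on with
  | empty => 
    intro _
    exact (pieces_empty arcs).symm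
  | insert e X he ih =>
    intro h
    rw [Finset.card_insert_of_notMem he] at h
    have h1 := loops_le_card arcs X
    have h2 := pieces_le arcs (insert e X)
    rcases pieces_insert arcs X e with ⟨_, h3⟩ | ⟨h3, h4⟩
    · omega
    · have h5 := ih (by omega)
      have h6 := loops_insert hc he h3
      omega

/-- the minimal exponents -/
theorem expoT {arcs : List (Corner k × Corner k)} (hc : ClosedT arcs) (X : Finset (Fin k)) :
    loops arcs ∅ ≤ X.card + loops arcs X ∧
      (X.card + loops arcs X = loops arcs ∅ ↔ X.card + pieces arcs X = loops arcs ∅) := by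
  have h1 := loops_le_card arcs X
  have h2 := pieces_le arcs X
  have h3 := forest_loops hc X
  refine ⟨by omega, fun h => by omega, fun h => ?_⟩
  have := h3 h
  omega

/-! ### templates of knotoids -/

/-- the ends of the interval may be joined -/
theorem close_open {arcs : List (Corner k × Corner k)} (ho : OpenT arcs) :
    ∃ a b : Corner k, ClosedT ((a, b) :: arcs) ∧ (∀ X, loops ((a, b) :: arcs) X = loops arcs X) ∧ 
      ∀ X, pieces ((a, b) :: arcs) X = pieces arcs X := by
  classical
  obtain ⟨a, b, hab, ha, hb, hx⟩ := ho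
  have hcl : ClosedT ((a, b) :: arcs) := by
    intro x
    by_cases h1 : x = a
    · subst h1
      refine ⟨b, hab.symm, fun z => ?_⟩
      simp only [List.mem_cons, Prod.mk.injEq, true_and]
      have h2 := ha z
      constructor
      · rintro ((h | h) | (⟨rfl, h⟩ | h))
        · exact h
        · exact absurd h h2.1
        · exact h
        · exact absurd h h2.2
      · intro h
        exact Or.inl (Or.inl h)
    · by_cases h2 : x = b
      · subst h2
        refine ⟨a, hab, fun z => ?_⟩
        simp only [List.mem_cons, Prod.mk.injEq, and_true]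
        have h2 := hb z
        constructor
        · rintro ((⟨h, h'⟩ | h) | (h | h))
          · exact absurd h h1
          · exact absurd h h2.1
          · exact h
          · exact absurd h h2.2
        · intro h
          exact Or.inr (Or.inl h)
      · obtain ⟨y, hy, h3⟩ := hx x h1 h2
        refine ⟨y, hy, fun z => ?_⟩
        rw [← h3 z]
        simp only [List.mem_cons, Prod.mk.injEq]
        constructor
        · rintro ((⟨h, _⟩ | h) | (⟨_, h⟩ | h))
          · exact absurd h h1
          · exact Or.inl h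
          · exact absurd h h2
          · exact Or.inr h
        · rintro (h | h)
          · exact Or.inl (Or.inr h)
          · exact Or.inr (Or.inr h)
  obtain ⟨τ, hτ, hτ0, harc⟩ := exists_inv hcl
  have hτa : τ a = b := ((harc a b).1 (Or.inl (List.mem_cons_self ..))).symm
  have hjoin : ∀ X, Quot.mk (Sm arcs X) a = Quot.mk (Sm arcs X) b := by
    intro X
    have h := inv_path τ (sm X) hτ (sm_sm X) hτ0 (sm_ne X)
      (fun x y => Quot.mk (Sm arcs X) x = Quot.mk (Sm arcs X) y)
      ⟨fun _ => rfl, fun h => h.symm, fun h h' => h.trans h'⟩ (fun _ => True) a trivial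
      (fun _ _ => trivial) (fun _ _ => trivial) (fun x _ => Quot.sound (sm_rel arcs X x)) ?_
    · rwa [hτa] at h
    · intro x _ h1 h2
      rw [hτa] at h2
      have h3 := (harc x (τ x)).2 rfl
      simp only [List.mem_cons, Prod.mk.injEq] at h3
      rcases h3 with (⟨h, _⟩ | h) | (⟨_, h⟩ | h)
      · exact absurd h h1
      · exact mk_arc (Sm arcs X) (fun _ _ h => Or.inl h) (Or.inl h)
      · exact absurd h h2
      · exact mk_arc (Sm arcs X) (fun _ _ h => Or.inl h) (Or.inr h)
  refine ⟨a, b, hcl, fun X => ?_, fun X => ?_⟩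
  · unfold loops
    apply T2.card_quot_congr
    · rintro x y (h | h)
      · rw [List.mem_cons, Prod.mk.injEq] at h
        rcases h with ⟨rfl, rfl⟩ | h
        · exact hjoin X
        · exact Quot.sound (Or.inl h)
      · exact Quot.sound (Or.inr h)
    · rintro x y (h | h)
      · exact Quot.sound (Or.inl (List.mem_cons_of_mem _ h))
      · exact Quot.sound (Or.inr h)
  · unfold pieces
    have hf : ∀ x y, Sm arcs ∅ x y → Quot.mk (Jn arcs X) x = Quot.mk (Jn arcs X) y := by
      rintro x y (h | ⟨h1, _⟩ | ⟨_, h⟩)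
      · exact Quot.sound (Or.inl h)
      · exact absurd h1 (Finset.notMem_empty _)
      · exact Quot.sound (Or.inr (Or.inl h))
    have hj : Quot.mk (Jn arcs X) a = Quot.mk (Jn arcs X) b :=
      congrArg (Quot.lift (Quot.mk (Jn arcs X)) hf) (hjoin ∅)
    apply T2.card_quot_congr
    · rintro x y (h | h)
      · rw [List.mem_cons, Prod.mk.injEq] at h
        rcases h with ⟨rfl, rfl⟩ | h
        · exact hj
        · exact Quot.sound (Or.inl h)
      · exact Quot.sound (Or.inr h)
    · rintro x y (h | h)
      · exact Quot.sound (Or.inl (List.mem_cons_of_mem _ h))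
      · exact Quot.sound (Or.inr h)

/-- the minimal exponents, for links and knotoids -/
theorem expoO {arcs : List (Corner k × Corner k)} (h : ClosedT arcs ∨ OpenT arcs) (X : Finset (Fin k)) :
    loops arcs ∅ ≤ X.card + loops arcs X ∧
      (X.card + loops arcs X = loops arcs ∅ ↔ X.card + pieces arcs X = loops arcs ∅) := by
  rcases h with h | h
  · exact expoT h X
  · obtain ⟨a, b, hc, hl, hp⟩ := close_open h
    have := expoT hc X
    rwa [hl, hl, hp] at this

end Run7.h509.Tp
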