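import Pool.Agent.Run7.h509.Tp
import Pool.Agent.Run7.h509.Abs2

/-!
# Cancellation for templates
-/

set_option autoImplicit false

namespace Run7.h509.Tp

open Finset LaurentPolynomial Pool.Agent.H891R2.Jones Pool.Agent.H891R2.MT Pool.Agent.H832R3.TW T4b
open Run7.h509 Run7.h509.Abs
open Pool.Agent.Y463.CD hiding cluster

variable {k : ℕ}

theorem isPieces (arcs : List (Corner k × Corner k)) : IsPieces (pieces arcs) where
  step A e := by
    rcases pieces_insert arcs A e with ⟨_, h⟩ | ⟨_, h⟩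
    · exact Or.inl h
    · exact Or.inr h.symm
  loc A B e hAB h := pieces_loc arcs A B e hAB h

/-- The rank function of a template: the dual of the cycle matroid of the graph whose vertices are the
components of the state `∅` (all boxes cut) and whose edges are the boxes. -/
noncomputable def rkT (arcs : List (Corner k × Corner k)) : Finset (Fin k) → ℕ := dual (pieces arcs)

theorem isRk_rkT (arcs : List (Corner k × Corner k)) : IsRk (rkT arcs) := isRk_dual (isPieces arcs)

theorem rkT_add (arcs : List (Corner k × Corner k)) (Q : Finset (Fin k)) :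
    rkT arcs Q + pieces arcs Qᶜ = Q.card + pieces arcs Finset.univ := dual_add (isPieces arcs) Q

theorem rkT_empty (arcs : List (Corner k × Corner k)) : rkT arcs ∅ = 0 := dual_empty

/-- the reduced coefficient polynomials -/
noncomputable def qT (arcs : List (Corner k × Corner k)) (S : Finset (Fin k)) : ℤ[T;T⁻¹] :=
  ∑ R ∈ S.powerset, (-1) ^ (S.card - R.card) * (-T 2 - T (-2)) ^ (R.card + loops arcs R - loops arcs ∅)

theorem cp_qT {arcs : List (Corner k × Corner k)} (h : ClosedT arcs ∨ OpenT arcs) (S : Finset (Fin k)) :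
    Polynomial.aeval (-T 2 - T (-2) : ℤ[T;T⁻¹]) (cp arcs S) =
      (-T 2 - T (-2)) ^ (loops arcs ∅) * qT arcs S := by
  unfold cp qT
  rw [map_sum, Finset.mul_sum]
  refine Finset.sum_congr rfl fun R _ => ?_
  rw [map_mul, map_pow, map_pow, map_neg, map_one, Polynomial.aeval_X]
  have h1 := (expoO h R).1
  obtain ⟨m, hm⟩ : ∃ m, R.card + loops arcs R = loops arcs ∅ + m :=
    ⟨R.card + loops arcs R - loops arcs ∅, by omega⟩
  rw [hm, Nat.add_sub_cancel_left, pow_add]
  ring

theorem ev8_qT {arcs : List (Corner k × Corner k)} (h : ClosedT arcs ∨ OpenT arcs)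
    (R : Finset (Fin k)) :
    ev8 (qT arcs Rᶜ) = ((Zs (rkT arcs) (rkT arcs Finset.univ) (fun _ => (-1 : ℝ)) Rᶜ R : ℝ) : ℂ) := by
  rw [Zs_ofReal]
  unfold qT Zs
  rw [map_sum]
  refine Finset.sum_bij' (fun X _ => Rᶜ \ X) (fun Q _ => Rᶜ \ Q) ?_ ?_ ?_ ?_ ?_
  · intro X _
    exact Finset.mem_powerset.2 Finset.sdiff_subset
  · intro X _
    exact Finset.mem_powerset.2 Finset.sdiff_subset
  · intro X hX
    exact Finset.sdiff_sdiff_eq_self (Finset.mem_powerset.1 hX)
  · intro X hX
    exact Finset.sdiff_sdiff_eq_self (Finset.mem_powerset.1 hX)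
  · intro X hX
    have hXR := Finset.mem_powerset.1 hX
    have h1 : (Rᶜ \ X) ∪ R = Xᶜ := by
      ext x
      have h2 : x ∈ X → x ∉ R := fun h => Finset.mem_compl.1 (hXR h)
      simp only [Finset.mem_union, Finset.mem_sdiff, Finset.mem_compl]
      tauto
    rw [h1, map_mul, map_pow, map_pow, map_neg, map_one, ev8_d]
    have h2 := expoO h X
    have h3 := rkT_add arcs Xᶜ
    have h4 := rkT_add arcs Finset.univ
    rw [compl_compl, Finset.card_compl, Fintype.card_fin] at h3
    rw [Finset.compl_univ, pieces_empty, Finset.card_univ, Fintype.card_fin] at h4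
    have h5 : X.card ≤ k := by
      have := Finset.card_le_univ X
      rwa [Fintype.card_fin] at this
    have h6 : (Rᶜ \ X).card = (Rᶜ).card - X.card := by
      rw [Finset.card_sdiff_of_subset hXR]
    split_ifs with h7
    · have h8 := h2.2.2 (by omega)
      have h9 : X.card + loops arcs X - loops arcs ∅ = 0 := by omega
      rw [h9, pow_zero, mul_one, Finset.prod_const, h6]
      push_cast
      rfl
    · have h8 : X.card + loops arcs X ≠ loops arcs ∅ := by
        intro h9
        have := h2.2.1 h9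
        omega
      rw [zero_pow (by have := h2.1; omega), mul_zero]

/-- **cancellation** -/
theorem canc {arcs : List (Corner k × Corner k)} (h : ClosedT arcs ∨ OpenT arcs) (hk : 0 < k)
    (hcon : pieces arcs Finset.univ = 1) (hr : 0 < rkT arcs Finset.univ) (s : ℕ) (n : Fin k → ℤ) (lo : ℤ)
    (hlo : SIn (twisted arcs n).std.bracket lo (lo + 4 * s)) :
    Canc (rkT arcs) n (4 * k + s + 1) := by
  classical
  intro y hy
  have hid := identity arcs hk n
  have h4 := rkT_add arcs Finset.univ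
  rw [Finset.compl_univ, pieces_empty, Finset.card_univ, Fintype.card_fin, hcon] at h4
  have hd : ((-T 2 - T (-2)) ^ (loops arcs ∅) : ℤ[T;T⁻¹]) ≠ 0 := pow_ne_zero _ delta_ne
  set a : Finset (Fin k) → ℤ := fun R => - nS n Rᶜ with ha
  have hzf : ∀ R : Finset (Fin k), zf (a R) =
      ((-1 : ℤ[T;T⁻¹]) ^ (nS n Rᶜ).natAbs * T (4 * nS n Rᶜ)) := by
    intro R
    rw [ha]
    show (-1 : ℤ[T;T⁻¹]) ^ (-nS n Rᶜ).natAbs * T (-4 * (-nS n Rᶜ)) = _
    rw [Int.natAbs_neg]
    congr 2
    ring
  -- the sum over the complements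
  have hsum : ∑ R : Finset (Fin k), zf (a R) * Polynomial.aeval (-T 2 - T (-2) : ℤ[T;T⁻¹]) (cp arcs Rᶜ) =
      ((-1) ^ (nS n univ).natAbs * T (3 * nS n univ)) * (-T 2 - T (-2)) ^ (1 + k) *
        (twisted arcs n).std.bracket := by
    rw [← hid, ← Equiv.sum_comp (compl_involutive.toPerm : Equiv.Perm (Finset (Fin k)))]
    refine Finset.sum_congr rfl fun R _ => ?_
    simp only [Function.Involutive.coe_toPerm]
    rw [hzf, compl_compl]
  have hL := (((T4b.SIn_sgn (nS n univ).natAbs).mul (T4b.SIn.T (3 * nS n univ))).mul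
    (T4b.SIn_d.pow (1 + k))).mul hlo
  rw [← hsum] at hL
  have hfac : ∀ X : Finset (Finset (Fin k)),
      ∑ R ∈ X, zf (a R) * Polynomial.aeval (-T 2 - T (-2) : ℤ[T;T⁻¹]) (cp arcs Rᶜ) =
        (-T 2 - T (-2)) ^ (loops arcs ∅) * ∑ R ∈ X, zf (a R) * qT arcs Rᶜ := by
    intro X
    rw [Finset.mul_sum]
    refine Finset.sum_congr rfl fun R _ => ?_
    rw [cp_qT h]
    ring
  have hev : ∀ X : Finset (Finset (Fin k)),
      ev8 (∑ R ∈ X, zf (a R) * qT arcs Rᶜ) = ∑ R ∈ X, ev8 (qT arcs Rᶜ) := by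
    intro X
    rw [map_sum]
    refine Finset.sum_congr rfl fun R _ => ?_
    rw [map_mul, ev8_zf, one_mul]
  have hψ : ∀ X : Finset (Finset (Fin k)),
      ∑ R ∈ X, zf (a R) * Polynomial.aeval (-T 2 - T (-2) : ℤ[T;T⁻¹]) (cp arcs Rᶜ) = 0 →
      ∑ R ∈ X, ev8 (qT arcs Rᶜ) = 0 := by
    intro X hX
    rw [hfac] at hX
    rcases mul_eq_zero.1 hX with h1 | h1
    · exact absurd h1 hd
    · rw [← hev, h1, map_zero]
  have htot : ∑ R : Finset (Fin k), ev8 (qT arcs Rᶜ) = 0 := by
    have h1 : ((-T 2 - T (-2)) ^ (loops arcs ∅) : ℤ[T;T⁻¹]) *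
        ∑ R : Finset (Fin k), zf (a R) * qT arcs Rᶜ = (-T 2 - T (-2)) ^ (loops arcs ∅) *
        (((-1) ^ (nS n univ).natAbs * T (3 * nS n univ)) * (-T 2 - T (-2)) ^ (1 + k - loops arcs ∅) *
        (twisted arcs n).std.bracket) := by
      rw [← hfac, hsum]
      have hpk : ((-T 2 - T (-2)) ^ (1 + k) : ℤ[T;T⁻¹]) =
          (-T 2 - T (-2)) ^ (loops arcs ∅) * (-T 2 - T (-2)) ^ (1 + k - loops arcs ∅) := by
        rw [← pow_add]
        congr 1
        omega
      rw [hpk]
      ring
    have h2 := mul_left_cancel₀ hd h1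
    rw [← hev, h2, map_mul, map_mul, map_pow, ev8_d, zero_pow (by omega), mul_zero, zero_mul]
  have hclu := cluster (fun R => Polynomial.aeval (-T 2 - T (-2) : ℤ[T;T⁻¹]) (cp arcs Rᶜ)) (6 * k)
    (8 * k + 2 + 2 * s) (4 * (1 + k) + 4 * s)
    (fun R => (Pool.Agent.H832R3.TW.SIn_aeval (cp arcs Rᶜ) (cp_natDegree arcs Rᶜ)).mono (by push_cast; linarith)
      (by push_cast; linarith)) (by positivity) (by positivity)
    (by linarith) a (fun R => ev8 (qT arcs Rᶜ)) y hψ _
    (Finset.univ : Finset (Finset (Fin k))) le_rfl _ (hL.mono le_rfl (by push_cast; linarith)) htot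
    (fun R _ R' _ hc => hy R R' (by
      rw [ha] at hc
      dsimp only at hc
      have h1 : nS n R = nS n univ - nS n Rᶜ := by
        unfold nS
        rw [← Finset.sum_add_sum_compl R]
        ring
      have h2 : nS n R' = nS n univ - nS n R'ᶜ := by
        unfold nS
        rw [← Finset.sum_add_sum_compl R']
        ring
      have h3 : nS n R - nS n R' = -nS n Rᶜ - -nS n R'ᶜ := by
        rw [h1, h2]; ring
      rw [h3]
      linarith))
  rw [← hclu]
  refine Finset.sum_congr rfl fun R _ => ?_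
  rw [ev8_qT h]

end Run7.h509.Tp
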