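import Pool.Agent.Run7.h509.Tp2
import Pool.Agent.Run7.h509.Abs3

/-!
# Highly twisted templates
-/

set_option autoImplicit false

namespace Run7.h509.Tp

open Finset LaurentPolynomial Pool.Agent.H891R2.Jones Pool.Agent.H891R2.MT Pool.Agent.H832R3.TW T4b
open Run7.h509 Run7.h509.Abs

variable {k : ℕ}

/-- The boxes in `Y` are reduced: the diagram remains connected if one or two of them are cut. -/
def ReducedT (arcs : List (Corner k × Corner k)) (Y : Finset (Fin k)) : Prop :=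
  ∀ e ∈ Y, ∀ f ∈ Y, pieces arcs {e, f}ᶜ = 1

/-- The boxes outside `Y`, as edges between the components of the state `∅`, form a forest. -/
def SpansT (arcs : List (Corner k × Corner k)) (Y : Finset (Fin k)) : Prop :=
  (Yᶜ).card + pieces arcs Yᶜ = loops arcs ∅

/-- the rank function of the cycle matroid of the graph whose vertices are the components of the state
`∅` and whose edges are the boxes -/
noncomputable def gT (arcs : List (Corner k × Corner k)) : Finset (Fin k) → ℕ := gP (pieces arcs)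

theorem conn {arcs : List (Corner k × Corner k)} {Y : Finset (Fin k)} (hY : Y.Nonempty)
    (h : ReducedT arcs Y) : pieces arcs Finset.univ = 1 := by
  obtain ⟨e, he⟩ := hY
  have h1 := h e he e he
  have h2 := (isPieces arcs).anti (Finset.subset_univ {e, e}ᶜ)
  have hne : Nonempty (Corner k) := ⟨(e, false, false)⟩
  have h3 : 0 < pieces arcs Finset.univ := by
    unfold pieces
    have : Nonempty (Quot (Jn arcs Finset.univ)) := ⟨Quot.mk _ (e, false, false)⟩
    have : Finite (Quot (Jn arcs Finset.univ)) := Finite.of_surjective (Quot.mk _) Quot.mk_surjective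
    exact Nat.card_pos
  omega

theorem simpT {arcs : List (Corner k × Corner k)} {Y : Finset (Fin k)} (h1 : pieces arcs Finset.univ = 1)
    (h : ReducedT arcs Y) : Simp (rkT arcs) Y := by
  constructor
  · intro e he
    have h2 := rkT_add arcs {e}
    have h3 := h e he e he
    rw [Finset.pair_eq_singleton] at h3
    rw [Finset.card_singleton] at h2
    omega
  · intro e he f hf hne
    have h2 := rkT_add arcs {f, e}
    have h3 := h f hf e he
    rw [Finset.card_pair hne.symm] at h2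
    omega

theorem spansT {arcs : List (Corner k × Corner k)} {Y : Finset (Fin k)} (h : SpansT arcs Y) :
    rkT arcs Y = rkT arcs Finset.univ := by
  have h1 := rkT_add arcs Y
  have h2 := rkT_add arcs Finset.univ
  rw [Finset.compl_univ, pieces_empty, Finset.card_univ, Fintype.card_fin] at h2
  have h3 : Y.card + (Yᶜ).card = k := by
    rw [Finset.card_add_card_compl, Fintype.card_fin]
  unfold SpansT at h
  omega

theorem posT {arcs : List (Corner k × Corner k)} {Y : Finset (Fin k)} (hY : Y.Nonempty)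
    (h : ∀ e ∈ Y, rkT arcs {e} = 1) : 0 < rkT arcs Finset.univ := by
  obtain ⟨e, he⟩ := hY
  have h1 := (isRk_rkT arcs).mono (Finset.subset_univ {e})
  have h2 := h e he
  omega

theorem span_br (arcs : List (Corner k × Corner k)) (hk : 0 < k) (s : ℕ) (n : Fin k → ℤ)
    (D : Diagram (Ribbon.Pt n)) (hD : Orients D (twisted arcs n)) (h : FSpanLE s D) :
    ∃ lo : ℤ, SIn (twisted arcs n).std.bracket lo (lo + 4 * s) := by
  have hne : Nonempty (Ribbon.Pt n) := ⟨⟨⟨0, hk⟩, 0, true⟩⟩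
  exact span_bracket s _ D hD h

/-- a diagram with short bracket: cancellation -/
theorem cancT {arcs : List (Corner k × Corner k)} (h : ClosedT arcs ∨ OpenT arcs) {Y : Finset (Fin k)}
    (hY : Y.Nonempty) (h1 : pieces arcs Finset.univ = 1) (h2 : ∀ e ∈ Y, rkT arcs {e} = 1) (s : ℕ)
    (n : Fin k → ℤ) (D : Diagram (Ribbon.Pt n)) (hD : Orients D (twisted arcs n)) (hs : FSpanLE s D) :
    Canc (rkT arcs) n (4 * k + s + 1) := by
  have hk : 0 < k := by
    obtain ⟨e, _⟩ := hY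
    exact Fin.pos e
  obtain ⟨lo, hlo⟩ := span_br arcs hk s n D hD hs
  exact canc h hk h1 (posT hY h2) s n lo hlo

/-- the normalised bracket `1` has span `0` -/
theorem one_span {P : Type} {D : Diagram P} (s : ℕ) (h : D.fPoly = 1) : FSpanLE s D := by
  refine ⟨0, fun j hj => ?_⟩
  rw [h] at hj
  have := T4b.SIn.one j hj
  constructor
  · exact this.1
  · have h2 := this.2
    have : (0 : ℤ) ≤ 4 * s := by positivity
    linarith

/-- the three conditions on the twist numbers in the balanced case -/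
def Balanced (Y : Finset (Fin k)) (n : Fin k → ℤ) (X : ℤ) : Prop :=
  (∃ u : Fin k → ℝ, (∀ e ∈ Y, -1 ≤ u e ∧ u e < 1) ∧ (∀ e, e ∉ Y → u e = 1) ∧
      ∀ R R' : Finset (Fin k), |∑ e ∈ R, n e - ∑ e ∈ R', n e| ≤ X → ∏ e ∈ R, u e = ∏ e ∈ R', u e) ∨
    (∃ (M : ℝ) (m : Fin k → ℤ), (∀ e, Odd (m e) ↔ e ∈ Y) ∧ ∑ e, |(n e : ℝ) - M * m e| + X < M) ∨
    (∃ M C : ℕ, (k * C : ℤ) + X < M ∧ (∀ e ∈ Y, (M : ℤ) ≤ |n e| ∧ |n e| ≤ M + C) ∧
      ∀ e, e ∉ Y → |n e| ≤ C)

theorem balancedT {arcs : List (Corner k × Corner k)} (h : ClosedT arcs ∨ OpenT arcs) {Y : Finset (Fin k)}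
    (hY : Y.Nonempty) (hred : ReducedT arcs Y) (hsp : SpansT arcs Y) (s : ℕ) (n : Fin k → ℤ)
    (hb : Balanced Y n (4 * k + s + 1)) (D : Diagram (Ribbon.Pt n)) (hD : Orients D (twisted arcs n)) :
    ¬ FSpanLE s D := by
  intro hs
  have h1 := conn hY hred
  have h2 := simpT h1 hred
  have hC := cancT h hY h1 h2.1 s n D hD hs
  have hr := isRk_rkT arcs
  have h0 := rkT_empty arcs
  have hX : (0 : ℤ) ≤ 4 * k + s + 1 := by positivity
  rcases hb with ⟨u, hu1, hu2, hu3⟩ | ⟨M, m, hm, hM⟩ | ⟨M, C, hM, h3, h4⟩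
  · obtain ⟨R, R', hc, hne⟩ := real_abs hr h0 hC Y h2 (spansT hsp) u hu1 hu2
    exact hne (hu3 R R' hc)
  · exact odd_abs hr h0 hX Y h2 (spansT hsp) M m hm hM hC
  · exact balanced_abs hr h0 hX Y h2 (spansT hsp) M C hM h3 h4 hC

theorem spT {arcs : List (Corner k × Corner k)} (h : ClosedT arcs ∨ OpenT arcs) (hk : 0 < k)
    (hred : ReducedT arcs Finset.univ) (hSP : SP (gT arcs) Finset.univ ∅) (A : Finset (Fin k))
    (hA : SpansT arcs A) (s : ℕ) (n : Fin k → ℤ)
    (hn : ∀ e ∈ A, (k * k.factorial * (4 * k + s + 1) : ℤ) < |n e|)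
    (D : Diagram (Ribbon.Pt n)) (hD : Orients D (twisted arcs n)) : ¬ FSpanLE s D := by
  intro hs
  have hY : (Finset.univ : Finset (Fin k)).Nonempty := ⟨⟨0, hk⟩, Finset.mem_univ _⟩
  have h1 := conn hY hred
  have h2 := simpT h1 hred
  have hC := cancT h hY h1 h2.1 s n D hD hs
  exact sp_abs (isRk_rkT arcs) (rkT_empty arcs) (by positivity) h2
    (sp_dual_univ (isPieces arcs) hSP) A (spansT hA) hn hC

/-! ### flats -/

/-- a short bracket: every family of subsets of `Y` closed under nearness which contains a flat contains a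
flat of the other parity -/
theorem parityT {arcs : List (Corner k × Corner k)} (h : ClosedT arcs ∨ OpenT arcs) {Y : Finset (Fin k)}
    (hY : Y.Nonempty) (h1 : pieces arcs Finset.univ = 1) (hred : ∀ e ∈ Y, pieces arcs {e}ᶜ = 1)
    (hsp : SpansT arcs Y) (s : ℕ) (n : Fin k → ℤ) (D : Diagram (Ribbon.Pt n))
    (hD : Orients D (twisted arcs n)) (hs : FSpanLE s D) :
    (∀ 𝒞 : Finset (Finset (Fin k)), (∀ R ∈ 𝒞, R ⊆ Y) →
      (∀ R ∈ 𝒞, ∀ R' ⊆ Y, |∑ e ∈ R, n e - ∑ e ∈ R', n e| ≤ 4 * k + s + 1 + ∑ e ∈ Yᶜ, |n e| → R' ∈ 𝒞) →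
      ∀ F ∈ 𝒞, FlatIn (rkT arcs) Y F → ∃ F' ∈ 𝒞, FlatIn (rkT arcs) Y F' ∧
        Odd (rkT arcs F + rkT arcs F')) ∧
    ∀ F, FlatIn (rkT arcs) Y F → ∃ R ⊆ Y, R ≠ F ∧
      |∑ e ∈ F, n e - ∑ e ∈ R, n e| ≤ 4 * k + s + 1 + ∑ e ∈ Yᶜ, |n e| := by
  have h2 : ∀ e ∈ Y, rkT arcs {e} = 1 := by
    intro e he
    have h3 := rkT_add arcs {e}
    have h4 := hred e he
    rw [Finset.card_singleton] at h3
    omega
  have hC := cancT h hY h1 h2 s n D hD hs
  refine ⟨fun 𝒞 hCY hCC F hF hFf => ?_, fun F hF => ?_⟩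
  · exact parity (isRk_rkT arcs) hC Y (spansT hsp) 𝒞 hCY hCC F hF hFf
  · exact partner (isRk_rkT arcs) hC Y (spansT hsp) F hF

theorem zeroT {arcs : List (Corner k × Corner k)} (h : ClosedT arcs ∨ OpenT arcs) {Y : Finset (Fin k)}
    (hY : Y.Nonempty) (h1 : pieces arcs Finset.univ = 1) (hred : ∀ e ∈ Y, pieces arcs {e}ᶜ = 1)
    (hsp : SpansT arcs Y) (s : ℕ) (n : Fin k → ℤ)
    (hw : ∀ R ⊆ Y, R.Nonempty → 4 * k + s + 1 + ∑ e ∈ Yᶜ, |n e| < |∑ e ∈ R, n e|)
    (D : Diagram (Ribbon.Pt n)) (hD : Orients D (twisted arcs n)) : ¬ FSpanLE s D := by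
  intro hs
  have h2 : ∀ e ∈ Y, rkT arcs {e} = 1 := by
    intro e he
    have h3 := rkT_add arcs {e}
    have h4 := hred e he
    rw [Finset.card_singleton] at h3
    omega
  have hC := cancT h hY h1 h2 s n D hD hs
  exact zero_sum (isRk_rkT arcs) (rkT_empty arcs) Y h2 (spansT hsp) hw hC

/-! ### a series-parallel part -/

/-- the bound of the theorem on series-parallel parts -/
def errT (k c s C : ℕ) : ℤ := (k + 1) * ((k + 1).factorial * c ^ (k + 1)) * (4 * k + s + 1 + C)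

theorem resT {arcs : List (Corner k × Corner k)} (h : ClosedT arcs ∨ OpenT arcs) {Y : Finset (Fin k)}
    (hY : Y.Nonempty) (hred : ReducedT arcs Y) (hsp : SpansT arcs Y) (hSP : SP (gT arcs) Y Yᶜ)
    (s C c : ℕ) (hc : 1 ≤ c) (n : Fin k → ℤ) (M : ℤ) (a : Fin k → ℤ) (ha : ∀ e, e ∉ Y → |a e| ≤ c)
    (hM : errT k c s C < M) (h1 : ∀ e, e ∉ Y → |n e - a e * M| ≤ C)
    (h2 : ∀ e ∈ Y, ∀ j : ℤ, errT k c s C * (|j| + 1) < |n e - j * M|)
    (D : Diagram (Ribbon.Pt n)) (hD : Orients D (twisted arcs n)) : ¬ FSpanLE s D := by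
  intro hs
  have h3 := conn hY hred
  have h4 := simpT h3 hred
  have hC := cancT h hY h3 h4.1 s n D hD hs
  exact res_abs (isRk_rkT arcs) (rkT_empty arcs) (by positivity) Y h4 (spansT hsp)
    (sp_dual_part (isPieces arcs) Y hSP) C c hc M a ha hM h1 h2 hC

theorem maxT {arcs : List (Corner k × Corner k)} (h : ClosedT arcs ∨ OpenT arcs) {Y : Finset (Fin k)}
    (hY : Y.Nonempty) (hred : ReducedT arcs Y) (hsp : SpansT arcs Y) (hSP : SP (gT arcs) Y Yᶜ)
    (s C : ℕ) (n : Fin k → ℤ) (M : ℤ) (h1 : ∀ e, e ∉ Y → |n e| ≤ C ∨ (M ≤ |n e| ∧ |n e| ≤ M + C))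
    (h2 : ∀ e ∈ Y, errT k 1 s C < |n e| ∧ |n e| < M - 2 * errT k 1 s C)
    (D : Diagram (Ribbon.Pt n)) (hD : Orients D (twisted arcs n)) : ¬ FSpanLE s D := by
  intro hs
  have h3 := conn hY hred
  have h4 := simpT h3 hred
  have hC := cancT h hY h3 h4.1 s n D hD hs
  exact max_abs (isRk_rkT arcs) (rkT_empty arcs) (by positivity) Y hY h4 (spansT hsp)
    (sp_dual_part (isPieces arcs) Y hSP) C M h1 h2 hC

end Run7.h509.Tp
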