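import Pool.Agent.Run7.h509.Siegel

/-!
# Translation between graphs and matroids
-/

set_option autoImplicit false

namespace Run7.h509

open Finset Pool.Agent.H891R2.MT Pool.Agent.H891R2.DS

variable {k : ℕ} {Γ : Ribbon k}

theorem uuniv (S : Finset (Fin k)) : S ∪ Finset.univ = Finset.univ := by
  ext x; simp

theorem gr_empty : gr Γ ∅ = 0 := by
  have := gr_add Γ ∅
  rw [T3c.comps_empty] at this
  omega

theorem rk_empty (h1 : Γ.comps Finset.univ = 1) (S : Finset (Fin k)) : rk Γ S ∅ = 0 := by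
  have := rk_add h1 S ∅
  rw [Finset.empty_inter, T3c.comps_empty, Finset.compl_empty, uuniv, h1, 
    Finset.empty_sdiff, Finset.card_empty] at this
  omega

theorem rk_mem (h1 : Γ.comps Finset.univ = 1) {S : Finset (Fin k)} {e : Fin k} (he : e ∈ S) 
    (A : Finset (Fin k)) : 
    rk Γ S (insert e A) + gr Γ (A ∩ S) = rk Γ S A + gr Γ (insert e (A ∩ S)) := by
  have a1 := rk_add h1 S A
  have a2 := rk_add h1 S (insert e A)
  obtain ⟨b1, b2, b3⟩ := ins_mem (A := A) he
  rw [b1, b2, b3] at a2
  have a3 := gr_add Γ (A ∩ S)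
  have a4 := gr_add Γ (insert e (A ∩ S))
  omega

theorem rk_not (h1 : Γ.comps Finset.univ = 1) {S : Finset (Fin k)} {e : Fin k} (he : e ∉ S) 
    {A : Finset (Fin k)} (heA : e ∉ A) : 
    rk Γ S (insert e A) + Γ.comps ((S ∪ Aᶜ).erase e) = rk Γ S A + 1 + Γ.comps (S ∪ Aᶜ) := by
  have a1 := rk_add h1 S A
  have a2 := rk_add h1 S (insert e A)
  obtain ⟨b1, b2, b3, b4⟩ := ins_not he heA
  rw [b1, b2, b3] at a2
  omega

theorem rk_single (h1 : Γ.comps Finset.univ = 1) {S Y : Finset (Fin k)} (h : TwistReduced Γ S Y) 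
    {e : Fin k} (he : e ∈ Y) : rk Γ S {e} = 1 := by
  by_cases heS : e ∈ S
  · have h2 := rk_mem h1 heS ∅
    rw [Finset.empty_inter, rk_empty h1, gr_empty] at h2
    have h3 := h.1 e he heS
    have h4 := gr_add Γ {e}
    change rk Γ S {e} + 0 = 0 + gr Γ {e} at h2
    omega
  · have h2 := rk_not h1 heS (Finset.notMem_empty e)
    rw [rk_empty h1, Finset.compl_empty, uuniv, h1] at h2
    have h3 := h.2.1 e he heS
    have h4 : Finset.univ.erase e = ({e} : Finset (Fin k))ᶜ := by
      ext x; simp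
    rw [h4, h3] at h2
    change rk Γ S {e} + 1 = _ at h2
    omega

theorem rk_pair (h1 : Γ.comps Finset.univ = 1) {S Y : Finset (Fin k)} (h : TwistReduced Γ S Y) 
    {e f : Fin k} (he : e ∈ Y) (hf : f ∈ Y) (hne : e ≠ f) : rk Γ S {f, e} = 2 := by
  have s1 := rk_single h1 h he
  have s2 := rk_single h1 h hf
  -- one of them in `S`, the other one not
  have mixed : ∀ e ∈ Y, ∀ f ∈ Y, e ∈ S → f ∉ S → rk Γ S {e, f} = 2 := by
    intro e he f hf heS hfS
    have h2 := rk_mem h1 heS {f}
    have h3 : ({f} : Finset (Fin k)) ∩ S = ∅ := by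
      ext x
      simp only [Finset.mem_inter, Finset.mem_singleton, Finset.notMem_empty, iff_false, not_and]
      rintro rfl
      exact hfS
    rw [h3, gr_empty, rk_single h1 h hf] at h2
    have h4 := gr_add Γ {e}
    have h5 := h.1 e he heS
    change rk Γ S {e, f} + 0 = 1 + gr Γ {e} at h2
    omega
  by_cases heS : e ∈ S
  · by_cases hfS : f ∈ S
    · have h2 := rk_mem h1 hfS {e}
      have h3 : ({e} : Finset (Fin k)) ∩ S = {e} := by
        ext x
        simp only [Finset.mem_inter, Finset.mem_singleton, and_iff_left_iff_imp]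
        rintro rfl
        exact heS
      rw [h3, s1] at h2
      have h4 := h.2.2.1 f hf e he hne.symm hfS heS
      have h5 := gr_add Γ {f, e}
      have h6 := gr_add Γ {e}
      have h7 := h.1 e he heS
      change rk Γ S {f, e} + gr Γ {e} = 1 + gr Γ {f, e} at h2
      omega
    · rw [Finset.pair_comm]
      exact mixed e he f hf heS hfS
  · by_cases hfS : f ∈ S
    · exact mixed f hf e he hfS heS
    · have h2 := rk_not h1 hfS (A := {e}) (by simpa using hne.symm)
      have h3 : S ∪ ({e} : Finset (Fin k))ᶜ = ({e} : Finset (Fin k))ᶜ := by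
        rw [Finset.union_eq_right]
        intro x hx
        simp only [Finset.mem_compl, Finset.mem_singleton]
        rintro rfl
        exact heS hx
      rw [h3, s1, h.2.1 e he heS] at h2
      have h4 : (({e} : Finset (Fin k))ᶜ).erase f = ({f, e} : Finset (Fin k))ᶜ := by
        ext x; simp
      rw [h4, h.2.2.2 f hf e he hne.symm hfS heS] at h2
      change rk Γ S {f, e} + 1 = _ at h2
      omega

theorem spans_iff (h1 : Γ.comps Finset.univ = 1) (S Y : Finset (Fin k)) : 
    Spans Γ S Y ↔ rk Γ S Y = rk Γ S Finset.univ := by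
  have a1 := rk_add h1 S Y
  have a2 := rk_add h1 S Finset.univ
  rw [Finset.univ_inter, Finset.compl_univ, Finset.union_empty, ← Finset.compl_eq_univ_sdiff] at a2
  have e4 : (Sᶜ).card = (Y \ S).card + (Sᶜ \ Y).card := by
    rw [← Finset.card_union_of_disjoint]
    · congr 1
      ext x
      simp only [Finset.mem_union, Finset.mem_compl, Finset.mem_sdiff]
      tauto
    · rw [Finset.disjoint_left]
      intro x hx hx'
      simp only [Finset.mem_sdiff] at hx hx'
      exact hx'.2 hx.1
  have f1 : Γ.comps S ≤ Γ.comps (Y ∩ S) := comps_anti Γ Finset.inter_subset_right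
  have f3 : Γ.comps S ≤ Γ.comps (S ∪ Yᶜ) + (Sᶜ \ Y).card := by
    have h := comps_union_le Γ S (Sᶜ \ Y)
    have h2 : (Sᶜ \ Y) ∪ S = S ∪ Yᶜ := by
      ext x
      simp only [Finset.mem_union, Finset.mem_compl, Finset.mem_sdiff]
      tauto
    rwa [h2] at h
  unfold Spans
  omega

theorem spans_mono {S Y Y' : Finset (Fin k)} (h1 : Γ.comps Finset.univ = 1) (h : Y ⊆ Y') 
    (hs : Spans Γ S Y) : Spans Γ S Y' := by
  rw [spans_iff h1] at hs ⊢
  have h2 := (isRk_rk h1 S).mono h
  have h3 := (isRk_rk h1 S).mono (Finset.subset_univ Y')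
  omega

/-! ### series-parallel graphs -/

theorem mem_B {S C R Y : Finset (Fin k)} (hSC : S ⊆ C) (hYd : Disjoint Y C) (hR : R ⊆ S) (x : Fin k) : 
    (x ∈ C ∧ x ∉ Y) ∨ (x ∉ C ∧ x ∉ S ∧ x ∉ R) := by
  by_cases h1 : x ∈ C
  · exact Or.inl ⟨h1, fun h => (Finset.disjoint_left.1 hYd) h h1⟩
  · exact Or.inr ⟨h1, fun h => h1 (hSC h), fun h => h1 (hSC (hR h))⟩

theorem set1 {S C R Y : Finset (Fin k)} (hSC : S ⊆ C) (hYd : Disjoint Y C) (hR : R ⊆ S) {e : Fin k} 
    (he : e ∉ Y) : S ∪ (Y ∪ (R ∪ (insert e Y ∪ C)ᶜ))ᶜ = insert e C := by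
  ext x
  simp only [Finset.mem_union, Finset.mem_compl, Finset.mem_insert]
  rcases mem_B hSC hYd hR x with ⟨h1, h2⟩ | ⟨h1, h3, h4⟩
  · by_cases h3 : x ∈ S
    · simp [h1, h3]
    · have h4 : x ∉ R := fun h => h3 (hR h)
      simp [h1, h2, h4]
  · by_cases hx : x = e
    · subst hx; simp [he, h4]
    · by_cases h5 : x ∈ Y <;> simp [h1, h3, hx, h5]

theorem set2 {S C R Y : Finset (Fin k)} (hSC : S ⊆ C) (hYd : Disjoint Y C) (hR : R ⊆ S) {e : Fin k} 
    (heS : e ∉ S) : S ∪ (R ∪ (insert e (Y ∪ C))ᶜ)ᶜ = insert e (Y ∪ C) := by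
  ext x
  simp only [Finset.mem_union, Finset.mem_compl, Finset.mem_insert]
  rcases mem_B hSC hYd hR x with ⟨h1, h2⟩ | ⟨h1, h3, h4⟩
  · by_cases h3 : x ∈ S
    · simp [h1, h3]
    · have h4 : x ∉ R := fun h => h3 (hR h)
      simp [h1, h4]
  · by_cases hx : x = e
    · subst hx; simp [h4]
    · by_cases h5 : x ∈ Y <;> simp [h1, h3, h4, hx, h5]

theorem set3 {S C R Y : Finset (Fin k)} (hSC : S ⊆ C) (hYd : Disjoint Y C) (hR : R ⊆ S) {e f : Fin k} 
    (he : e ∉ Y) (hf : f ∉ Y) : 
    S ∪ (Y ∪ (R ∪ (insert e (insert f Y) ∪ C)ᶜ))ᶜ = insert e (insert f C) := by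
  ext x
  simp only [Finset.mem_union, Finset.mem_compl, Finset.mem_insert]
  rcases mem_B hSC hYd hR x with ⟨h1, h2⟩ | ⟨h1, h3, h4⟩
  · by_cases h3 : x ∈ S
    · simp [h1, h3]
    · have h4 : x ∉ R := fun h => h3 (hR h)
      simp [h1, h2, h4]
  · by_cases hx : x = e
    · subst hx; simp [he, h4]
    · by_cases hx' : x = f
      · subst hx'; simp [hf, h4]
      · by_cases h5 : x ∈ Y <;> simp [h1, h3, hx, hx', h5]

theorem set4 {S C R Y : Finset (Fin k)} (hSC : S ⊆ C) (hYd : Disjoint Y C) (hR : R ⊆ S) {e f : Fin k} : 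
    S ∪ (R ∪ (insert e (insert f Y) ∪ C)ᶜ)ᶜ = insert e (insert f (Y ∪ C)) := by
  ext x
  simp only [Finset.mem_union, Finset.mem_compl, Finset.mem_insert]
  rcases mem_B hSC hYd hR x with ⟨h1, h2⟩ | ⟨h1, h3, h4⟩
  · by_cases h3 : x ∈ S
    · simp [h1, h3]
    · have h4 : x ∉ R := fun h => h3 (hR h)
      simp [h1, h4]
  · by_cases hx : x = e
    · subst hx; simp [h4]
    · by_cases hx' : x = f
      · subst hx'; simp [h4]
      · by_cases h5 : x ∈ Y <;> simp [h1, h3, h4, hx, hx', h5]

/-- the edges outside `S` -/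
theorem sp_dual (h1 : Γ.comps Finset.univ = 1) (S : Finset (Fin k)) {Y C : Finset (Fin k)} 
    (h : SP (gr Γ) Y C) : S ⊆ C → Disjoint Y C → ∀ R : Finset (Fin k), R ⊆ S → 
      SP (rk Γ S) Y (R ∪ (Y ∪ C)ᶜ) := by
  induction h with
  | nil C => intro _ _ R _; exact SP.nil _
  | @loop Y C e he hl hsp ih =>
    intro hSC hd R hR
    have heC : e ∉ C := fun h => (Finset.disjoint_left.1 hd) (Finset.mem_insert_self _ _) h
    have heS : e ∉ S := fun h => heC (hSC h)
    have heR : e ∉ R := fun h => heS (hR h)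
    have hYd : Disjoint Y C := Finset.disjoint_of_subset_left (Finset.subset_insert _ _) hd
    have i1 := ih hSC hYd R hR
    have e1 : R ∪ (Y ∪ C)ᶜ = insert e (R ∪ (insert e Y ∪ C)ᶜ) := by
      ext x
      simp only [Finset.mem_union, Finset.mem_compl, Finset.mem_insert]
      by_cases hx : x = e
      · subst hx; simp [he, heC]
      · simp [hx]
    rw [e1] at i1
    refine SP.coloop he ?_ i1
    have h2 := rk_not h1 heS (A := Y ∪ (R ∪ (insert e Y ∪ C)ᶜ)) (by simp [he, heR])
    rw [set1 hSC hYd hR he, Finset.erase_insert heC] at h2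
    have h3 := gr_add Γ (insert e C)
    have h4 := gr_add Γ C
    omega
  | @coloop Y C e he hcl hsp ih =>
    intro hSC hd R hR
    have heC : e ∉ C := fun h => (Finset.disjoint_left.1 hd) (Finset.mem_insert_self _ _) h
    have heS : e ∉ S := fun h => heC (hSC h)
    have heR : e ∉ R := fun h => heS (hR h)
    have hYd : Disjoint Y C := Finset.disjoint_of_subset_left (Finset.subset_insert _ _) hd
    have hYd' : Disjoint Y (insert e C) := by
      rw [Finset.disjoint_insert_right]
      exact ⟨he, hYd⟩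
    have i1 := ih (hSC.trans (Finset.subset_insert _ _)) hYd' R hR
    rw [Finset.union_insert] at i1
    rw [Finset.insert_union]
    refine SP.loop he ?_ i1
    have h2 := rk_not h1 heS (A := R ∪ (insert e (Y ∪ C))ᶜ) (by simp [heR])
    rw [set2 hSC hYd hR heS, Finset.erase_insert (by simp [he, heC])] at h2
    have h3 := gr_add Γ (insert e (Y ∪ C))
    have h4 := gr_add Γ (Y ∪ C)
    omega
  | @par Y C e f he hf hle hlf hef hsp ih =>
    intro hSC hd R hR
    have hne : e ≠ f := fun h => he (by rw [h]; exact Finset.mem_insert_self _ _)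
    have heY : e ∉ Y := fun h => he (Finset.mem_insert_of_mem h)
    have heC : e ∉ C := fun h => (Finset.disjoint_left.1 hd) (Finset.mem_insert_self _ _) h
    have heS : e ∉ S := fun h => heC (hSC h)
    have heR : e ∉ R := fun h => heS (hR h)
    have hfC : f ∉ C := fun h => (Finset.disjoint_left.1 hd) 
      (Finset.mem_insert_of_mem (Finset.mem_insert_self _ _)) h
    have hfS : f ∉ S := fun h => hfC (hSC h)
    have hfR : f ∉ R := fun h => hfS (hR h)
    have hYd : Disjoint Y C := Finset.disjoint_of_subset_left 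
      ((Finset.subset_insert _ _).trans (Finset.subset_insert _ _)) hd
    have hYd' : Disjoint (insert e Y) C := by
      rw [Finset.disjoint_insert_left]
      exact ⟨heC, hYd⟩
    have i1 := ih hSC hYd' R hR
    have e1 : R ∪ (insert e Y ∪ C)ᶜ = insert f (R ∪ (insert e (insert f Y) ∪ C)ᶜ) := by
      ext x
      simp only [Finset.mem_union, Finset.mem_compl, Finset.mem_insert]
      by_cases hx : x = f
      · subst hx; simp [hf, hfC, hne.symm]
      · simp [hx]
    rw [e1] at i1
    -- the ranks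
    have c1 := set3 hSC hYd hR heY hf
    set B := R ∪ (insert e (insert f Y) ∪ C)ᶜ with hB
    have heB : e ∉ Y ∪ B := by simp [hB, heY, heR]
    have hfB : f ∉ Y ∪ B := by simp [hB, hf, hfR]
    have hfB' : f ∉ insert e (Y ∪ B) := by
      rw [Finset.mem_insert]
      rintro (h | h)
      · exact hne h.symm
      · exact hfB h
    have n1 : e ∉ insert f C := by simp [hne, heC]
    have n2 : f ∉ insert e C := by simp [hne.symm, hfC]
    have h2 := rk_not h1 heS heB
    have h3 := rk_not h1 hfS hfB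
    have h4 := rk_not h1 hfS hfB'
    obtain ⟨_, _, c2, _⟩ := ins_not heS heB
    rw [c2, c1, Finset.erase_insert n1, Finset.erase_insert hfC] at h4
    rw [c1, Finset.erase_insert n1] at h2
    rw [c1, Finset.insert_comm, Finset.erase_insert n2] at h3
    have g1 := gr_add Γ (insert e C)
    have g2 := gr_add Γ (insert f C)
    have g3 := gr_add Γ (insert f (insert e C))
    have g4 := gr_add Γ C
    rw [Finset.insert_comm e f] at h2
    refine SP.ser he hf ?_ ?_ ?_ i1 <;> omega
  | @ser Y C e f he hf hce hcf hcef hsp ih =>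
    intro hSC hd R hR
    have hne : e ≠ f := fun h => he (by rw [h]; exact Finset.mem_insert_self _ _)
    have heY : e ∉ Y := fun h => he (Finset.mem_insert_of_mem h)
    have heC : e ∉ C := fun h => (Finset.disjoint_left.1 hd) (Finset.mem_insert_self _ _) h
    have heS : e ∉ S := fun h => heC (hSC h)
    have heR : e ∉ R := fun h => heS (hR h)
    have hfC : f ∉ C := fun h => (Finset.disjoint_left.1 hd) 
      (Finset.mem_insert_of_mem (Finset.mem_insert_self _ _)) h
    have hfS : f ∉ S := fun h => hfC (hSC h)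
    have hfR : f ∉ R := fun h => hfS (hR h)
    have hYd : Disjoint Y C := Finset.disjoint_of_subset_left 
      ((Finset.subset_insert _ _).trans (Finset.subset_insert _ _)) hd
    have hYd' : Disjoint (insert e Y) (insert f C) := by
      rw [Finset.disjoint_insert_left, Finset.disjoint_insert_right, Finset.mem_insert]
      refine ⟨?_, hf, hYd⟩
      rintro (h | h)
      · exact hne h
      · exact heC h
    have i1 := ih (hSC.trans (Finset.subset_insert _ _)) hYd' R hR
    have e1 : insert e Y ∪ insert f C = insert e (insert f Y) ∪ C := by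
      rw [Finset.union_insert, Finset.insert_union, Finset.insert_union, Finset.insert_union, 
        Finset.insert_comm]
    rw [e1] at i1
    have c1 := set4 hSC hYd hR (e := e) (f := f)
    set B := R ∪ (insert e (insert f Y) ∪ C)ᶜ with hB
    have heB : e ∉ B := by simp [hB, heR]
    have hfB : f ∉ B := by simp [hB, hfR]
    have hfB' : f ∉ insert e B := by
      rw [Finset.mem_insert]
      rintro (h | h)
      · exact hne h.symm
      · exact hfB h
    have m1 : e ∉ insert f (Y ∪ C) := by simp [hne, heY, heC]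
    have m2 : f ∉ Y ∪ C := by simp [hf, hfC]
    have m4 : f ∉ insert e (Y ∪ C) := by simp [hne.symm, hf, hfC]
    have h2 := rk_not h1 heS heB
    have h3 := rk_not h1 hfS hfB
    have h4 := rk_not h1 hfS hfB'
    obtain ⟨_, _, c2, _⟩ := ins_not heS heB
    rw [c2, c1, Finset.erase_insert m1, Finset.erase_insert m2] at h4
    rw [c1, Finset.erase_insert m1] at h2
    rw [c1, Finset.insert_comm, Finset.erase_insert m4] at h3
    have g1 := gr_add Γ (insert e (Y ∪ C))
    have g2 := gr_add Γ (insert f (Y ∪ C))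
    have g3 := gr_add Γ (insert f (insert e (Y ∪ C)))
    have g4 := gr_add Γ (Y ∪ C)
    rw [Finset.insert_comm e f] at h2
    refine SP.par he hf ?_ ?_ ?_ i1 <;> omega

theorem set5 {S C Y : Finset (Fin k)} (hY : Y ⊆ S) (hC : C ⊆ S) : ((Y ∪ Sᶜ) ∪ C) ∩ S = Y ∪ C := by
  ext x
  simp only [Finset.mem_union, Finset.mem_compl, Finset.mem_inter]
  by_cases h : x ∈ S
  · simp [h]
  · have h1 : x ∉ Y := fun h' => h (hY h')
    have h2 : x ∉ C := fun h' => h (hC h')
    simp [h, h1, h2]

theorem set6 {S Y : Finset (Fin k)} {e f : Fin k} (he : e ∉ insert f Y) (heS : e ∈ S) : 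
    e ∉ insert f (Y ∪ Sᶜ) := by
  rw [Finset.mem_insert, not_or] at he
  simp [he.1, he.2, heS]

/-- the edges in `S` -/
theorem sp_direct (h1 : Γ.comps Finset.univ = 1) (S : Finset (Fin k)) {Y C : Finset (Fin k)} 
    (h : SP (gr Γ) Y C) : Y ⊆ S → C ⊆ S → (∀ R : Finset (Fin k), R ⊆ S → SP (rk Γ S) Sᶜ R) → 
      SP (rk Γ S) (Y ∪ Sᶜ) C := by
  induction h with
  | nil C => 
    intro _ hC hR
    rw [Finset.empty_union]
    exact hR C hC
  | @loop Y C e he hl hsp ih =>
    intro hY hC hR
    have heS := hY (Finset.mem_insert_self _ _)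
    rw [Finset.insert_union]
    refine SP.loop (by simp [he, heS]) ?_ (ih ((Finset.subset_insert _ _).trans hY) hC hR)
    have h2 := rk_mem h1 heS C
    rw [Finset.inter_eq_left.2 hC] at h2
    omega
  | @coloop Y C e he hcl hsp ih =>
    intro hY hC hR
    have heS := hY (Finset.mem_insert_self _ _)
    have hY' := (Finset.subset_insert _ _).trans hY
    rw [Finset.insert_union]
    refine SP.coloop (by simp [he, heS]) ?_ (ih hY' (Finset.insert_subset heS hC) hR)
    have h2 := rk_mem h1 heS ((Y ∪ Sᶜ) ∪ C)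
    have e1 := set5 hY' hC
    rw [e1] at h2
    omega
  | @par Y C e f he hf hle hlf hef hsp ih =>
    intro hY hC hR
    have heS := hY (Finset.mem_insert_self _ _)
    have hfS := hY (Finset.mem_insert_of_mem (Finset.mem_insert_self _ _))
    have hY' : insert e Y ⊆ S := (Finset.insert_subset_insert _ (Finset.subset_insert _ _)).trans hY
    have i1 := ih hY' hC hR
    rw [Finset.insert_union] at i1
    rw [Finset.insert_union, Finset.insert_union]
    have he' := set6 he heS
    have h2 := rk_mem h1 heS C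
    have h3 := rk_mem h1 hfS C
    have h4 := rk_mem h1 hfS (insert e C)
    have e1 : (insert e C) ∩ S = insert e C := Finset.inter_eq_left.2 (Finset.insert_subset heS hC)
    rw [Finset.inter_eq_left.2 hC] at h2 h3
    rw [e1] at h4
    refine SP.par he' (by simp [hf, hfS]) ?_ ?_ ?_ i1 <;> omega
  | @ser Y C e f he hf hce hcf hcef hsp ih =>
    intro hY hC hR
    have heS := hY (Finset.mem_insert_self _ _)
    have hfS := hY (Finset.mem_insert_of_mem (Finset.mem_insert_self _ _))
    have hY' : insert e Y ⊆ S := (Finset.insert_subset_insert _ (Finset.subset_insert _ _)).trans hY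
    have i1 := ih hY' (Finset.insert_subset hfS hC) hR
    rw [Finset.insert_union] at i1
    rw [Finset.insert_union, Finset.insert_union]
    have he' := set6 he heS
    have h2 := rk_mem h1 heS ((Y ∪ Sᶜ) ∪ C)
    have h3 := rk_mem h1 hfS ((Y ∪ Sᶜ) ∪ C)
    have h4 := rk_mem h1 hfS (insert e ((Y ∪ Sᶜ) ∪ C))
    have e1 := set5 (fun x h => hY (Finset.mem_insert_of_mem (Finset.mem_insert_of_mem h)) : Y ⊆ S) hC
    rw [e1] at h2 h3
    rw [Finset.insert_inter_of_mem heS, e1] at h4
    refine SP.ser he' (by simp [hf, hfS]) ?_ ?_ ?_ i1 <;> omega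

theorem sp_both (h1 : Γ.comps Finset.univ = 1) (S : Finset (Fin k)) (hS : SP (gr Γ) S ∅) 
    (hS' : SP (gr Γ) Sᶜ S) : SP (rk Γ S) Finset.univ ∅ := by
  have h2 := sp_direct h1 S hS (Finset.Subset.refl _) (Finset.empty_subset _) (fun R hR => by
    have h3 := sp_dual h1 S hS' (Finset.Subset.refl _) disjoint_compl_left R hR
    have h4 : (Sᶜ ∪ S)ᶜ = (∅ : Finset (Fin k)) := by
      rw [Finset.union_comm, Finset.union_compl, Finset.compl_univ]
    rw [h4, Finset.union_empty] at h3
    exact h3)
  rw [Finset.union_compl] at h2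
  exact h2

end Run7.h509
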