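import Pool.Agent.Run7.h509.Tp3
import Pool.Agent.H832R3.VJ.Fin
import Pool.Agent.H891R2.VS.Site

/-!
# Vassiliev invariants of bounded order on templates
-/

set_option autoImplicit false

namespace Run7.h509.Vs

open Finset LaurentPolynomial Pool.Agent.H891R2.Jones Pool.Agent.H891R2.MT Pool.Agent.H832R3.TW
  Pool.Agent.H832R3.VJ T4b
open Run7.h509 Run7.h509.Tp

variable {k : ℕ}

/-- the normalised bracket of a member of a twist family, multiplied by a power of `δ`, has a bounded
number of terms -/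
theorem supp_tw (arcs : List (Corner k × Corner k)) (hk : 0 < k) (m : ℕ) (n : Fin k → ℤ)
    (D : Diagram (Ribbon.Pt n)) (hD : Orients D (twisted arcs n)) :
    ((-T 2 - T (-2) : ℤ[T;T⁻¹]) ^ (k + 1 + m) * D.fPoly).coeff.support.card ≤
      2 ^ k * (12 * k + 4 * m + 1) := by
  have hne : Nonempty (Ribbon.Pt n) := ⟨⟨⟨0, hk⟩, 0, true⟩⟩
  have hid := identity arcs hk n
  rw [← T6.bracket_orients D _ hD] at hid
  have h1 : D.fPoly = C (if Even D.writhe then (1:ℤ) else -1) * T (-3 * D.writhe) * D.bracket := by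
    unfold Diagram.fPoly
    by_cases hw : Even D.writhe
    · simp only [hw, if_true, map_one]
    · simp only [hw, if_false, map_neg, map_one]
  obtain ⟨ε, a, hf⟩ : ∃ ε a : ℤ, (-T 2 - T (-2) : ℤ[T;T⁻¹]) ^ (k + 1 + m) * D.fPoly =
      C ε * T a * ∑ S : Finset (Fin k), C ((-1) ^ (nS n S).natAbs) * T (4 * nS n S) *
        ((-T 2 - T (-2)) ^ m * Polynomial.aeval (-T 2 - T (-2) : ℤ[T;T⁻¹]) (cp arcs S)) := by
    refine ⟨(if Even D.writhe then (1:ℤ) else -1) * (-1) ^ (nS n univ).natAbs,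
      -3 * D.writhe - 3 * nS n univ, ?_⟩
    have h2 : ∑ S : Finset (Fin k), C ((-1 : ℤ) ^ (nS n S).natAbs) * T (4 * nS n S) *
        ((-T 2 - T (-2) : ℤ[T;T⁻¹]) ^ m * Polynomial.aeval (-T 2 - T (-2) : ℤ[T;T⁻¹]) (cp arcs S)) =
        (-T 2 - T (-2)) ^ m * (((-1) ^ (nS n univ).natAbs * T (3 * nS n univ)) *
          (-T 2 - T (-2)) ^ (1 + k) * D.bracket) := by
      rw [← hid, Finset.mul_sum]
      refine Finset.sum_congr rfl fun S _ => ?_
      rw [map_pow, map_neg, map_one]
      ring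
    rw [h2, h1, map_mul, map_pow, map_neg, map_one]
    have h3 : (T (-3 * D.writhe - 3 * nS n univ) : ℤ[T;T⁻¹]) * T (3 * nS n univ) =
        T (-3 * D.writhe) := by
      rw [← T_add]
      congr 1
      ring
    have h4 : ((-1 : ℤ[T;T⁻¹]) ^ (nS n univ).natAbs) * (-1) ^ (nS n univ).natAbs = 1 := by
      rw [← mul_pow]
      norm_num
    have h5 : (-T 2 - T (-2) : ℤ[T;T⁻¹]) ^ (k + 1 + m) = (-T 2 - T (-2)) ^ m * (-T 2 - T (-2)) ^ (1 + k) := by
      rw [← pow_add]
      congr 1
      omega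
    rw [h5, ← h3]
    linear_combination (-(-T 2 - T (-2) : ℤ[T;T⁻¹]) ^ m * (-T 2 - T (-2)) ^ (1 + k) *
      C (if Even D.writhe then (1:ℤ) else -1) * (T (-3 * D.writhe - 3 * nS n univ) * T (3 * nS n univ)) *
      D.bracket) * h4
  rw [hf]
  refine (FinL.card_support_unit _ _ _).trans ?_
  refine (Pool.Agent.H891R2.VS.card_support_sum _ _ (12 * k + 4 * m + 1) ?_).trans (by simp)
  intro S _
  refine (FinL.card_support_unit _ _ _).trans ?_
  have h2 := (T4b.SIn_d.pow m).mul (Pool.Agent.H832R3.TW.SIn_aeval (cp arcs S) (cp_natDegree arcs S))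
  have h5 := Pool.Agent.H891R2.VS.card_support_le
    ((-T 2 - T (-2)) ^ m * Polynomial.aeval (-T 2 - T (-2) : ℤ[T;T⁻¹]) (cp arcs S))
    (-(6 * k + 2 * m)) (2 * (6 * k + 2 * m)) (by positivity) (fun j hj => by
      have := h2 j hj
      push_cast at this
      constructor
      · linarith [this.1]
      · linarith [this.2])
  omega

/-- the bound on the order: one member of a twist family with `k` boxes and a diagram of span at most `s` -/
def ordT (k s : ℕ) : ℕ := 2 ^ k * (12 * k + 1) + 4 * (k + s + 1)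

/-- the bound on the order: two members of twist families with `k` and `k'` boxes -/
def ordP (k k' : ℕ) : ℕ := 2 ^ k * (12 * k + 4 * k' + 5) + 2 ^ k' * (12 * k' + 4 * k + 5)

/-- a member of a twist family and a diagram whose normalised bracket has small span -/
theorem sep_fix (arcs : List (Corner k × Corner k)) (hk : 0 < k) (s : ℕ) (n : Fin k → ℤ)
    (D : Diagram (Ribbon.Pt n)) (hD : Orients D (twisted arcs n)) (Y : Dia) (hY : FSpanLE s Y.D)
    (hne : D.fPoly ≠ Y.D.fPoly) : Separated (ordT k s) ⟨_, inferInstance, D⟩ Y := by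
  refine separated_of_ne (ordT k s + 1) ⟨_, inferInstance, D⟩ Y ((-T 2 - T (-2)) ^ (k + 1))
    (pow_ne_zero _ FinL.delta_ne) ?_ hne
  rw [mul_sub]
  refine (FinL.card_support_sub _ _).trans ?_
  have h1 := supp_tw arcs hk 0 n D hD
  simp only [add_zero, mul_zero] at h1
  obtain ⟨lo, hlo⟩ := hY
  have h2 : SIn Y.D.fPoly lo (lo + 4 * s) := hlo
  have h3 := (T4b.SIn_d.pow (k + 1)).mul h2
  have h4 := Pool.Agent.H891R2.VS.card_support_le ((-T 2 - T (-2)) ^ (k + 1) * Y.D.fPoly)
    (lo - 2 * (k + 1)) (4 * (k + s + 1)) (by positivity) (fun j hj => by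
      have := h3 j hj
      push_cast at this
      constructor
      · linarith [this.1]
      · linarith [this.2])
  have h6 : (⟨_, inferInstance, D⟩ : Dia).D.fPoly = D.fPoly := rfl
  rw [h6]
  unfold ordT
  omega

/-- two members of twist families -/
theorem sep_pair {k' : ℕ} (arcs : List (Corner k × Corner k)) (arcs' : List (Corner k' × Corner k'))
    (hk : 0 < k) (hk' : 0 < k') (n : Fin k → ℤ) (n' : Fin k' → ℤ)
    (D : Diagram (Ribbon.Pt n)) (hD : Orients D (twisted arcs n))
    (D' : Diagram (Ribbon.Pt n')) (hD' : Orients D' (twisted arcs' n'))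
    (hne : D.fPoly ≠ D'.fPoly) :
    Separated (ordP k k') ⟨_, inferInstance, D⟩ ⟨_, inferInstance, D'⟩ := by
  have h := separated_of_ne (ordP k k' + 1) ⟨_, inferInstance, D⟩ ⟨_, inferInstance, D'⟩
    ((-T 2 - T (-2)) ^ (k + 1 + (k' + 1))) (pow_ne_zero _ FinL.delta_ne) ?_ hne
  · exact h
  · rw [mul_sub]
    refine (FinL.card_support_sub _ _).trans ?_
    have h1 := supp_tw arcs hk (k' + 1) n D hD
    have h2 := supp_tw arcs' hk' (k + 1) n' D' hD'
    have e : k' + 1 + (k + 1) = k + 1 + (k' + 1) := by ring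
    rw [e] at h2
    have e1 : 2 ^ k * (12 * k + 4 * (k' + 1) + 1) = 2 ^ k * (12 * k + 4 * k' + 5) := by ring
    have e2 : 2 ^ k' * (12 * k' + 4 * (k + 1) + 1) = 2 ^ k' * (12 * k' + 4 * k + 5) := by ring
    rw [e1] at h1
    rw [e2] at h2
    unfold ordP
    simp only
    omega

theorem unknot_span (s : ℕ) : FSpanLE s unknot.D := one_span s fPoly_unknot

/-- a member which is not separated from the unknot has the normalised bracket `1` -/
theorem one_of_hidden (arcs : List (Corner k × Corner k)) (hk : 0 < k) (n : Fin k → ℤ)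
    (D : Diagram (Ribbon.Pt n)) (hD : Orients D (twisted arcs n))
    (h : ¬ Separated (ordT k 0) ⟨_, inferInstance, D⟩ unknot) : D.fPoly = 1 := by
  by_contra hne
  exact h (sep_fix arcs hk 0 n D hD unknot (unknot_span 0) (by rw [fPoly_unknot]; exact hne))

end Run7.h509.Vs
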